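import Pool.Agent.W_448pg_h74.PgA
import Pool.Agent.W_448s7_h27.HangA
import Pool.Agent.W_448tw_h76.TwD

/-!
The bounded window sums of a part with component data and twins (MP_448cb3_co).
-/

namespace Pool.Agent.GaussPoset

set_option linter.unusedSectionVars false

open Polynomial Finset

universe u

variable {P : Type u} [Fintype P] [PartialOrder P] [DecidableEq P]
variable {ι : Type*} [Fintype ι] [DecidableEq ι]

section Part

variable {R : Finset P} {cp : P → ι} {k : ι}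

lemma pg_part_up (hR : ∀ x y, x ≤ y → y ∈ R → x ∈ R) (hcp : ∀ x y, x ≤ y → x ∉ R → cp x = cp y) :
    ∀ x y : P, x ≤ y → (x ∉ R ∧ cp x = k) → (y ∉ R ∧ cp y = k) := by
  rintro x y hxy ⟨h1, h2⟩
  exact ⟨fun h => h1 (hR x y hxy h), (hcp x y hxy h1).symm.trans h2⟩

/-- sums over the part of a function supported above an element of the part -/
lemma sum_part_eq (f : P → ℕ) (hf : ∀ y, f y ≠ 0 → y ∉ R ∧ cp y = k) :
    ∑ y : {x : P // x ∉ R ∧ cp x = k}, f y = ∑ y, f y := by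
  classical
  have h1 : ∑ y ∈ univ.filter (fun x => x ∉ R ∧ cp x = k), f y = ∑ y, f y := by
    refine Finset.sum_subset (Finset.filter_subset _ _) fun y _ hy => ?_
    by_contra hne
    exact hy (mem_filter.mpr ⟨mem_univ _, hf y hne⟩)
  rw [← h1]
  symm
  rw [Finset.sum_subtype (univ.filter (fun x => x ∉ R ∧ cp x = k))
    (p := fun x => x ∉ R ∧ cp x = k)]
  intro x
  rw [mem_filter]
  exact ⟨fun h => h.2, fun h => ⟨mem_univ _, h⟩⟩

/-- twin pairs in a part -/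
lemma twinPair_part (hR : ∀ x y, x ≤ y → y ∈ R → x ∈ R)
    (hcp : ∀ x y, x ≤ y → x ∉ R → cp x = cp y) {i n0 : ℕ} {θ : P → ℕ}
    {x x' : {x : P // x ∉ R ∧ cp x = k}} (h : TwinPair i θ n0 (x : P) (x' : P)) :
    TwinPair (P := {x : P // x ∉ R ∧ cp x = k}) i (fun y => θ y) n0 x x' := by
  classical
  have hup := pg_part_up (k := k) hR hcp
  have hl : ∀ y : {x : P // x ∉ R ∧ cp x = k}, lev y = lev (y : P) :=
    lev_subtype (p := fun x => x ∉ R ∧ cp x = k) hup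
  refine ⟨fun h1 => h.ne (congrArg Subtype.val h1), fun y => h.up y, h.one_le, h.eq, ?_, ?_, ?_⟩
  · rw [hl]; exact h.le
  · refine h.costF.trans (Nat.add_le_add_right ?_ _)
    rw [← sum_part_eq (R := R) (cp := cp) (k := k)]
    · refine Finset.sum_le_sum fun y _ => ?_
      rw [hl]
      exact le_of_eq rfl
    · intro y hy
      by_cases hxy : (x : P) ≤ y
      · exact hup x y hxy x.2
      · rw [if_neg hxy] at hy
        exact absurd rfl hy
  · refine h.costT.trans (Nat.add_le_add_right ?_ _)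
    rw [← sum_part_eq (R := R) (cp := cp) (k := k)]
    · refine Finset.sum_le_sum fun y _ => ?_
      rw [hl]
      exact le_of_eq rfl
    · intro y hy
      by_cases hxy : (x : P) < y
      · exact hup x y hxy.le x.2
      · rw [if_neg hxy] at hy
        exact absurd rfl hy

/-- the isomorphism between the two descriptions of a part minus a lower set -/
def partIso {D : Finset P} {D' : Finset {x : P // x ∉ R ∧ cp x = k}}
    (hD : ∀ x : P, cp x = k → (x ∉ D ↔ ∃ h : x ∉ R ∧ cp x = k, (⟨x, h⟩ : {x : P // x ∉ R ∧ cp x = k}) ∉ D')) :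
    {x : {x : P // x ∉ D} // cp (x : P) = k} ≃o
      {x : {x : P // x ∉ R ∧ cp x = k} // x ∉ D'} where
  toFun x := ⟨⟨(x : {x : P // x ∉ D}), ((hD _ x.2).mp x.1.2).1⟩, ((hD _ x.2).mp x.1.2).2⟩
  invFun x := ⟨⟨(x : {x : P // x ∉ R ∧ cp x = k}), (hD _ x.1.2.2).mpr ⟨x.1.2, x.2⟩⟩, x.1.2.2⟩
  left_inv x := by rfl
  right_inv x := by rfl
  map_rel_iff' := by
    intro x y
    exact Iff.rfl

end Part

/-- **The factor of a part with component data and twins.** -/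
theorem factor_one {i : ℕ} {R : Finset P}
    (hR : ∀ x y, x ≤ y → y ∈ R → x ∈ R) (hRlev : ∀ x ∈ R, i < lev x)
    (cp : P → ι) (hcp : ∀ x y, x ≤ y → x ∉ R → cp x = cp y) (k : ι) (b : ℕ) (θ : P → ℕ)
    (B : P → Prop) (hBR : ∀ x ∈ R, ¬ B x) (Tw : Finset (P × P)) (n0 : ℕ)
    (H : CompDataT R cp k i b θ B Tw)
    (htw : ∀ t ∈ Tw, TwinPair i θ n0 t.1 t.2) (hmin : ∀ t ∈ Tw, ∀ y < t.2, y ∈ R)
    (htR : ∀ t ∈ Tw, t.1 ∉ R ∧ t.2 ∉ R) (htB : ∀ t ∈ Tw, ¬ B t.2)
    (B' : P → ℕ) (hB' : ∀ x, x ∉ R → cp x = k → B' x ≤ θ x) (m : ℕ) (hm : m < n0) :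
    (1 + X : ℤ[X]) ^ b ∣ ZB (P := {x : P // x ∉ R ∧ cp x = k}) i ∅ 0 (fun x => B' x) m := by
  classical
  have hup := pg_part_up (k := k) hR hcp
  have hl : ∀ y : {x : P // x ∉ R ∧ cp x = k}, lev y = lev (y : P) :=
    lev_subtype (p := fun x => x ∉ R ∧ cp x = k) hup
  let DD : Set (Finset {x : P // x ∉ R ∧ cp x = k}) :=
    {D | (∀ x y, x ≤ y → y ∈ D → x ∈ D) ∧ ∀ x ∈ D, i < lev (x : P) ∧ ¬ B x}
  let TwQ : Finset ({x : P // x ∉ R ∧ cp x = k} × {x : P // x ∉ R ∧ cp x = k}) :=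
    univ.filter (fun t => ((t.1 : P), (t.2 : P)) ∈ Tw)
  have hlt2 : ∀ t ∈ Tw, i < lev t.2 ∧ cp t.1 = cp t.2 := by
    intro t ht
    have h1 := (htw t ht).le
    have h2 := (htw t ht).one_le
    have h3 : i < lev t.1 := by omega
    refine ⟨by rw [← lev_eq_of_up (htw t ht).up]; exact h3, ?_⟩
    obtain ⟨y, hy, -⟩ := exists_lev_succ (x := t.1) (k := lev t.1 - 1) (by omega)
    have hy' := ((htw t ht).up y).mp hy
    rw [hcp _ y hy.le (htR t ht).1, hcp _ y hy'.le (htR t ht).2]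
  have key := dvd_ZB_bounds_twins (P := {x : P // x ∉ R ∧ cp x = k}) i ((1 + X : ℤ[X]) ^ b) n0
    DD (fun x => θ x) TwQ (fun D hD => hD.1)
    (fun D hD x hx => by rw [hl]; exact (hD.2 x hx).1)
    (fun x hx => by rw [hl]; exact H.lev x x.2.1 x.2.2 hx) ?_ ?_ ?_ ?_ ?_
    ∅ ⟨fun x y _ h => absurd h (Finset.notMem_empty y), fun x h => absurd h (Finset.notMem_empty x)⟩
    (fun x => B' x) (fun x _ => hB' x x.2.1 x.2.2) m hm
  · exact key
  · intro D hD hbr n _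
    rw [ZB_off hD.1 (fun x hx => by rw [hl]; exact (hD.2 x hx).1)]
    refine dvd_Z_of_dvd_W ?_ n
    let E : Finset P := R ∪ D.image Subtype.val ∪ (Tw.image Prod.snd).filter (fun x => cp x ≠ k)
    have hE : ∀ x, x ∈ E ↔ (x ∈ R ∨ ∃ h : x ∉ R ∧ cp x = k,
        (⟨x, h⟩ : {x : P // x ∉ R ∧ cp x = k}) ∈ D) ∨ ((∃ t ∈ Tw, t.2 = x) ∧ cp x ≠ k) := by
      intro x
      simp only [E, mem_union, mem_image, mem_filter]
      refine or_congr (or_congr Iff.rfl ?_) Iff.rfl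
      constructor
      · rintro ⟨y, hy, rfl⟩
        exact ⟨y.2, hy⟩
      · rintro ⟨h, hx⟩
        exact ⟨⟨x, h⟩, hx, rfl⟩
    have hgood : Good i R B E := by
      refine ⟨?_, ?_, ?_, ?_⟩
      · intro x y hxy hy
        rw [hE] at hy ⊢
        rcases hy with (hy | ⟨h, hy⟩) | ⟨⟨t, ht, rfl⟩, hy⟩
        · exact Or.inl (Or.inl (hR x y hxy hy))
        · by_cases hx : x ∈ R
          · exact Or.inl (Or.inl hx)
          · have hxk : cp x = k := (hcp x y hxy hx).trans h.2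
            exact Or.inl (Or.inr ⟨⟨hx, hxk⟩, hD.1 ⟨x, hx, hxk⟩ ⟨y, h⟩ hxy hy⟩)
        · rcases eq_or_lt_of_le hxy with h1 | h1
          · rw [h1]
            exact Or.inr ⟨⟨t, ht, rfl⟩, hy⟩
          · exact Or.inl (Or.inl (hmin t ht x h1))
      · intro x hx
        rw [hE]
        exact Or.inl (Or.inl hx)
      · intro x hx
        rw [hE] at hx
        rcases hx with (hx | ⟨h, hx⟩) | ⟨⟨t, ht, rfl⟩, hx⟩
        · exact hRlev x hx
        · exact (hD.2 _ hx).1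
        · exact (hlt2 t ht).1
      · intro x hx
        rw [hE] at hx
        rcases hx with (hx | ⟨h, hx⟩) | ⟨⟨t, ht, rfl⟩, hx⟩
        · exact hBR x hx
        · exact (hD.2 _ hx).2
        · exact htB t ht
    have hbrE : Broken Tw E := by
      intro t ht
      by_cases hk : cp t.2 = k
      · have hk1 : cp t.1 = k := (hlt2 t ht).2.trans hk
        have h1 := hbr (⟨t.1, (htR t ht).1, hk1⟩, ⟨t.2, (htR t ht).2, hk⟩)
          (mem_filter.mpr ⟨mem_univ _, ht⟩)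
        rcases h1 with h1 | h1
        · exact Or.inl ((hE _).mpr (Or.inl (Or.inr ⟨_, h1⟩)))
        · exact Or.inr ((hE _).mpr (Or.inl (Or.inr ⟨_, h1⟩)))
      · exact Or.inr ((hE _).mpr (Or.inr ⟨⟨t, ht, rfl⟩, hk⟩))
    have h1 := H.clean E hgood hbrE inferInstance
    have hEk : ∀ x : P, cp x = k → (x ∉ E ↔ ∃ h : x ∉ R ∧ cp x = k,
        (⟨x, h⟩ : {x : P // x ∉ R ∧ cp x = k}) ∉ D) := by
      intro x hxk
      rw [hE]
      constructor
      · intro h
        have hxR : x ∉ R := fun h2 => h (Or.inl (Or.inl h2))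
        exact ⟨⟨hxR, hxk⟩, fun h2 => h (Or.inl (Or.inr ⟨_, h2⟩))⟩
      · rintro ⟨h, h2⟩ ((h3 | ⟨h3, h4⟩) | ⟨-, h3⟩)
        · exact h.1 h3
        · exact h2 h4
        · exact h3 hxk
    rw [W_iso (partIso hEk) i] at h1
    exact h1
  · intro D hD x hx hθx
    refine ⟨?_, ?_⟩
    · intro a c hac hc
      rw [mem_union, mem_dnf] at hc ⊢
      rcases hc with hc | hc
      · exact Or.inl (hD.1 a c hac hc)
      · exact Or.inr (hac.trans hc)
    · intro a ha
      rw [mem_union, mem_dnf] at ha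
      rcases ha with ha | ha
      · exact hD.2 a ha
      · have h1 := H.lev x x.2.1 x.2.2 hθx
        refine ⟨?_, H.base x x.2.1 x.2.2 hθx a ha a.2.1⟩
        rcases eq_or_lt_of_le ha with h | h
        · rw [h]; exact h1
        · have h3 : (a : P) < x := h
          have := lev_strictAnti h3
          omega
  · intro D hD x hx hθx y hyx hyD x' hyx' hx'x
    refine H.step x x.2.1 x.2.2 hθx y hyx y.2.1 x' x'.2.1 ?_ (fun h => hx'x h)
    refine ⟨hyx'.1, fun z hz hzx' => ?_⟩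
    exact hyx'.2 (c := ⟨z, hup y z hz.le y.2⟩) hz hzx'
  · intro t ht
    exact twinPair_part hR hcp (htw _ (mem_filter.mp ht).2)
  · intro t ht D _ y hy
    exact absurd (hmin _ (mem_filter.mp ht).2 y hy) y.2.1

/-- the factors of all parts, from the data of `labels_of_compT` -/
theorem factor {i : ℕ} {R : Finset P}
    (hR : ∀ x y, x ≤ y → y ∈ R → x ∈ R) (hRlev : ∀ x ∈ R, i < lev x)
    (cp : P → ι) (hcp : ∀ x y, x ≤ y → x ∉ R → cp x = cp y) (b : ι → ℕ) (θ : P → ℕ)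
    (B : P → Prop) (hBR : ∀ x ∈ R, ¬ B x) (Tw : Finset (P × P)) (n0 : ℕ)
    (H : ∀ k, CompDataT R cp k i (b k) θ B Tw)
    (htw : ∀ t ∈ Tw, TwinPair i θ n0 t.1 t.2) (hmin : ∀ t ∈ Tw, ∀ y < t.2, y ∈ R)
    (htR : ∀ t ∈ Tw, t.1 ∉ R ∧ t.2 ∉ R) (k : ι)
    (B' : P → ℕ) (hB' : ∀ x, x ∉ R → cp x = k → B' x ≤ θ x) (m : ℕ) (hm : m < n0) :
    (1 + X : ℤ[X]) ^ (b k) ∣
      ZB (P := {x : P // x ∉ R ∧ cp x = k}) i ∅ 0 (fun x => B' x) m := by
  refine factor_one hR hRlev cp hcp k (b k) θ B hBR Tw n0 (H k) htw hmin htR ?_ B' hB' m hm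
  intro t ht
  have h1 : 1 ≤ θ t.2 := by
    rw [(htw t ht).eq]; exact (htw t ht).one_le
  exact (H (cp t.2)).base t.2 (htR t ht).2 rfl h1 t.2 le_rfl (htR t ht).2

end Pool.Agent.GaussPoset
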