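import Pool.Agent.W_448s7_h5.SevE

/-!
The leading term of a twin pair with any threshold (MP_448cb3_co, S7, window `3`).
-/

namespace Pool.Agent.GaussPoset

set_option linter.unusedSectionVars false

open Polynomial Finset

universe u

variable {P : Type u} [Fintype P] [PartialOrder P] [DecidableEq P]

section Term

variable {i : ℕ} {θ : P → ℕ} {t : P × P}

/-- the excess functions of a twin pair and of its second element differ only at the first
element -/
lemma tez_eq_ez (H : Twn i θ t) {y : P} (hy : y ≠ t.1) :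
    tez i θ t y = ez i (fun _ => θ t.1 + 1) t.2 y := by
  have hl : lev t.1 = lev t.2 := lev_eq_of_up H.up
  have hlt := H.lt
  unfold ez
  by_cases h2 : y = t.2
  · rw [h2, tez_snd H.ne, if_pos le_rfl]
    simp only
    omega
  · by_cases h3 : t.1 < y
    · rw [tez_up H h3, if_pos ((H.up y).mp h3).le]
    · rw [tez_off hy h2 h3, if_neg]
      intro h4
      exact h3 ((H.up y).mpr (lt_of_le_of_ne h4 (Ne.symm h2)))

/-- a twin pair contributes as its second element with the label `θ + 1` -/
theorem Tm_gen (hgr : GradedBelow P) (H : Twn i θ t) :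
    Tm i θ t = Lt i (fun _ => θ t.1 + 1) t.2 := by
  classical
  have hl : lev t.1 = lev t.2 := lev_eq_of_up H.up
  have hθ := H.one_le
  have hlt := H.lt
  have hnl : ¬ t.1 < t.2 := fun h => by have := lev_strictAnti h; omega
  have hnl' : ¬ t.2 < t.1 := fun h => by have := lev_strictAnti h; omega
  set e1 := tez i θ t with he1
  set e2 := ez i (fun _ => θ t.1 + 1) t.2 with he2
  have hr : ∀ y, y ≠ t.1 → rho i e1 y = rho i e2 y := fun y hy => by
    unfold rho
    rw [he1, he2, tez_eq_ez H hy]
  have hr1 : rho i e1 t.1 = (θ t.1 : ℤ) := by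
    unfold rho
    rw [he1, tez_fst]
    omega
  have h2t : ¬ t.2 ≤ t.1 := fun h => hnl' (lt_of_le_of_ne h H.ne.symm)
  have hr2 : rho i e2 t.1 = 0 := by
    unfold rho
    rw [he2]
    unfold ez
    rw [if_neg h2t]
    omega
  have hr3 : rho i e2 t.2 = (θ t.1 : ℤ) + 1 := by
    unfold rho
    rw [he2]
    unfold ez
    rw [if_pos le_rfl]
    simp only
    omega
  have hoff : ∀ y, y < t.1 → rho i e2 y = 0 := fun y hy => by
    have h1 := lev_strictAnti hy
    unfold rho
    rw [he2]
    unfold ez
    rw [if_neg (fun h => h2t (h.trans hy.le))]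
    omega
  -- a cover of the first element
  obtain ⟨u, hu1, hu2⟩ : ∃ u, t.1 < u ∧ (θ t.1 : ℤ) ≤ rho i e2 u := by
    obtain ⟨u, hu, hlu⟩ := exists_above' (x := t.1) (j := lev t.1 - 1) (by omega)
    have hne : t.1 ≠ u := by rintro h; rw [← h] at hlu; omega
    have hlt1 := lt_of_le_of_ne hu hne
    refine ⟨u, hlt1, ?_⟩
    unfold rho
    rw [he2]
    unfold ez
    rw [if_pos ((H.up u).mp hlt1).le]
    simp only
    omega
  have hFI : ∀ y, FI i e1 y ↔ FI i e2 y := by
    intro y
    by_cases hy : y = t.1
    · subst hy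
      constructor
      · rintro (h | ⟨z, hz, h⟩)
        · rw [hr1] at h; omega
        · rw [hr1, hr z hz.ne, hoff z hz] at h; omega
      · rintro (h | ⟨z, hz, h⟩)
        · rw [hr2] at h; omega
        · rw [hr2, hoff z hz] at h; omega
    · unfold FI
      rw [hr y hy]
      constructor
      · rintro (h | ⟨z, hz, h⟩)
        · exact Or.inl h
        · right
          by_cases hzt : z = t.1
          · subst hzt
            rw [hr1] at h
            exact ⟨t.2, (H.up y).mp hz, by rw [hr3]; omega⟩
          · exact ⟨z, hz, by rw [← hr z hzt]; exact h⟩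
      · rintro (h | ⟨z, hz, h⟩)
        · exact Or.inl h
        · by_cases hzt : z = t.1
          · subst hzt
            rw [hr2] at h
            exact Or.inl h
          · exact Or.inr ⟨z, hz, by rw [hr z hzt]; exact h⟩
  have hFA : ∀ y, FA i e1 y ↔ FA i e2 y := by
    intro y
    by_cases hy : y = t.1
    · subst hy
      constructor
      · intro _
        exact ⟨u, hu1, by rw [hr2]; omega⟩
      · intro _
        exact ⟨u, hu1, by rw [hr1, hr u hu1.ne']; exact hu2⟩
    · unfold FA
      rw [hr y hy]
      constructor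
      · rintro ⟨w, hw, h⟩
        by_cases hwt : w = t.1
        · subst hwt
          exact ⟨t.1, hw, by rw [hoff y hw, hr2]⟩
        · exact ⟨w, hw, by rw [← hr w hwt]; exact h⟩
      · rintro ⟨w, hw, h⟩
        by_cases hwt : w = t.1
        · subst hwt
          exact ⟨t.1, hw, by rw [hoff y hw, hr1]; omega⟩
        · exact ⟨w, hw, by rw [hr w hwt]; exact h⟩
  unfold Tm
  rw [Finset.sum_congr rfl (g := fun F => if Vd i e2 F then (X : ℤ[X]) ^ F.card else 0)
    (fun F _ => by
      have h9 : Vd i e1 F ↔ Vd i e2 F := by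
        rw [vd_iff, vd_iff]
        exact ⟨fun h => ⟨fun x hx => h.1 x ((hFI x).mpr hx), fun x hx => h.2 x ((hFA x).mpr hx)⟩,
          fun h => ⟨fun x hx => h.1 x ((hFI x).mp hx), fun x hx => h.2 x ((hFA x).mp hx)⟩⟩
      by_cases h10 : Vd i e2 F
      · rw [if_pos h10, if_pos (h9.mpr h10)]
      · rw [if_neg h10, if_neg (fun h => h10 (h9.mp h))]), sum_vd]
  exact lead_eq (h := fun _ => θ t.1 + 1) (z := t.2) hgr (by omega) (by omega)

end Term

end Pool.Agent.GaussPoset
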