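import Pool.Agent.W_448pg_h74.WsB

/-!
# The windows `2`, `3`: the finite checks of the deep cells (MP_448cb3_co, S7)

Values relative to `(j + 1 - w) ^ 2`.  The lists are the values of the pendants and twins which
are at most the cap: `LE` the even ones, `LO` the odd ones.

The caps are limited: at `j = 11`, `w = 3` an element below the cell `(6, 6)` and its twin has the
value `25` (`w = 2`: `32`) and the cell of row `1` of level `13` has the value `29` (`w = 2`: `32`);
at `j = 13`, `w = 3` an element below `(7, 7)` and its twin has the value `49`; at `j = 12`,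
`w = 3` the cell `(6, 7)` has the value `48` without a drop; at `j = 14`, `w = 3` the cell of row
`1` of level `17` has the value `66` (there `Wk.cellsR` still applies).
-/

namespace Pool.Agent.GaussPoset.Sm

variable {j w K0 K y : ℕ} {LE LO LE' LO' : List ℤ}

lemma OkN.mono {n u : ℕ} (h : OkN y K LE LO n u) (h1 : ∀ v ∈ LE, v ∈ LE')
    (h2 : ∀ v ∈ LO, v ∈ LO') : OkN y K LE' LO' n u := by
  rcases h with h | h | h
  · exact Or.inl h
  · exact Or.inr (Or.inl ⟨h.1, h1 _ h.2⟩)
  · exact Or.inr (Or.inr ⟨h.1, h2 _ h.2⟩)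

lemma ChN.mono {L h : ℕ} {f : ℕ → ℕ} (hC : ChN w L K y LE LO h f) (h1 : ∀ v ∈ LE, v ∈ LE')
    (h2 : ∀ v ∈ LO, v ∈ LO') : ChN w L K y LE' LO' h f :=
  ⟨hC.1, hC.2.1, hC.2.2.1.mono h1 h2, hC.2.2.2.1.mono h1 h2, hC.2.2.2.2⟩

/-- the check is monotone in the lists -/
lemma NumS.mono (n : NumS j w K LE LO) (h1 : ∀ v ∈ LE, v ∈ LE') (h2 : ∀ v ∈ LO, v ∈ LO') :
    NumS j w K LE' LO' :=
  { s1 := fun a ha => (n.s1 a ha).imp id fun h => h.mono h1 h2
    r1 := fun a ha => (n.r1 a ha).imp id fun h => h.mono h1 h2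
    sp := n.sp.imp id fun h => ⟨h.1.mono h1 h2, h.2.1.mono h1 h2, h.2.2⟩
    s2 := n.s2
    r2 := n.r2 }

/-- the check for the row `1` is monotone in the lower cap -/
lemma NumR.mono {K0' : ℕ} (n : NumR j w K0 K) (h : K0 ≤ K0') : NumR j w K0' K :=
  ⟨fun t ht => (n.low t ht).imp (fun h1 => by omega) id, n.high⟩

/-! ### `j = 11` -/

theorem numS_11_3 : NumS 11 3 (9 ^ 2 + 24) [16, 17] [] := by constructor <;> decide +kernel
theorem numR_11_3 : NumR 11 3 (9 ^ 2 + 15) (9 ^ 2 + 24) := by constructor <;> decide +kernel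
theorem numS_11_2 : NumS 11 2 (10 ^ 2 + 30) [22, 23] [] := by constructor <;> decide +kernel
theorem numR_11_2 : NumR 11 2 (10 ^ 2 + 21) (10 ^ 2 + 30) := by constructor <;> decide +kernel

/-! ### `j = 12` -/

theorem numS_12_3_42 : NumS 12 3 (10 ^ 2 + 42) [] [] := by constructor <;> decide +kernel
theorem numS_12_3_44 : NumS 12 3 (10 ^ 2 + 44) [] [43, 44] := by constructor <;> decide +kernel
theorem numS_12_3 : NumS 12 3 (10 ^ 2 + 46) [45, 46] [43, 44] := by
  constructor <;> decide +kernel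
theorem numR_12_3 : NumR 12 3 (10 ^ 2 + 42) (10 ^ 2 + 50) := by constructor <;> decide +kernel
theorem numR_12_3' : NumR 12 3 (10 ^ 2 + 42) (10 ^ 2 + 46) := by constructor <;> decide +kernel
theorem numS_12_2_52 : NumS 12 2 (11 ^ 2 + 52) [] [] := by constructor <;> decide +kernel
theorem numS_12_2 : NumS 12 2 (11 ^ 2 + 53) [53] [] := by constructor <;> decide +kernel
theorem numR_12_2 : NumR 12 2 (11 ^ 2 + 51) (11 ^ 2 + 53) := by constructor <;> decide +kernel

/-! ### `j = 13` -/

theorem numS_13_3 : NumS 13 3 (11 ^ 2 + 48) [38, 39] [] := by constructor <;> decide +kernel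
theorem numR_13_3 : NumR 13 3 (11 ^ 2 + 37) (11 ^ 2 + 51) := by constructor <;> decide +kernel
theorem numS_13_2 : NumS 13 2 (12 ^ 2 + 59) [48, 49] [] := by constructor <;> decide +kernel
theorem numR_13_2 : NumR 13 2 (12 ^ 2 + 47) (12 ^ 2 + 59) := by constructor <;> decide +kernel

/-! ### `j = 14` -/

theorem numS_14_2 : NumS 14 2 (13 ^ 2 + 75) [] [] := by constructor <;> decide +kernel
theorem numR_14_2 : NumR 14 2 (13 ^ 2 + 74) (13 ^ 2 + 75) := by constructor <;> decide +kernel
theorem numS_14_3 : NumS 14 3 (12 ^ 2 + 71) [66, 67] [64, 65] := by constructor <;> decide +kernel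
theorem numS_14_3_64 : NumS 14 3 (12 ^ 2 + 64) [] [64] := by constructor <;> decide +kernel
theorem numR_14_3 : NumR 14 3 (12 ^ 2 + 63) (12 ^ 2 + 64) := by constructor <;> decide +kernel

/-! ### `j = 15` -/

theorem numS_15_3 : NumS 15 3 (13 ^ 2 + 84) [76, 77] [73, 74, 78, 79] := by
  constructor <;> decide +kernel
theorem numR_15_3 : NumR 15 3 (13 ^ 2 + 72) (13 ^ 2 + 84) := by constructor <;> decide +kernel
theorem numS_15_2_88 : NumS 15 2 (14 ^ 2 + 88) [] [88] := by constructor <;> decide +kernel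
theorem numS_15_2 : NumS 15 2 (14 ^ 2 + 95) [] [88, 89, 90, 91] := by
  constructor <;> decide +kernel
theorem numR_15_2 : NumR 15 2 (14 ^ 2 + 87) (14 ^ 2 + 95) := by constructor <;> decide +kernel

/-! ### `j = 16` -/

theorem numS_16_3 : NumS 16 3 (14 ^ 2 + 95) [91, 92] [89, 90] := by constructor <;> decide +kernel
theorem numS_16_2 : NumS 16 2 (15 ^ 2 + 105) [103, 104, 105] [] := by
  constructor <;> decide +kernel

end Pool.Agent.GaussPoset.Sm
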