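import Pool.Agent.W_448pg_h74.WsB

/-!
# The windows `2`, `3`: elements below a fold cell (MP_448cb3_co, S7)
-/

namespace Pool.Agent.GaussPoset.Sm

set_option linter.unusedSectionVars false

open Finset Wd

universe u

variable {P : Type u} [Fintype P] [PartialOrder P] [DecidableEq P] {r j w K0 K y : ℕ}
  {N : Tops P → Finset P} {b : Tops P → ℕ} {θ : Tops P → P → ℕ} {LE LO : List ℤ}

/-- cells whose label is the full one are in row `1` -/
theorem Wk.dk_row1 (W : Wk r j w K0 N b θ) (hw2 : 2 ≤ w) {x : P} (hx : x ∉ unnat N)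
    (hlx : j ≤ lev x) (hD : Dk j w K0 N θ x) :
    Row1 j w N θ x ∨ θ (topOf x) x + 1 < lev x - w := by
  have H := W.gt.H
  have HN := W.natSys
  have hxt : x ∈ N (topOf x) := HN.mem_iff.mpr ⟨hx, rfl⟩
  have hj := W.hj
  have hw := W.hw
  have hT := W.typ (topOf x)
  have hDt := hD.th
  generalize ht : topOf x = t at hxt hT hDt
  rcases hT with ⟨h1, h2, h3, h5⟩ | ⟨Nc, co, h0, h1, h2, h4⟩ |
    ⟨Nc, co, h0, h1, h2, h3, h4, h5'⟩
  · rw [h2] at hDt
    simp only at hDt
    omega
  · have e1 := h0.b_two
    have e2 := h0.b_le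
    have hxN' : x ∈ natR Nc co := by rw [← h1]; exact hxt
    by_cases hJ : x ∈ junk (fun _ => True) Nc co ∨ x ∈ junk (fun _ => True) Nc (swp co)
    · rw [h2] at hDt
      unfold thR at hDt
      rw [if_pos hJ] at hDt
      omega
    · have hxN : x ∈ Nc := by
        rw [mem_natR] at hxN'
        rcases hxN' with h | h | h
        · exact h
        · exact absurd (Or.inl h) hJ
        · exact absurd (Or.inr h) hJ
      have hl := h0.chart.lev x hxN
      have hth := rect_th7 h0 hw hxN hJ (by omega)
      by_cases h7 : (co x).1 = 0 ∨ (co x).2 = 0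
      · rw [h2] at hDt
        omega
      · by_cases h8 : (co x).1 = 1 ∨ (co x).2 = 1
        · left
          refine ⟨by omega, chart_inner_uc h0.chart H hxN (by omega) (by omega), ?_, ?_, ?_, ?_⟩
          · intro hlx' z hz
            exact h4 x z (h0.chart.le_t x hxN) hlx'
              (chart_inner_uc h0.chart H hxN (by omega) (by omega)) hz
          · rw [ht, h2]; omega
          · intro k hk hkx
            have := rect_nab h0.chart hxN (k := k) (by omega)
            omega
          · exact hD.mono
        · right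
          rw [h2]; omega
  · have hxN' : x ∈ natS Nc co := by rw [← h1]; exact hxt
    by_cases hJ : x ∈ junk (fun c => c.1 ≤ c.2) Nc co
    · rw [h2] at hDt
      unfold thS at hDt
      rw [if_pos hJ] at hDt
      omega
    · have hxN : x ∈ Nc := by
        rw [mem_natS] at hxN'
        rcases hxN' with h | h
        · exact h
        · exact absurd h hJ
      have hl := h0.chart.lev x hxN
      have hm : (co x).1 ≤ (co x).2 := h0.chart.mem x hxN
      have hth := stair_th7 h0 hw h4 hxN hJ (by omega)
      rcases Nat.lt_or_ge (co x).1 1 with h7 | h7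
      · rw [h2] at hDt
        omega
      · rcases Nat.lt_or_ge (co x).1 2 with h8 | h8
        · left
          have hd := stair_inner_uc h0.chart H hxN h7 (by omega)
          refine ⟨by omega, hd, ?_, ?_, ?_, ?_⟩
          · intro hlx' z hz hon
            have := h5' x z (h0.chart.le_t x hxN) hlx' hd hz hon
            omega
          · rw [ht, h2]; omega
          · intro k hk hkx
            have := stair_nab h0.chart hxN (k := k) (by omega)
            omega
          · exact hD.mono
        · right
          rw [h2]; omega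

/-- the surplus of an element below a fold cell and another element -/
def fdC (w j h : ℕ) : ℕ :=
  ∑ n ∈ range (j + 1 - w), min h n * (if (j + 1) / 2 < w + n then 1 else 0)

/-- elements of the level `k` above `z` but not above the fold cell -/
lemma Wk.fold_extra (W : Wk r j w K0 N b θ) {x z y : P} {Nc : Finset P} {co : P → ℕ × ℕ}
    (hx : x ∉ unnat N) (h0 : StairNat j w (topOf x) Nc co) (h1 : N (topOf x) = natS Nc co)
    (hxN : x ∈ Nc) (hlx : lev x = j + 1) (hd : (co x).1 = (co x).2)
    (hzx : z ⋖ x) (hzy : z ⋖ y) (hnt : ¬ ∀ v, x < v ↔ y < v) {k : ℕ}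
    (hk1 : (j + 1) / 2 < k) (hk2 : k ≤ j) : ∃ q, z ≤ q ∧ lev q = k ∧ ¬ x ≤ q := by
  have H := W.gt.H
  have HN := W.natSys
  have hl := h0.chart.lev x hxN
  have hly : lev y = j + 1 := by
    have e1 := (H.covBy_iff.mp hzx).2
    have e2 := (H.covBy_iff.mp hzy).2
    omega
  -- a cover of `y` which is not above `x`
  obtain ⟨v, hyv, hxv⟩ : ∃ v, y ⋖ v ∧ ¬ x ≤ v := by
    by_contra hcon
    push Not at hcon
    apply hnt
    intro v
    have hcov : ∀ u, x ⋖ u → co u = ((co x).1 - 1, (co x).2) := by
      intro u hu
      have huN := h0.chart.up x hxN u hu.1.le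
      have hmu : (co u).1 ≤ (co u).2 := h0.chart.mem u huN
      have := (chart_cov h0.chart H hxN huN).mp hu
      unfold Prd at this
      exact Prod.ext (by simp only; omega) (by simp only; omega)
    constructor
    · intro hv
      obtain ⟨u, hu, huv⟩ := Hul.exists_cov hv
      obtain ⟨t, ht, hyt⟩ := exists_above' (x := y) (j := j) (by omega)
      have hyt' : y < t := lt_of_le_of_ne ht (by rintro rfl; omega)
      obtain ⟨s, hs, hst⟩ := Hul.exists_cov hyt'
      have hxs := hcon s hs
      have hls := (H.covBy_iff.mp hs).2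
      have hxs' : x ⋖ s := H.covBy_iff.mpr ⟨lt_of_le_of_ne hxs (by rintro rfl; omega), by omega⟩
      have : s = u := h0.chart.inj s (h0.chart.up x hxN s hxs) u
        (h0.chart.up x hxN u hu.1.le) (by rw [hcov s hxs', hcov u hu])
      rw [this] at hs
      exact lt_of_lt_of_le hs.1 huv
    · intro hv
      obtain ⟨u, hu, huv⟩ := Hul.exists_cov hv
      have hxu := hcon u hu
      have hlu := (H.covBy_iff.mp hu).2
      exact lt_of_le_of_ne (hxu.trans huv) (by
        rintro rfl
        rcases huv.lt_or_eq with h | h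
        · have := lev_strictAnti h
          omega
        · rw [h] at hlu
          omega)
  have hlv : lev v = j := by
    have := (H.covBy_iff.mp hyv).2
    omega
  have hzv : z ≤ v := hzy.1.le.trans hyv.1.le
  have hvu : v ∉ unnat N := W.low (by omega)
  by_cases hT : topOf v = topOf x
  · have hvN : v ∈ Nc := h0.strip (mem_lowPart.mpr ⟨by rw [← hT]; exact le_topOf v, by omega⟩)
    have hlv' := h0.chart.lev v hvN
    have hmv : (co v).1 ≤ (co v).2 := h0.chart.mem v hvN
    have hnle : ¬ co v ≤ co x := fun h => hxv ((h0.chart.le_iff x hxN v hvN).mpr h)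
    rw [Prod.le_def] at hnle
    have hb : (co x).2 < (co v).2 := by
      by_contra hcon
      exact hnle ⟨by omega, by omega⟩
    obtain ⟨q, hq, hcq⟩ := h0.chart.low v hvN (k - min (co v).2 k, min (co v).2 k)
      ⟨by simp only; omega, by simp only; omega⟩
      (show k - min (co v).2 k ≤ min (co v).2 k by omega)
    have hlq := h0.chart.lev q hq
    have hq1 : (co q).1 = k - min (co v).2 k := by rw [hcq]
    have hq2 : (co q).2 = min (co v).2 k := by rw [hcq]
    refine ⟨q, hzv.trans ?_, by omega, ?_⟩
    · rw [h0.chart.le_iff v hvN q hq, Prod.le_def]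
      exact ⟨by omega, by omega⟩
    · rw [h0.chart.le_iff x hxN q hq, Prod.le_def]
      rintro ⟨-, h⟩
      omega
  · obtain ⟨q, hq, hlq⟩ := exists_above' (x := v) (j := k) (by omega)
    refine ⟨q, hzv.trans hq, hlq, fun hxq => hT ?_⟩
    rw [← (W.up hvu hq).2, (W.up hx hxq).2]

/-- **the cost below a fold cell and a second cover which is not its twin** -/
theorem Wk.fold_two (W : Wk r j w K0 N b θ) {x z y : P} {Nc : Finset P} {co : P → ℕ × ℕ}
    (hx : x ∉ unnat N) (h0 : StairNat j w (topOf x) Nc co) (h1 : N (topOf x) = natS Nc co)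
    (hxN : x ∈ Nc) (hlx : lev x = j + 1) (hd : (co x).1 = (co x).2)
    (hzx : z ⋖ x) (hzy : z ⋖ y) (hne : y ≠ x) (hnt : ¬ ∀ v, x < v ↔ y < v) {h : ℕ}
    (hh : h ≤ j + 1 - w) :
    cst w (fun _ => h) x + h + h + fdC w j h ≤ cst w (fun _ => h) z := by
  classical
  have H := W.gt.H
  have hj := W.hj
  have e1 := (H.covBy_iff.mp hzx).2
  have e2 := (H.covBy_iff.mp hzy).2
  rw [cst_shift (i := w) (h := fun _ => h) (x := x) (a := j + 1 - w) (by omega),
    cst_shift (i := w) (h := fun _ => h) (x := z) (a := j + 1 - w + 1) (by omega),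
    Finset.sum_range_succ, Finset.sum_range_succ _ (j + 1 - w + 1),
    Finset.sum_range_succ _ (j + 1 - w)]
  have h2 : 2 ≤ nab (w + (j + 1 - w)) z := by
    unfold nab
    have : ({x, y} : Finset P) ⊆ (lv P (w + (j + 1 - w))).filter (fun u => z ≤ u) := by
      intro u hu
      rw [mem_insert, mem_singleton] at hu
      rw [mem_filter, mem_lv]
      rcases hu with rfl | rfl
      · exact ⟨by omega, hzx.1.le⟩
      · exact ⟨by omega, hzy.1.le⟩
    have h3 := Finset.card_le_card this
    rw [Finset.card_pair hne.symm] at h3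
    convert h3
  have h3 : nab (w + (j + 1 - w)) x = 1 := by
    rw [show w + (j + 1 - w) = lev x by omega]; exact nab_self
  have h4 : nab (w + (j + 1 - w + 1)) z = 1 := by
    rw [show w + (j + 1 - w + 1) = lev z by omega]; exact nab_self
  have h5 : ∑ n ∈ range (j + 1 - w), min h n * nab (w + n) x + fdC w j h ≤
      ∑ n ∈ range (j + 1 - w), min h n * nab (w + n) z := by
    unfold fdC
    rw [← Finset.sum_add_distrib]
    refine Finset.sum_le_sum fun n hn => ?_
    rw [mem_range] at hn
    rw [← Nat.mul_add]
    refine Nat.mul_le_mul_left _ ?_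
    split_ifs with hif
    · obtain ⟨q, hq1, hq2, hq3⟩ := W.fold_extra hx h0 h1 hxN hlx hd hzx hzy hnt hif (by omega)
      unfold nab
      have : insert q ((lv P (w + n)).filter (fun u => x ≤ u)) ⊆
          (lv P (w + n)).filter (fun u => z ≤ u) := by
        intro u hu
        rw [mem_insert, mem_filter, mem_lv] at hu
        rw [mem_filter, mem_lv]
        rcases hu with rfl | hu
        · exact ⟨hq2, hq1⟩
        · exact ⟨hu.1, hzx.1.le.trans hu.2⟩
      have h6 := Finset.card_le_card this
      rw [Finset.card_insert_of_notMem (by rw [mem_filter]; exact fun h => hq3 h.2)] at h6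
      convert h6
    · exact nab_mono hzx.1.le
  rw [h3, h4, Nat.min_eq_left hh, Nat.min_eq_left (by omega : h ≤ j + 1 - w + 1)]
  have h7 : h * 2 ≤ h * nab (w + (j + 1 - w)) z := Nat.mul_le_mul_left _ h2
  omega

end Pool.Agent.GaussPoset.Sm
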