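import Pool.Agent.W_448f4_h70.GU
import Pool.Agent.W_448pg_h74.WtA
import Pool.Agent.W_448pg_h74.WsC

/-!
# The windows `2`, `3`: the classification of the deep cells without twins (MP_448cb3_co, S7)
-/

namespace Pool.Agent.GaussPoset.Sm

set_option linter.unusedSectionVars false

open Finset Wd

universe u

variable {P : Type u} [Fintype P] [PartialOrder P] [DecidableEq P] {r j w K0 K y : ℕ}
  {N : Tops P → Finset P} {b : Tops P → ℕ} {θ : Tops P → P → ℕ} {LE LO : List ℤ}

/-- the surplus of a second cover: for the fold cell -/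
def feC (w j a : ℕ) : ℕ := if 2 * a = j + 1 then fdC w j (j - w) else 0

/-- the numbers of a cheap deep cell without a twin; `e` is the surplus of a second cover -/
def ChM (w L K y : ℕ) (LE LO : List ℤ) (h : ℕ) (f : ℕ → ℕ) (e : ℕ) : Prop :=
  h < L - w ∧ f w = f (w + h) + 1 ∧ OkN y K LE LO (nC w h f) (cC w L h f + h) ∧
    K < cC w L h f + h + h + e

instance (w L K y : ℕ) (LE LO : List ℤ) (h : ℕ) (f : ℕ → ℕ) (e : ℕ) :
    Decidable (ChM w L K y LE LO h f e) := by
  unfold ChM
  infer_instance

/-- the numbers of a special cell without a twin -/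
def SpM (j w K y : ℕ) (LE LO : List ℤ) : Prop :=
  OkN y K LE LO (nC w (j - w + 1) (stAb (j + 1) 2))
    (cC w (j + 1) (j - w + 1) (stAb (j + 1) 2) + (j - w + 1)) ∧
  K < stC w (j + 1) 2 + (j - w)

instance (j w K y : ℕ) (LE LO : List ℤ) : Decidable (SpM j w K y LE LO) := by
  unfold SpM
  infer_instance

/-- **the finite check** for the deep cells of level at least `j + 1`, without twins -/
structure NumN (j w K : ℕ) (LE LO : List ℤ) : Prop where
  s1 : ∀ a ∈ Finset.Icc 3 ((j + 1) / 2), K + 1 < stC w (j + 1) a ∨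
    ChM w (j + 1) K (j + 1 - w) LE LO (j - w) (stAb (j + 1) a) (feC w j a)
  r1 : ∀ a ∈ Finset.Icc 2 (j - 1), K + 1 < reC w (j + 1) a ∨
    ChM w (j + 1) K (j + 1 - w) LE LO (reH w (j + 1) a) (reAb (j + 1) a) 0
  sp : K + 1 < stC w (j + 1) 2 ∨ SpM j w K (j + 1 - w) LE LO
  s2 : ∀ a ∈ Finset.Icc 2 ((j + 1 + 1) / 2), K + 1 < stC w (j + 1 + 1) a
  r2 : ∀ a ∈ Finset.Icc 2 (j + 1 - 1), K + 1 < reC w (j + 1 + 1) a

/-- the check is monotone in the lists -/
lemma NumN.mono {LE' LO' : List ℤ} (n : NumN j w K LE LO) (h1 : ∀ v ∈ LE, v ∈ LE')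
    (h2 : ∀ v ∈ LO, v ∈ LO') : NumN j w K LE' LO' :=
  { s1 := fun a ha => (n.s1 a ha).imp id fun h => ⟨h.1, h.2.1, h.2.2.1.mono h1 h2, h.2.2.2⟩
    r1 := fun a ha => (n.r1 a ha).imp id fun h => ⟨h.1, h.2.1, h.2.2.1.mono h1 h2, h.2.2.2⟩
    sp := n.sp.imp id fun h => ⟨h.1.mono h1 h2, h.2⟩
    s2 := n.s2
    r2 := n.r2 }

section Cell

variable {x : P}

/-- a cell with the ancestors `f` and cheap numbers is cheap -/
lemma ChM.cheap {L h e : ℕ} {f : ℕ → ℕ} (hC : ChM w L K y LE LO h f e) (hl : lev x = L)
    (hf : ∀ k ≤ L, nab k x = f k) (hth : θ (topOf x) x + 1 = h)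
    (htwo : ∀ z y, z ⋖ x → z ⋖ y → y ≠ x → cst w (fun _ => h) x + h + h + e ≤
      cst w (fun _ => h) z) (hN : NTw x) :
    CheapN w K (XL y LE) (XL y LO) θ x := by
  obtain ⟨h1, h2, h3, h5⟩ := hC
  have e1 : cst w (fun _ => h) x = cC w L h f := by
    rw [cst_shift (i := w) (a := L - w) (by omega)]
    unfold cC
    refine Finset.sum_congr rfl fun n hn => ?_
    rw [mem_range] at hn
    rw [hf _ (by omega)]
  have e2 : nst w (fun _ => h) x = nC w h f := by
    rw [nst_eq]
    unfold nC
    refine Finset.sum_congr rfl fun n hn => ?_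
    rw [mem_range] at hn
    rw [hf _ (by omega)]
  have e3 : C1 w θ x = cC w L h f + h := by
    unfold C1
    rw [hth, e1]
  refine ⟨by omega, ?_, ?_, Or.inr hN, Or.inr ⟨hN, ?_⟩⟩
  · rw [hth, hf _ (by omega), hf _ (by omega)]
    exact h2
  · rw [hth, e2, e3]
    exact h3.okv
  · intro z y' hz hy hne
    have := htwo z y' hz hy hne
    rw [hth]
    omega

/-- the numbers of a special cell -/
lemma SpM.spOK (hS : SpM j w K y LE LO) (hw : w ≤ j) (hl : lev x = j + 1)
    (hf : ∀ k ≤ j + 1, nab k x = stAb (j + 1) 2 k) (hth : θ (topOf x) x + 1 = j - w)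
    (hN : NTw x) : SpOKN j w K (XL y LE) (XL y LO) θ x := by
  obtain ⟨h1, h3⟩ := hS
  have e1 : ∀ h, cst w (fun _ => h) x = cC w (j + 1) h (stAb (j + 1) 2) := by
    intro h
    rw [cst_shift (i := w) (a := j + 1 - w) (by omega)]
    unfold cC
    refine Finset.sum_congr rfl fun n hn => ?_
    rw [mem_range] at hn
    rw [hf _ (by omega)]
  have e2 : nst w (fun _ => j - w + 1) x = nC w (j - w + 1) (stAb (j + 1) 2) := by
    rw [nst_eq]
    unfold nC
    refine Finset.sum_congr rfl fun n hn => ?_
    rw [mem_range] at hn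
    rw [hf _ (by omega)]
  refine ⟨?_, Or.inr hN, ?_⟩
  · rw [e2, e1]
    exact h1.okv
  · unfold C1
    rw [hth, e1]
    unfold stC at h3
    unfold cC
    have e3 : j + 1 - w - 1 = j - w := by omega
    rw [e3] at h3
    exact h3

end Cell

/-- **the deep cells, without twins on level `j + 1`** -/
theorem Wk.cellsN' (W : Wk r j w K0 N b θ) (hw2 : 2 ≤ w) (n : NumN j w K LE LO)
    (hT : ∀ x : P, x ∉ unnat N → lev x = j + 1 → Dk j w K0 N θ x → ¬ Row1 j w N θ x → NTw x) :
    CellsN P j w K0 K N b θ (XL (j + 1 - w) LE) (XL (j + 1 - w) LO) := by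
  intro x hx hlx hD hR
  have H := W.gt.H
  have HN := W.natSys
  have hxt : x ∈ N (topOf x) := HN.mem_iff.mpr ⟨hx, rfl⟩
  have hj := W.hj
  have hw := W.hw
  have hdx := (W.dk_row1 hw2 hx (by omega) hD).resolve_left hR
  have htwo : ∀ z y, z ⋖ x → z ⋖ y → y ≠ x →
      cst w (fun _ => θ (topOf x) x + 1) x + (θ (topOf x) x + 1) + (θ (topOf x) x + 1) + 0 ≤
        cst w (fun _ => θ (topOf x) x + 1) z := by
    intro z y hz hy hne
    have := cst_two (w := w) (h := θ (topOf x) x + 1) H.gradedBelow hz hy hne.symm (by omega)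
      (by omega)
    omega
  have hT0 := W.typ (topOf x)
  have hdx' := hdx
  generalize ht : topOf x = t at hxt hT0 hdx'
  rcases hT0 with ⟨h1, h2, h3, h5⟩ | ⟨Nc, co, h0, h1, h2, h4⟩ |
    ⟨Nc, co, h0, h1, h2, h3, h4, h5'⟩
  · rw [h2] at hdx'
    simp only at hdx'
    omega
  · have e1 := h0.b_two
    have e2 := h0.b_le
    have hxN' : x ∈ natR Nc co := by rw [← h1]; exact hxt
    have hJ : ¬ (x ∈ junk (fun _ => True) Nc co ∨ x ∈ junk (fun _ => True) Nc (swp co)) := by
      intro hJ
      rw [h2] at hdx'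
      unfold thR at hdx'
      rw [if_pos hJ] at hdx'
      omega
    have hxN : x ∈ Nc := by
      rw [mem_natR] at hxN'
      rcases hxN' with h | h | h
      · exact h
      · exact absurd (Or.inl h) hJ
      · exact absurd (Or.inr h) hJ
    have hl := h0.chart.lev x hxN
    have hth := rect_th7 h0 hw hxN hJ (by omega)
    rw [h2] at hdx'
    have hth' : θ (topOf x) x + 1 = lev x - w + 1 - min (min (co x).1 (co x).2) w := by
      rw [ht, h2]; omega
    rcases Nat.lt_or_ge (j + 1) (lev x) with hgt | hle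
    · left
      unfold C1
      exact rdeep_of (j := j + 1) (by omega) (by omega) n.r2 h0.chart hxN (by omega)
        (by omega) (by omega) (by omega)
    · have hlx1 : lev x = j + 1 := by omega
      rcases n.r1 (co x).1 (by rw [Finset.mem_Icc]; omega) with h6 | h6
      · left
        have h7 := cst_rect (w := w) (h := θ (topOf x) x + 1) h0.chart hxN hlx1 (by omega)
        unfold reC at h6
        unfold C1
        rw [h7, show θ (topOf x) x + 1 =
          j + 1 - w + 1 - min (min (co x).1 (j + 1 - (co x).1)) w by omega]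
        exact h6
      · right; left
        have hh : reH w (j + 1) (co x).1 = θ (topOf x) x + 1 := by
          unfold reH
          omega
        rw [hh] at h6
        refine h6.cheap hlx1 ?_ rfl htwo (hT x hx hlx1 hD hR)
        intro k hk
        have := rect_nab h0.chart hxN (k := k) (by omega)
        unfold reAb
        omega
  · have hxN' : x ∈ natS Nc co := by rw [← h1]; exact hxt
    have hJ : x ∉ junk (fun c => c.1 ≤ c.2) Nc co := by
      intro hJ
      rw [h2] at hdx'
      unfold thS at hdx'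
      rw [if_pos hJ] at hdx'
      omega
    have hxN : x ∈ Nc := by
      rw [mem_natS] at hxN'
      rcases hxN' with h | h
      · exact h
      · exact absurd h hJ
    have hl := h0.chart.lev x hxN
    have hm : (co x).1 ≤ (co x).2 := h0.chart.mem x hxN
    have hth := stair_th7 h0 hw h4 hxN hJ (by omega)
    rw [h2] at hdx'
    have hth' : θ (topOf x) x + 1 = lev x - w - 1 := by
      rw [ht, h2]; omega
    rcases Nat.lt_or_ge (j + 1) (lev x) with hgt | hle
    · left
      unfold C1
      exact sdeep_of (j := j + 1) (by omega) (by omega) n.s2 h0.chart hxN (by omega)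
        (by omega) (by omega)
    · have hlx1 : lev x = j + 1 := by omega
      have hst : K + 1 < stC w (j + 1) (co x).1 → K + 1 < C1 w θ x := by
        intro h6
        have h7 := cst_stair (w := w) (h := θ (topOf x) x + 1) h0.chart hxN hlx1 (by omega)
        unfold stC at h6
        unfold C1
        rw [h7, show θ (topOf x) x + 1 = j + 1 - w - 1 by omega]
        exact h6
      have hab : ∀ k ≤ j + 1, nab k x = stAb (j + 1) (co x).1 k := by
        intro k hk
        have := stair_nab h0.chart hxN (k := k) (by omega)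
        unfold stAb
        omega
      by_cases ha : 3 ≤ (co x).1
      · rcases n.s1 (co x).1 (by rw [Finset.mem_Icc]; omega) with h6 | h6
        · exact Or.inl (hst h6)
        · right; left
          have hh : j - w = θ (topOf x) x + 1 := by omega
          rw [hh] at h6
          refine h6.cheap hlx1 hab rfl ?_ (hT x hx hlx1 hD hR)
          intro z y hz hy hne
          unfold feC
          split_ifs with hf
          · rw [hh]
            refine W.fold_two hx (by rw [ht]; exact h0) (by rw [ht]; exact h1) hxN hlx1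
              (by omega) hz hy hne ?_ (by omega)
            exact hT x hx hlx1 hD hR y hne
          · exact htwo z y hz hy hne
      · have ha2 : (co x).1 = 2 := by omega
        rw [ha2] at hst hab
        rcases n.sp with h6 | h6
        · exact Or.inl (hst h6)
        · right; right; left
          refine ⟨⟨Nc, co, ?_, ?_, ?_, hxN, ?_, ?_⟩, ?_⟩
          · rw [ht]; exact h0
          · rw [ht]; exact h1
          · rw [ht, h3]; omega
          · exact Prod.ext ha2 (by simp only; omega)
          · omega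
          · exact h6.spOK (by omega) hlx1 hab (by omega) (hT x hx hlx1 hD hR)

/-- deep cells of level `j + 1` have at least three elements above them on level `4` -/
lemma Wk.deep_four (W : Wk r j w K0 N b θ) (hw2 : 2 ≤ w) (hj : 9 ≤ j) {x : P} (hx : x ∉ unnat N)
    (hlx : lev x = j + 1) (hD : Dk j w K0 N θ x) (hR : ¬ Row1 j w N θ x) : 3 ≤ nab 4 x := by
  have HN := W.natSys
  have hxt : x ∈ N (topOf x) := HN.mem_iff.mpr ⟨hx, rfl⟩
  have hj5 := W.hj
  have hw := W.hw
  have hdx := (W.dk_row1 hw2 hx (by omega) hD).resolve_left hR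
  have hT0 := W.typ (topOf x)
  generalize ht : topOf x = t at hxt hT0 hdx
  rcases hT0 with ⟨h1, h2, h3, h5⟩ | ⟨Nc, co, h0, h1, h2, h4⟩ |
    ⟨Nc, co, h0, h1, h2, h3, h4, h5'⟩
  · rw [h2] at hdx
    simp only at hdx
    omega
  · have hxN' : x ∈ natR Nc co := by rw [← h1]; exact hxt
    have hJ : ¬ (x ∈ junk (fun _ => True) Nc co ∨ x ∈ junk (fun _ => True) Nc (swp co)) := by
      intro hJ
      rw [h2] at hdx
      unfold thR at hdx
      rw [if_pos hJ] at hdx
      omega
    have hxN : x ∈ Nc := by
      rw [mem_natR] at hxN'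
      rcases hxN' with h | h | h
      · exact h
      · exact absurd (Or.inl h) hJ
      · exact absurd (Or.inr h) hJ
    have hl := h0.chart.lev x hxN
    have hth := rect_th7 h0 hw hxN hJ (by omega)
    rw [h2] at hdx
    have := rect_nab h0.chart hxN (k := 4) (by omega)
    omega
  · have hxN' : x ∈ natS Nc co := by rw [← h1]; exact hxt
    have hJ : x ∉ junk (fun c => c.1 ≤ c.2) Nc co := by
      intro hJ
      rw [h2] at hdx
      unfold thS at hdx
      rw [if_pos hJ] at hdx
      omega
    have hxN : x ∈ Nc := by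
      rw [mem_natS] at hxN'
      rcases hxN' with h | h
      · exact h
      · exact absurd h hJ
    have hl := h0.chart.lev x hxN
    have hm : (co x).1 ≤ (co x).2 := h0.chart.mem x hxN
    have hth := stair_th7 h0 hw h4 hxN hJ (by omega)
    rw [h2] at hdx
    have := stair_nab h0.chart hxN (k := 4) (by omega)
    omega

/-- **the deep cells, without twins of the inner cells** -/
theorem Wk.cellsN (W : Wk r j w K0 N b θ) (hw2 : 2 ≤ w) (hj : 9 ≤ j) (n : NumN j w K LE LO)
    (hT : NoTw P j) :
    CellsN P j w K0 K N b θ (XL (j + 1 - w) LE) (XL (j + 1 - w) LO) := by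
  refine W.cellsN' hw2 n fun x hx hlx hD hR x' hne hup => ?_
  refine hT x x' hne.symm hlx hup (mem_onlyB.mpr fun s hs hxs => ?_)
    (W.deep_four hw2 hj hx hlx hD hR)
  exact W.natSys.top_eq (W.natSys.mem_iff.mpr ⟨hx, rfl⟩) hs hxs

/-- the deep cells with twins, the cells of row `1` excluded -/
theorem Wk.cellsS (W : Wk r j w K0 N b θ) (hw2 : 2 ≤ w) (n : NumS j w K LE LO) :
    CellsN P j w K0 K N b θ (XL (j + 1 - w) LE) (XL (j + 1 - w) LO) := by
  intro x hx hlx hD hR
  rcases W.cellsR hw2 n hx hlx hD with h | h | h | h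
  · exact absurd h hR
  · exact Or.inl h
  · exact Or.inr (Or.inl h.toN)
  · exact Or.inr (Or.inr (Or.inl ⟨h.1, h.2.toN⟩))

/-! ### Instances -/

theorem numN_11_3 : NumN 11 3 (9 ^ 2 + 40) [17, 35] [37] := by constructor <;> decide +kernel
theorem numN_11_2 : NumN 11 2 (10 ^ 2 + 50) [23] [44, 45] := by constructor <;> decide +kernel
theorem numN_13_3 : NumN 13 3 (11 ^ 2 + 60) [39, 54] [56] := by constructor <;> decide +kernel
theorem numN_13_2 : NumN 13 2 (12 ^ 2 + 70) [49] [65, 66] := by constructor <;> decide +kernel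
theorem numN_15_3 : NumN 15 3 (13 ^ 2 + 88) [77] [74, 79] := by constructor <;> decide +kernel
theorem numN_15_2 : NumN 15 2 (14 ^ 2 + 100) [] [89, 90, 91] := by constructor <;> decide +kernel

end Pool.Agent.GaussPoset.Sm
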