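import Pool.Agent.W_448pg_h74.WtB

/-!
# The windows `2`, `3`: the deep cells, twins excluded at the fold cell only (MP_448cb3_co, S7)
-/

namespace Pool.Agent.GaussPoset.Sm

set_option linter.unusedSectionVars false

open Finset Wd

universe u

variable {P : Type u} [Fintype P] [PartialOrder P] [DecidableEq P] {r j w K0 K y : ℕ}
  {N : Tops P → Finset P} {b : Tops P → ℕ} {θ : Tops P → P → ℕ} {LE LO : List ℤ}

/-- no twins of the elements of level `j + 1` with one upper cover which has two upper covers -/
def NoPT (P : Type u) [Fintype P] [PartialOrder P] [DecidableEq P] (j : ℕ) : Prop :=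
  ∀ x x' : P, x ≠ x' → lev x = j + 1 → (∀ u, x < u ↔ x' < u) → nab j x = 1 →
    2 ≤ nab (j - 1) x → False

/-- **the finite check** for the deep cells of level at least `j + 1`, with twins, but without
twins of the fold cell -/
structure NumF (j w K : ℕ) (LE LO : List ℤ) : Prop where
  s1 : ∀ a ∈ Finset.Icc 3 ((j + 1) / 2), K + 1 < stC w (j + 1) a ∨
    (2 * a = j + 1 ∧
      ChM w (j + 1) K (j + 1 - w) LE LO (j - w) (stAb (j + 1) a) (feC w j a)) ∨
    ChN w (j + 1) K (j + 1 - w) LE LO (j - w) (stAb (j + 1) a)
  r1 : ∀ a ∈ Finset.Icc 2 (j - 1), K + 1 < reC w (j + 1) a ∨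
    ChN w (j + 1) K (j + 1 - w) LE LO (reH w (j + 1) a) (reAb (j + 1) a)
  sp : K + 1 < stC w (j + 1) 2 ∨ SpN j w K (j + 1 - w) LE LO
  s2 : ∀ a ∈ Finset.Icc 2 ((j + 1 + 1) / 2), K + 1 < stC w (j + 1 + 1) a
  r2 : ∀ a ∈ Finset.Icc 2 (j + 1 - 1), K + 1 < reC w (j + 1 + 1) a

/-- the check is monotone in the lists -/
lemma NumF.mono {LE' LO' : List ℤ} (n : NumF j w K LE LO) (h1 : ∀ v ∈ LE, v ∈ LE')
    (h2 : ∀ v ∈ LO, v ∈ LO') : NumF j w K LE' LO' :=
  { s1 := fun a ha => (n.s1 a ha).imp id (Or.imp
      (fun h => ⟨h.1, h.2.1, h.2.2.1, h.2.2.2.1.mono h1 h2, h.2.2.2.2⟩) fun h => h.mono h1 h2)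
    r1 := fun a ha => (n.r1 a ha).imp id fun h => h.mono h1 h2
    sp := n.sp.imp id fun h => ⟨h.1.mono h1 h2, h.2.1.mono h1 h2, h.2.2⟩
    s2 := n.s2
    r2 := n.r2 }

/-- the check with twins everywhere -/
lemma NumS.toF (n : NumS j w K LE LO) : NumF j w K LE LO :=
  { s1 := fun a ha => (n.s1 a ha).imp id Or.inr
    r1 := n.r1
    sp := n.sp
    s2 := n.s2
    r2 := n.r2 }

/-- **the deep cells, without twins of the fold cell** -/
theorem Wk.cellsF (W : Wk r j w K0 N b θ) (hw2 : 2 ≤ w) (n : NumF j w K LE LO)
    (hT : NoPT P j) :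
    CellsN P j w K0 K N b θ (XL (j + 1 - w) LE) (XL (j + 1 - w) LO) := by
  intro x hx hlx hD hR
  have H := W.gt.H
  have HN := W.natSys
  have hxt : x ∈ N (topOf x) := HN.mem_iff.mpr ⟨hx, rfl⟩
  have hj := W.hj
  have hw := W.hw
  have hdx := (W.dk_row1 hw2 hx (by omega) hD).resolve_left hR
  have hT0 := W.typ (topOf x)
  have hdx' := hdx
  generalize ht : topOf x = t at hxt hT0 hdx'
  rcases hT0 with ⟨h1, h2, h3, h5⟩ | ⟨Nc, co, h0, h1, h2, h4⟩ |
    ⟨Nc, co, h0, h1, h2, h3, h4, h5'⟩
  · rw [h2] at hdx'
    simp only at hdx'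
    omega
  · have e1 := h0.b_two
    have e2 := h0.b_le
    have hxN' : x ∈ natR Nc co := by rw [← h1]; exact hxt
    have hJ : ¬ (x ∈ junk (fun _ => True) Nc co ∨ x ∈ junk (fun _ => True) Nc (swp co)) := by
      intro hJ
      rw [h2] at hdx'
      unfold thR at hdx'
      rw [if_pos hJ] at hdx'
      omega
    have hxN : x ∈ Nc := by
      rw [mem_natR] at hxN'
      rcases hxN' with h | h | h
      · exact h
      · exact absurd (Or.inl h) hJ
      · exact absurd (Or.inr h) hJ
    have hl := h0.chart.lev x hxN
    have hth := rect_th7 h0 hw hxN hJ (by omega)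
    rw [h2] at hdx'
    have hth' : θ (topOf x) x + 1 = lev x - w + 1 - min (min (co x).1 (co x).2) w := by
      rw [ht, h2]; omega
    rcases Nat.lt_or_ge (j + 1) (lev x) with hgt | hle
    · left
      unfold C1
      exact rdeep_of (j := j + 1) (by omega) (by omega) n.r2 h0.chart hxN (by omega)
        (by omega) (by omega) (by omega)
    · have hlx1 : lev x = j + 1 := by omega
      rcases n.r1 (co x).1 (by rw [Finset.mem_Icc]; omega) with h6 | h6
      · left
        have h7 := cst_rect (w := w) (h := θ (topOf x) x + 1) h0.chart hxN hlx1 (by omega)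
        unfold reC at h6
        unfold C1
        rw [h7, show θ (topOf x) x + 1 =
          j + 1 - w + 1 - min (min (co x).1 (j + 1 - (co x).1)) w by omega]
        exact h6
      · right; left
        refine (h6.cheap hlx1 ?_ ?_).toN
        · intro k hk
          have := rect_nab h0.chart hxN (k := k) (by omega)
          unfold reAb
          omega
        · unfold reH
          omega
  · have hxN' : x ∈ natS Nc co := by rw [← h1]; exact hxt
    have hJ : x ∉ junk (fun c => c.1 ≤ c.2) Nc co := by
      intro hJ
      rw [h2] at hdx'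
      unfold thS at hdx'
      rw [if_pos hJ] at hdx'
      omega
    have hxN : x ∈ Nc := by
      rw [mem_natS] at hxN'
      rcases hxN' with h | h
      · exact h
      · exact absurd h hJ
    have hl := h0.chart.lev x hxN
    have hm : (co x).1 ≤ (co x).2 := h0.chart.mem x hxN
    have hth := stair_th7 h0 hw h4 hxN hJ (by omega)
    rw [h2] at hdx'
    have hth' : θ (topOf x) x + 1 = lev x - w - 1 := by
      rw [ht, h2]; omega
    rcases Nat.lt_or_ge (j + 1) (lev x) with hgt | hle
    · left
      unfold C1
      exact sdeep_of (j := j + 1) (by omega) (by omega) n.s2 h0.chart hxN (by omega)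
        (by omega) (by omega)
    · have hlx1 : lev x = j + 1 := by omega
      have hst : K + 1 < stC w (j + 1) (co x).1 → K + 1 < C1 w θ x := by
        intro h6
        have h7 := cst_stair (w := w) (h := θ (topOf x) x + 1) h0.chart hxN hlx1 (by omega)
        unfold stC at h6
        unfold C1
        rw [h7, show θ (topOf x) x + 1 = j + 1 - w - 1 by omega]
        exact h6
      have hab : ∀ k ≤ j + 1, nab k x = stAb (j + 1) (co x).1 k := by
        intro k hk
        have := stair_nab h0.chart hxN (k := k) (by omega)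
        unfold stAb
        omega
      by_cases ha : 3 ≤ (co x).1
      · rcases n.s1 (co x).1 (by rw [Finset.mem_Icc]; omega) with h6 | ⟨hfo, h6⟩ | h6
        · exact Or.inl (hst h6)
        · right; left
          have hN : NTw x := by
            intro x' hne hup
            refine hT x x' hne.symm hlx1 hup ?_ ?_
            · have := hab j (by omega)
              unfold stAb at this
              omega
            · have := hab (j - 1) (by omega)
              unfold stAb at this
              omega
          have hh : j - w = θ (topOf x) x + 1 := by omega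
          rw [hh] at h6
          refine h6.cheap hlx1 hab rfl ?_ hN
          intro z y hz hy hne
          unfold feC
          rw [if_pos hfo, hh]
          exact W.fold_two hx (by rw [ht]; exact h0) (by rw [ht]; exact h1) hxN hlx1
            (by omega) hz hy hne (hN y hne) (by omega)
        · right; left
          exact (h6.cheap hlx1 hab (by omega)).toN
      · have ha2 : (co x).1 = 2 := by omega
        rw [ha2] at hst hab
        rcases n.sp with h6 | h6
        · exact Or.inl (hst h6)
        · right; right; left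
          refine ⟨⟨Nc, co, ?_, ?_, ?_, hxN, ?_, ?_⟩, (h6.spOK (by omega) hlx1 hab (by omega)).toN⟩
          · rw [ht]; exact h0
          · rw [ht]; exact h1
          · rw [ht, h3]; omega
          · exact Prod.ext ha2 (by simp only; omega)
          · omega

/-! ### Instances -/

theorem numF_11_3 : NumF 11 3 (9 ^ 2 + 40) [17, 34, 35] [36, 37] := by
  constructor <;> decide +kernel
theorem numF_11_2 : NumF 11 2 (10 ^ 2 + 50) [23] [43, 44, 45] := by
  constructor <;> decide +kernel
theorem numF_13_3 : NumF 13 3 (11 ^ 2 + 60) [39, 53, 54] [55, 56] := by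
  constructor <;> decide +kernel
theorem numF_13_2 : NumF 13 2 (12 ^ 2 + 70) [49] [64, 65, 66] := by
  constructor <;> decide +kernel

end Pool.Agent.GaussPoset.Sm
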