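import Pool.Agent.W_448pg_h74.WuA

/-!
# The windows `2`, `3`: the classification of the deep cells, the cells `(2, j - 1)` without twins
and pendants (MP_448cb3_co, S7)
-/

namespace Pool.Agent.GaussPoset.Sm

set_option linter.unusedSectionVars false

open Finset Wd

universe u

variable {P : Type u} [Fintype P] [PartialOrder P] [DecidableEq P] {r j w K0 K y : ℕ}
  {N : Tops P → Finset P} {b : Tops P → ℕ} {θ : Tops P → P → ℕ} {LE LO : List ℤ}

section Cell

variable {x : P}

/-- the cost of a cell from the numbers of ancestors -/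
lemma cst_cC {L h : ℕ} {f : ℕ → ℕ} (hl : lev x = L) (hf : ∀ k ≤ L, nab k x = f k)
    (hw : w ≤ L) : cst w (fun _ => h) x = cC w L h f := by
  rw [cst_shift (i := w) (a := L - w) (by omega)]
  unfold cC
  refine Finset.sum_congr rfl fun n hn => ?_
  rw [mem_range] at hn
  rw [hf _ (by omega)]

/-- a cell without twins, a second cover costs more -/
lemma ChE.cheap {h : ℕ} {f : ℕ → ℕ} (hC : ChE w j K y LE LO h f) (hl : lev x = j + 1)
    (hw : w ≤ j) (hf : ∀ k ≤ j + 1, nab k x = f k) (hth : θ (topOf x) x + 1 = h)
    (htwo : ∀ z y, z ⋖ x → z ⋖ y → y ≠ x → cst w (fun _ => h) x + h + h + min h (j - w) ≤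
      cst w (fun _ => h) z) (hN : NTw x) :
    CheapN w K (XL y LE) (XL y LO) θ x := by
  obtain ⟨h1, h2, h3, h5⟩ := hC
  have e1 : cst w (fun _ => h) x = cC w (j + 1) h f := cst_cC hl hf (by omega)
  have e2 : nst w (fun _ => h) x = nC w h f := by
    rw [nst_eq]
    unfold nC
    refine Finset.sum_congr rfl fun n hn => ?_
    rw [mem_range] at hn
    rw [hf _ (by omega)]
  have e3 : C1 w θ x = cC w (j + 1) h f + h := by
    unfold C1
    rw [hth, e1]
  refine ⟨by omega, ?_, ?_, Or.inr hN, Or.inr ⟨hN, ?_⟩⟩
  · rw [hth, hf _ (by omega), hf _ (by omega)]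
    exact h2
  · rw [hth, e2, e3]
    exact h3.okv
  · intro z y' hz hy hne
    have := htwo z y' hz hy hne
    rw [hth]
    omega

/-- a cell without twins and pendants -/
lemma ChP.npen {h : ℕ} {f : ℕ → ℕ} (hC : ChP w j K h f) (hl : lev x = j + 1)
    (hw : w ≤ j) (hf : ∀ k ≤ j + 1, nab k x = f k) (hth : θ (topOf x) x + 1 = h)
    (htwo : ∀ z y, z ⋖ x → z ⋖ y → y ≠ x → cst w (fun _ => h) x + h + h + min h (j - w) ≤
      cst w (fun _ => h) z) (hN : NTw x) (hp : ∀ z, z ⋖ x → ¬ ∀ y, z ⋖ y → y = x) :
    NPen w K N θ x := by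
  obtain ⟨h1, h5⟩ := hC
  have e1 : cst w (fun _ => h) x = cC w (j + 1) h f := cst_cC hl hf (by omega)
  refine ⟨by omega, hN, fun z _ hz => ?_, Or.inr fun z y' hz hy hne => ?_⟩
  · have := hp z hz
    push Not at this
    exact this
  · have := htwo z y' hz hy hne
    rw [hth]
    omega

end Cell

/-- **the deep cells, without twins and pendants of the cells `(2, j - 1)`** -/
theorem Wk.cellsE {p : Prop} [Decidable p] (W : Wk r j w K0 N b θ) (hw2 : 2 ≤ w) (h10 : 10 ≤ j)
    (n : NumE p j w K LE LO) (hT : NoPT P j) (hE : NoE2 P j) (hP : p → NoP2 P j) :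
    CellsN P j w K0 K N b θ (XL (j + 1 - w) LE) (XL (j + 1 - w) LO) := by
  intro x hx hlx hD hR
  have H := W.gt.H
  have HN := W.natSys
  have hxt : x ∈ N (topOf x) := HN.mem_iff.mpr ⟨hx, rfl⟩
  have hj := W.hj
  have hw := W.hw
  have hdx := (W.dk_row1 hw2 hx (by omega) hD).resolve_left hR
  -- the cells `(2, j - 1)`
  have hNE : lev x = j + 1 → (∀ k, 4 ≤ k → k + 1 ≤ j → nab k x = 3) → nab j x = 2 → NTw x :=
    fun h1 h2 h3 x' hne hup => hE x x' hne.symm h1 hup h2 h3
  have hPE : p → lev x = j + 1 → (∀ k, 4 ≤ k → k + 1 ≤ j → nab k x = 3) → nab j x = 2 →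
      ∀ z, z ⋖ x → ¬ ∀ y, z ⋖ y → y = x :=
    fun hp h1 h2 h3 z hz ho => hP hp z x h1 h2 h3 hz ho
  have hT0 := W.typ (topOf x)
  have hdx' := hdx
  generalize ht : topOf x = t at hxt hT0 hdx'
  rcases hT0 with ⟨h1, h2, h3, h5⟩ | ⟨Nc, co, h0, h1, h2, h4⟩ |
    ⟨Nc, co, h0, h1, h2, h3, h4, h5'⟩
  · rw [h2] at hdx'
    simp only at hdx'
    omega
  · have e1 := h0.b_two
    have e2 := h0.b_le
    have hxN' : x ∈ natR Nc co := by rw [← h1]; exact hxt
    have hJ : ¬ (x ∈ junk (fun _ => True) Nc co ∨ x ∈ junk (fun _ => True) Nc (swp co)) := by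
      intro hJ
      rw [h2] at hdx'
      unfold thR at hdx'
      rw [if_pos hJ] at hdx'
      omega
    have hxN : x ∈ Nc := by
      rw [mem_natR] at hxN'
      rcases hxN' with h | h | h
      · exact h
      · exact absurd (Or.inl h) hJ
      · exact absurd (Or.inr h) hJ
    have hl := h0.chart.lev x hxN
    have hth := rect_th7 h0 hw hxN hJ (by omega)
    rw [h2] at hdx'
    have hth' : θ (topOf x) x + 1 = lev x - w + 1 - min (min (co x).1 (co x).2) w := by
      rw [ht, h2]; omega
    rcases Nat.lt_or_ge (j + 1) (lev x) with hgt | hle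
    · left
      unfold C1
      exact rdeep_of (j := j + 1) (by omega) (by omega) n.r2 h0.chart hxN (by omega)
        (by omega) (by omega) (by omega)
    · have hlx1 : lev x = j + 1 := by omega
      have hab : ∀ k ≤ j + 1, nab k x = reAb (j + 1) (co x).1 k := by
        intro k hk
        have := rect_nab h0.chart hxN (k := k) (by omega)
        unfold reAb
        omega
      have hin : ∀ v, x ⋖ v → ∀ y, y ⋖ v → ¬ ∀ u, y ⋖ u → u = v := by
        intro v hv y hy
        have hvN := h0.chart.up x hxN v hv.1.le
        have hcv := (chart_cov h0.chart H hxN hvN).mp hv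
        have hlv := (H.covBy_iff.mp hv).2
        have h7 : (Win.uc v).card = 2 := by
          unfold Prd at hcv
          exact chart_inner_uc h0.chart H hvN (by omega) (by omega)
        exact h4 v y (h0.chart.le_t v hvN) (by omega) h7 hy
      have htwo : (∀ k, 4 ≤ k → k + 1 ≤ j → nab k x = 3) → nab j x = 2 → ∀ z y, z ⋖ x → z ⋖ y →
          y ≠ x → cst w (fun _ => reH w (j + 1) (co x).1) x + reH w (j + 1) (co x).1 +
            reH w (j + 1) (co x).1 + min (reH w (j + 1) (co x).1) (j - w) ≤
            cst w (fun _ => reH w (j + 1) (co x).1) z := by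
        intro g1 g2 z y hz hy hne
        obtain ⟨q, q1, q2, q3⟩ := exists_ext H hlx1
          (chart_inner_uc h0.chart H hxN (by omega) (by omega)) hin hz hy
          (hNE hlx1 g1 g2 y hne)
        exact cst_ext H hlx1 (by omega) hz hy hne q1 q2 q3 (by unfold reH; omega)
      have hc2 : (co x).1 = 2 ∨ (co x).1 = j - 1 →
          (∀ k, 4 ≤ k → k + 1 ≤ j → nab k x = 3) ∧ nab j x = 2 := by
        intro hc
        refine ⟨fun k hk1 hk2 => ?_, ?_⟩
        · rw [hab k (by omega)]
          unfold reAb
          omega
        · rw [hab j (by omega)]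
          unfold reAb
          omega
      rcases n.r1 (co x).1 (by rw [Finset.mem_Icc]; omega) with h6 | ⟨hc, h6⟩ | h6
      · left
        have h7 := cst_rect (w := w) (h := θ (topOf x) x + 1) h0.chart hxN hlx1 (by omega)
        unfold reC at h6
        unfold C1
        rw [h7, show θ (topOf x) x + 1 =
          j + 1 - w + 1 - min (min (co x).1 (j + 1 - (co x).1)) w by omega]
        exact h6
      · obtain ⟨g1, g2⟩ := hc2 hc
        rcases h6 with ⟨hp, h6⟩ | h6
        · right; right; right
          exact h6.npen hlx1 (by omega) hab (by unfold reH; omega) (htwo g1 g2)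
            (hNE hlx1 g1 g2) (hPE hp hlx1 g1 g2)
        · right; left
          exact h6.cheap hlx1 (by omega) hab (by unfold reH; omega) (htwo g1 g2)
            (hNE hlx1 g1 g2)
      · right; left
        exact (h6.cheap hlx1 hab (by unfold reH; omega)).toN
  · have hxN' : x ∈ natS Nc co := by rw [← h1]; exact hxt
    have hJ : x ∉ junk (fun c => c.1 ≤ c.2) Nc co := by
      intro hJ
      rw [h2] at hdx'
      unfold thS at hdx'
      rw [if_pos hJ] at hdx'
      omega
    have hxN : x ∈ Nc := by
      rw [mem_natS] at hxN'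
      rcases hxN' with h | h
      · exact h
      · exact absurd h hJ
    have hl := h0.chart.lev x hxN
    have hm : (co x).1 ≤ (co x).2 := h0.chart.mem x hxN
    have hth := stair_th7 h0 hw h4 hxN hJ (by omega)
    rw [h2] at hdx'
    have hth' : θ (topOf x) x + 1 = lev x - w - 1 := by
      rw [ht, h2]; omega
    rcases Nat.lt_or_ge (j + 1) (lev x) with hgt | hle
    · left
      unfold C1
      exact sdeep_of (j := j + 1) (by omega) (by omega) n.s2 h0.chart hxN (by omega)
        (by omega) (by omega)
    · have hlx1 : lev x = j + 1 := by omega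
      have hst : K + 1 < stC w (j + 1) (co x).1 → K + 1 < C1 w θ x := by
        intro h6
        have h7 := cst_stair (w := w) (h := θ (topOf x) x + 1) h0.chart hxN hlx1 (by omega)
        unfold stC at h6
        unfold C1
        rw [h7, show θ (topOf x) x + 1 = j + 1 - w - 1 by omega]
        exact h6
      have hab : ∀ k ≤ j + 1, nab k x = stAb (j + 1) (co x).1 k := by
        intro k hk
        have := stair_nab h0.chart hxN (k := k) (by omega)
        unfold stAb
        omega
      by_cases ha : 3 ≤ (co x).1
      · rcases n.s1 (co x).1 (by rw [Finset.mem_Icc]; omega) with h6 | ⟨hfo, h6⟩ | h6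
        · exact Or.inl (hst h6)
        · right; left
          have hN : NTw x := by
            intro x' hne hup
            refine hT x x' hne.symm hlx1 hup ?_ ?_
            · have := hab j (by omega)
              unfold stAb at this
              omega
            · have := hab (j - 1) (by omega)
              unfold stAb at this
              omega
          have hh : j - w = θ (topOf x) x + 1 := by omega
          rw [hh] at h6
          refine h6.cheap hlx1 hab rfl ?_ hN
          intro z y hz hy hne
          unfold feC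
          rw [if_pos hfo, hh]
          exact W.fold_two hx (by rw [ht]; exact h0) (by rw [ht]; exact h1) hxN hlx1
            (by omega) hz hy hne (hN y hne) (by omega)
        · right; left
          exact (h6.cheap hlx1 hab (by omega)).toN
      · have ha2 : (co x).1 = 2 := by omega
        rw [ha2] at hst hab
        have g1 : ∀ k, 4 ≤ k → k + 1 ≤ j → nab k x = 3 := by
          intro k hk1 hk2
          rw [hab k (by omega)]
          unfold stAb
          omega
        have g2 : nab j x = 2 := by
          rw [hab j (by omega)]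
          unfold stAb
          omega
        have hin : ∀ v, x ⋖ v → ∀ y, y ⋖ v → ¬ ∀ u, y ⋖ u → u = v := by
          intro v hv y hy ho
          have hvN := h0.chart.up x hxN v hv.1.le
          have hcv := (chart_cov h0.chart H hxN hvN).mp hv
          have hlv := (H.covBy_iff.mp hv).2
          unfold Prd at hcv
          have h7 : (Win.uc v).card = 2 :=
            stair_inner_uc h0.chart H hvN (by omega) (by omega)
          have := h5' v y (h0.chart.le_t v hvN) (by omega) h7 hy ho
          omega
        have htwo : ∀ z y, z ⋖ x → z ⋖ y → y ≠ x → cst w (fun _ => j - w) x + (j - w) +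
            (j - w) + min (j - w) (j - w) ≤ cst w (fun _ => j - w) z := by
          intro z y hz hy hne
          obtain ⟨q, q1, q2, q3⟩ := exists_ext H hlx1
            (stair_inner_uc h0.chart H hxN (by omega) (by omega)) hin hz hy
            (hNE hlx1 g1 g2 y hne)
          exact cst_ext H hlx1 (by omega) hz hy hne q1 q2 q3 (by omega)
        rcases n.sp with h6 | ⟨hp, h6⟩ | h6
        · exact Or.inl (hst h6)
        · right; right; right
          exact h6.npen hlx1 (by omega) hab (by omega) htwo (hNE hlx1 g1 g2)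
            (hPE hp hlx1 g1 g2)
        · right; right; left
          refine ⟨⟨Nc, co, ?_, ?_, ?_, hxN, ?_, ?_⟩,
            h6.spOK (by omega) hlx1 hab (by omega) (hNE hlx1 g1 g2)⟩
          · rw [ht]; exact h0
          · rw [ht]; exact h1
          · rw [ht, h3]; omega
          · exact Prod.ext ha2 (by simp only; omega)
          · omega

/-- the check is monotone in the lists -/
lemma NumE.mono {p : Prop} [Decidable p] {LE' LO' : List ℤ} (n : NumE p j w K LE LO)
    (h1 : ∀ v ∈ LE, v ∈ LE') (h2 : ∀ v ∈ LO, v ∈ LO') : NumE p j w K LE' LO' :=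
  { s1 := fun a ha => (n.s1 a ha).imp id (Or.imp
      (fun h => ⟨h.1, h.2.1, h.2.2.1, h.2.2.2.1.mono h1 h2, h.2.2.2.2⟩) fun h => h.mono h1 h2)
    r1 := fun a ha => (n.r1 a ha).imp id (Or.imp
      (fun h => ⟨h.1, h.2.imp id fun g => ⟨g.1, g.2.1, g.2.2.1.mono h1 h2, g.2.2.2⟩⟩)
      fun h => h.mono h1 h2)
    sp := n.sp.imp id (Or.imp id fun h => ⟨h.1.mono h1 h2, h.2⟩)
    s2 := n.s2
    r2 := n.r2 }

/-! ### Instances -/

theorem numE_13_3 : NumE False 13 3 (11 ^ 2 + 60) [39, 54] [56] := by
  constructor <;> decide +kernel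
theorem numE_13_2 : NumE False 13 2 (12 ^ 2 + 64) [49] [] := by
  constructor <;> decide +kernel
theorem numE_14_3 : NumE True 14 3 (12 ^ 2 + 82) [] [] := by
  constructor <;> decide +kernel
theorem numE_14_2 : NumE True 14 2 (13 ^ 2 + 99) [] [] := by
  constructor <;> decide +kernel
theorem numE_14_3' : NumE True 14 3 (12 ^ 2 + 80) [] [] := by
  constructor <;> decide +kernel
theorem numE_14_2' : NumE True 14 2 (13 ^ 2 + 89) [] [] := by
  constructor <;> decide +kernel

end Pool.Agent.GaussPoset.Sm
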