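import Pool.Agent.W_448pg_h74.WxA

/-!
# The windows `2`, `3` for even `j`: the deep cells without noise (MP_448cb3_co, S7)
-/

namespace Pool.Agent.GaussPoset.Sm

set_option linter.unusedSectionVars false

open Finset Wd

universe u

variable {P : Type u} [Fintype P] [PartialOrder P] [DecidableEq P] {r j w K0 K : ℕ}
  {N : Tops P → Finset P} {b : Tops P → ℕ} {θ : Tops P → P → ℕ} {XE XO XE' XO' : ℕ → Prop}

lemma Okv.monoX {n u : ℕ} (h : Okv K XE XO n u) (h1 : ∀ v, XE v → XE' v)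
    (h2 : ∀ v, XO v → XO' v) : Okv K XE' XO' n u := by
  rcases h with h | h | h
  · exact Or.inl h
  · exact Or.inr (Or.inl ⟨h.1, h1 _ h.2⟩)
  · exact Or.inr (Or.inr ⟨h.1, h2 _ h.2⟩)

/-- the classification is monotone in the noise -/
lemma CellsF.mono {Zf : Finset P} {FT : P → Prop} (hC : CellsF P j w K0 K N b θ XE XO Zf FT)
    (h1 : ∀ v, XE v → XE' v) (h2 : ∀ v, XO v → XO' v) :
    CellsF P j w K0 K N b θ XE' XO' Zf FT := by
  intro x hx hl hD hR
  rcases hC x hx hl hD hR with h | h | ⟨hs, h⟩ | h | h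
  · exact Or.inl h
  · exact Or.inr (Or.inl ⟨h.th, h.drop, h.pen.monoX h1 h2,
      h.twn.imp (fun g => g.monoX h1 h2) id, h.two⟩)
  · exact Or.inr (Or.inr (Or.inl ⟨hs, h.pen.monoX h1 h2,
      h.twn.imp (fun g => g.monoX h1 h2) id, h.two⟩))
  · exact Or.inr (Or.inr (Or.inr (Or.inl h)))
  · exact Or.inr (Or.inr (Or.inr (Or.inr h)))

/-- **the finite check without noise** -/
structure NumD (j w K : ℕ) : Prop where
  s1 : ∀ a ∈ Finset.Icc 3 ((j + 1) / 2), K + 1 < stC w (j + 1) a ∨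
    (2 * a = j ∧ K < stC w (j + 1) a + (j - w))
  r1 : ∀ a ∈ Finset.Icc 2 (j - 1), K + 1 < reC w (j + 1) a ∨
    ((a = 2 ∨ a = j - 1) ∧ ChP w j K (reH w (j + 1) a) (reAb (j + 1) a))
  sp : K + 1 < stC w (j + 1) 2 ∨ ChP w j K (j - w) (stAb (j + 1) 2)
  s2 : ∀ a ∈ Finset.Icc 2 ((j + 1 + 1) / 2), K + 1 < stC w (j + 1 + 1) a
  r2 : ∀ a ∈ Finset.Icc 2 (j + 1 - 1), K + 1 < reC w (j + 1 + 1) a

lemma NumD.numP (n : NumD j w K) : NumP True True j w K [] [] where
  s1 := fun a ha => by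
    rcases n.s1 a ha with h | ⟨h1, h2⟩
    · exact Or.inl h
    · exact Or.inr (Or.inl ⟨trivial, h1, h2⟩)
  r1 := fun a ha => by
    rcases n.r1 a ha with h | ⟨h1, h2⟩
    · exact Or.inl h
    · exact Or.inr (Or.inl ⟨h1, trivial, h2⟩)
  sp := by
    rcases n.sp with h | h
    · exact Or.inl h
    · exact Or.inr (Or.inr (Or.inl ⟨trivial, h⟩))
  s2 := n.s2
  r2 := n.r2

/-- **the deep cells without noise** -/
theorem We.cellsD (W : We r j w K0 N b θ) (hw2 : 2 ≤ w) (h10 : 10 ≤ j) (hj2 : j % 2 = 0)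
    (n : NumD j w K) (hE : NoE2 P j) (hP : NoP2 P j) :
    CellsF P j w K0 K N b θ XE XO (zfA j N) (Fc j) :=
  (W.cellsP hw2 h10 hj2 n.numP hE (fun _ => hP) (fun _ => W.hF1 (by omega) hj2)
    fun _ => hF2_zfA).mono (fun v h => by unfold XL at h; simp at h)
    fun v h => by unfold XL at h; simp at h

theorem numD_12_2 : NumD 12 2 182 := by
  constructor <;> decide +kernel

theorem numD_12_3 : NumD 12 3 153 := by
  constructor <;> decide +kernel

end Pool.Agent.GaussPoset.Sm
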