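import Pool.Agent.W_448pg_h74.PgB
import Pool.Agent.W_448s7_h27.EwA

/-!
The factor of one component in the systems `N^S` (MP_448cb3_co).
-/

namespace Pool.Agent.GaussPoset.Ew

set_option linter.unusedSectionVars false

open Polynomial Finset

universe u

variable {P : Type u} [Fintype P] [PartialOrder P] [DecidableEq P]
variable {i : ℕ} {N N1 : Tops P → Finset P} {b : Tops P → ℕ} {θ θ1 : Tops P → P → ℕ}
  {E S : Finset (Tops P)} {Y : Finset P} {τ : P → P}

/-- the factor of the component `t` in the system `S` -/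
theorem EW.factor (W : EW i E N N1 b θ θ1 Y τ) (hS : S ⊆ E) (n0 : ℕ)
    (hcost : ∀ x ∈ Y, n0 ≤ tcst i (thS E θ θ1 Y τ E) (τ x, x)) (t : Tops P) (β : P → ℕ)
    (hβ : ∀ x, x ∉ RS E N N1 Y S → topOf x = t → β x ≤ thS E θ θ1 Y τ S x) (m : ℕ)
    (hm : m < n0) :
    (1 + X : ℤ[X]) ^ (bS b S t) ∣
      ZB (P := {x : P // x ∉ RS E N N1 Y S ∧ topOf x = t}) i ∅ 0 (fun x => β x) m := by
  classical
  choose B hB using W.natS hS
  have HN := natSys_of_tops hB
  have T := W.twS hS
  have htw := W.twnS hS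
  have hRlev : ∀ x ∈ unnat (NS N N1 S), i < lev x := by
    intro x hx
    by_contra hcon
    exact low_natural hB (not_lt.mp hcon) hx
  refine GaussPoset.factor (ι := Tops P) (T.lower HN.lower)
    (fun x hx => hRlev x (mem_sdiff.mp hx).1) topOf (T.cp' HN.cp) (bS b S)
    (thS E θ θ1 Y τ S) (fun x => x ∉ unnat (NS N N1 S) ∧ B (topOf x) x)
    (fun x hx h => h.1 (mem_sdiff.mp hx).1) (pairsX (YS E Y S) τ) n0 ?_ ?_ ?_ ?_ t β hβ m hm
  · intro t
    refine CompData.toTwins ((hB t).data _ HN rfl _ _ ?_ ?_) T HN.lower hRlev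
      (fun x hx h => h.1 hx)
    · intro x hx
      simp only [HN.topOf_eq hx]
    · intro x hx
      simp only [HN.topOf_eq hx, (HN.mem_iff.mp hx).1, not_false_eq_true, true_and]
  · intro t ht
    rw [mem_pairsX] at ht
    have h1 := htw t.2 ht.1
    rw [← ht.2] at h1
    refine h1.pair ?_
    have h2 := hcost t.2 (mem_YS.mp ht.1).1
    rw [← W.tcst_eq hS ht.1, ← ht.2] at h2
    exact h2
  · intro t ht y hy
    rw [mem_pairsX] at ht
    exact mem_sdiff.mpr ⟨HN.lower y _ hy.le (T.sub ht.1), fun h => T.anti _ ht.1 y h hy⟩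
  · intro t ht
    rw [mem_pairsX] at ht
    rw [mem_sdiff, mem_sdiff, ht.2]
    exact ⟨fun h => T.nat _ ht.1 h.1, fun h => h.2 ht.1⟩

end Pool.Agent.GaussPoset.Ew
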