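import Pool.Agent.W_448s7_h27.FarIE
import Pool.Agent.W_448tw_h76.TwF

/-!
Products over the components with their energies (MP_448cb3_co).
-/

namespace Pool.Agent.GaussPoset

set_option linter.unusedSectionVars false

open Polynomial Finset

universe u

section Parts

variable {P : Type u} [Fintype P] [DecidableEq P]
variable {ι : Type*} [Fintype ι] [DecidableEq ι]

/-- the elements off `R` in the part `k` -/
def InPart (R : Finset P) (cp : P → ι) (k : ι) (x : P) : Prop := x ∉ R ∧ cp x = k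

instance (R : Finset P) (cp : P → ι) (k : ι) : DecidablePred (InPart R cp k) :=
  fun _ => inferInstanceAs (Decidable (_ ∧ _))

lemma card_parts {R : Finset P} (cp : P → ι) {F : Finset P} (hF : ∀ x ∈ R, x ∉ F) :
    F.card = ∑ k, (F.subtype (InPart R cp k)).card := by
  classical
  rw [Finset.card_eq_sum_card_fiberwise (f := cp) (t := univ) (fun x _ => mem_univ _)]
  refine Finset.sum_congr rfl fun k _ => ?_
  rw [card_subtype]
  congr 1
  ext x
  rw [mem_filter, mem_filter]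
  constructor
  · rintro ⟨h1, h2⟩
    exact ⟨h1, fun h => hF x h h1, h2⟩
  · rintro ⟨h1, -, h2⟩
    exact ⟨h1, h2⟩

lemma sum_parts (R : Finset P) (cp : P → ι) (e : P → ℕ) :
    ∑ x, e x = ∑ x ∈ R, e x +
      ∑ k, ∑ x ∈ univ.filter (fun x => x ∉ R ∧ cp x = k), e x := by
  classical
  have h1 : ∀ k, ∑ x ∈ univ.filter (fun x => x ∉ R ∧ cp x = k), e x =
      ∑ x ∈ (univ.filter (fun x => x ∉ R)).filter (fun x => cp x = k), e x := by
    intro k
    rw [Finset.filter_filter]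
  rw [Finset.sum_congr rfl (fun k _ => h1 k),
    Finset.sum_fiberwise_of_maps_to (g := cp) (fun x _ => mem_univ _)]
  have h2 : ∑ x ∈ R, e x = ∑ x ∈ univ.filter (fun x => x ∈ R), e x := by
    refine Finset.sum_congr ?_ (fun _ _ => rfl)
    ext x; simp
  rw [h2]
  exact (Finset.sum_filter_add_sum_filter_not univ (fun x => x ∈ R) e).symm

lemma sum_part (R : Finset P) (cp : P → ι) (k : ι) (e : P → ℕ) :
    ∑ x ∈ univ.filter (fun x => x ∉ R ∧ cp x = k), e x =
      ∑ x : {x // InPart R cp k x}, e x := by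
  classical
  rw [Finset.sum_subtype (univ.filter (fun x => x ∉ R ∧ cp x = k)) (p := InPart R cp k)]
  intro x
  rw [mem_filter]
  exact ⟨fun h => h.2, fun h => ⟨mem_univ _, h⟩⟩

/-- product formula over the parts, with frozen labels on `R` and given energies -/
theorem SC_parts (R : Finset P) (cp : P → ι) (g : P → ℕ) (T : (P → ℕ) → Finset P → Prop)
    (Tk : ∀ k : ι, ({x // InPart R cp k x} → ℕ) → Finset {x // InPart R cp k x} → Prop)
    (hT : ∀ e F, T e F ↔ (∀ x ∈ R, x ∉ F ∧ e x = g x) ∧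
      ∀ k, Tk k (fun x => e x) (F.subtype (InPart R cp k)))
    (M : ι → ℕ) (n : ℕ) (hn : n = ∑ x ∈ R, g x + ∑ k, M k) :
    SC (fun e F => T e F ∧
      ∀ k, ∑ x ∈ univ.filter (fun x => x ∉ R ∧ cp x = k), e x = M k) n =
      ∏ k, SC (Tk k) (M k) := by
  classical
  have h1 : ∏ k, SC (Tk k) (M k) =
      ∑ p ∈ Fintype.piFinset (fun k => cfg (Tk k) (M k)), ∏ k, (X : ℤ[X]) ^ (p k).1.card := by
    rw [Finset.prod_congr rfl (fun k _ => SC_eq_cfg (Tk k) (M k)), Finset.prod_univ_sum]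
  rw [h1, SC_eq_cfg]
  refine Finset.sum_bij (fun (x : Finset P × (P → ℕ)) _ =>
    (fun k => (x.1.subtype (InPart R cp k), fun y : {y // InPart R cp k y} => x.2 y))) ?_ ?_ ?_ ?_
  · rintro ⟨F, e⟩ hx
    rw [mem_cfg] at hx
    obtain ⟨hs, hT1, hM⟩ := hx
    rw [Fintype.mem_piFinset]
    intro k
    rw [mem_cfg]
    refine ⟨?_, ((hT e F).mp hT1).2 k⟩
    rw [← hM k, sum_part]
  · rintro ⟨F, e⟩ hx ⟨F', e'⟩ hx' h
    rw [mem_cfg] at hx hx'
    obtain ⟨-, hT1, -⟩ := hx
    obtain ⟨-, hT1', -⟩ := hx'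
    have h2 := ((hT e F).mp hT1).1
    have h2' := ((hT e' F').mp hT1').1
    have h3 : ∀ x, x ∉ R → (x ∈ F ↔ x ∈ F') ∧ e x = e' x := by
      intro x hx
      have h4 := congrFun h (cp x)
      simp only [Prod.mk.injEq] at h4
      have h5 : InPart R cp (cp x) x := ⟨hx, rfl⟩
      refine ⟨?_, congrFun h4.2 ⟨x, h5⟩⟩
      have h6 : (⟨x, h5⟩ : {y // InPart R cp (cp x) y}) ∈ F.subtype (InPart R cp (cp x)) ↔
          (⟨x, h5⟩ : {y // InPart R cp (cp x) y}) ∈ F'.subtype (InPart R cp (cp x)) := by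
        rw [h4.1]
      rwa [mem_subtype, mem_subtype] at h6
    refine Prod.ext ?_ ?_
    · ext x
      by_cases hx : x ∈ R
      · exact ⟨fun h => absurd h (h2 x hx).1, fun h => absurd h (h2' x hx).1⟩
      · exact (h3 x hx).1
    · funext x
      by_cases hx : x ∈ R
      · exact ((h2 x hx).2).trans ((h2' x hx).2).symm
      · exact (h3 x hx).2
  · intro p hp
    rw [Fintype.mem_piFinset] at hp
    let F : Finset P := univ.filter (fun x => ∃ h : x ∉ R,
      (⟨x, h, rfl⟩ : {y // InPart R cp (cp x) y}) ∈ (p (cp x)).1)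
    let e : P → ℕ := fun x => if h : x ∈ R then g x else
      (p (cp x)).2 (⟨x, h, rfl⟩ : {y // InPart R cp (cp x) y})
    have hF : ∀ k, F.subtype (InPart R cp k) = (p k).1 := by
      intro k
      ext ⟨x, hx, hk⟩
      subst hk
      rw [mem_subtype]
      simp only [F, mem_filter, mem_univ, true_and]
      exact ⟨fun h => h.2, fun h => ⟨hx, h⟩⟩
    have he : ∀ k, (fun y : {y // InPart R cp k y} => e y) = (p k).2 := by
      intro k
      funext ⟨x, hx, hk⟩
      subst hk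
      simp only [e]
      rw [dif_neg hx]
    refine ⟨(F, e), ?_, ?_⟩
    · rw [mem_cfg]
      have hM : ∀ k, ∑ x ∈ univ.filter (fun x => x ∉ R ∧ cp x = k), e x = M k := by
        intro k
        rw [sum_part]
        have h2 := (mem_cfg.mp (hp k)).1
        rw [← h2, ← he k]
      refine ⟨?_, (hT e F).mpr ⟨?_, ?_⟩, hM⟩
      · simp only
        rw [sum_parts R cp e, Finset.sum_congr rfl (fun k _ => hM k), hn]
        congr 1
        refine Finset.sum_congr rfl fun x hx => ?_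
        simp only [e]
        rw [dif_pos hx]
      · intro x hx
        refine ⟨?_, ?_⟩
        · simp only [F, mem_filter, mem_univ, true_and]
          rintro ⟨h, -⟩
          exact h hx
        · simp only [e]
          rw [dif_pos hx]
      · intro k
        rw [he k, hF k]
        exact (mem_cfg.mp (hp k)).2
    · funext k
      simp only
      rw [hF k, he k]
  · rintro ⟨F, e⟩ hx
    rw [mem_cfg] at hx
    obtain ⟨-, hT1, -⟩ := hx
    have h2 := ((hT e F).mp hT1).1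
    simp only
    rw [Finset.prod_pow_eq_pow_sum, ← card_parts cp (fun x hx => (h2 x hx).1)]

end Parts

section Main

variable {P : Type u} [Fintype P] [PartialOrder P] [DecidableEq P]
variable {ι : Type*} [Fintype ι] [DecidableEq ι]

open Classical in
/-- validity with frozen labels on `R`, part by part -/
theorem vd_parts_iff {i : ℕ} {R : Finset P} (hR : ∀ x y, x ≤ y → y ∈ R → x ∈ R)
    (hRlev : ∀ x ∈ R, i < lev x) (cp : P → ι) (hcp : ∀ x y, x ≤ y → x ∉ R → cp x = cp y)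
    (g : P → ℕ) (hg : ∀ x ∈ R, ∀ y ∈ R, x ≤ y → g x ≤ g y) (e : P → ℕ) (F : Finset P) :
    (Vd i e F ∧ ∀ x ∈ R, x ∉ F ∧ e x = g x) ↔ (∀ x ∈ R, x ∉ F ∧ e x = g x) ∧
      ∀ k, Cst (P := {x : P // InPart R cp k x}) i ∅ 0
        (fun x => (R.filter (fun z => z ⋖ (x : P))).sup g) (fun x => e x)
        (F.subtype (InPart R cp k)) := by
  classical
  have hup : ∀ k, ∀ x y : P, x ≤ y → InPart R cp k x → InPart R cp k y := by
    rintro k x y hxy ⟨h1, h2⟩
    exact ⟨fun h => h1 (hR x y hxy h), (hcp x y hxy h1).symm.trans h2⟩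
  have hl : ∀ k, ∀ x : {x : P // InPart R cp k x}, lev x = lev (x : P) :=
    fun k => lev_subtype (p := InPart R cp k) (hup k)
  have hr : ∀ k, ∀ x : {x : P // InPart R cp k x},
      rho i (fun y : {x : P // InPart R cp k x} => e y) x = rho i e (x : P) := by
    intro k x
    unfold rho
    rw [hl k]
  have hm : ∀ k, ∀ x : {x : P // InPart R cp k x},
      x ∈ F.subtype (InPart R cp k) ↔ (x : P) ∈ F := fun k x => mem_subtype
  constructor
  · rintro ⟨⟨h1, h2, h3, h4⟩, h5⟩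
    refine ⟨h5, fun k => ?_⟩
    rw [cst_empty_iff]
    refine ⟨⟨?_, ?_, ?_, ?_⟩, ?_⟩
    · intro x y hxy hx
      rw [hm] at hx ⊢
      exact h1 x y hxy hx
    · intro x hx
      rw [hm] at hx
      rw [hr]
      exact h2 x hx
    · intro x y hxy hx hy
      rw [hm] at hx hy
      rw [hr, hr]
      exact h3 x y hxy hx hy
    · intro x y hxy hx hy
      rw [hm] at hx hy
      rw [hr, hr]
      exact h4 x y hxy hx hy
    · intro x hx
      rw [hm] at hx
      rw [hr]
      have h0 := h2 x hx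
      have h6 : (R.filter (fun z => z ⋖ (x : P))).sup g ≤ (rho i e (x : P)).toNat := by
        refine Finset.sup_le fun z hz => ?_
        rw [mem_filter] at hz
        have h7 := h3 z x hz.2.le (h5 z hz.1).1 hx
        rw [rho_of_lt (hRlev z hz.1), (h5 z hz.1).2] at h7
        omega
      omega
  · rintro ⟨h5, h6⟩
    have h7 : ∀ k, _ := fun k => cst_empty_iff.mp (h6 k)
    refine ⟨⟨?_, ?_, ?_, ?_⟩, h5⟩
    · intro x y hxy hx
      have hxR : x ∉ R := fun h => (h5 x h).1 hx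
      have hp : InPart R cp (cp x) x := ⟨hxR, rfl⟩
      exact (hm _ ⟨y, hup _ x y hxy hp⟩).mp ((h7 (cp x)).1.1 ⟨x, hp⟩ _ hxy ((hm _ _).mpr hx))
    · intro x hx
      by_cases hxR : x ∈ R
      · rw [rho_of_lt (hRlev x hxR)]
        exact Int.natCast_nonneg _
      · have hp : InPart R cp (cp x) x := ⟨hxR, rfl⟩
        rw [← hr _ ⟨x, hp⟩]
        exact (h7 (cp x)).1.2.1 _ (fun h => hx ((hm _ _).mp h))
    · intro x y hxy hx hy
      by_cases hxR : x ∈ R
      · by_cases hyR : y ∈ R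
        · rw [rho_of_lt (hRlev x hxR), rho_of_lt (hRlev y hyR), (h5 x hxR).2, (h5 y hyR).2]
          exact_mod_cast hg x hxR y hyR hxy
        · obtain ⟨y', x', h8, h9, h10, h11, h12⟩ := exists_exit hxR hyR hxy
          have hp : InPart R cp (cp x') x' := ⟨h11, rfl⟩
          have hq : InPart R cp (cp x') y := hup _ x' y h12 hp
          have hx'F : x' ∉ F := fun h => hy
            ((hm _ ⟨y, hq⟩).mp ((h7 (cp x')).1.1 ⟨x', hp⟩ _ h12 ((hm _ _).mpr h)))
          have h13 := (h7 (cp x')).1.2.2.1 ⟨x', hp⟩ ⟨y, hq⟩ h12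
            (fun h => hx'F ((hm _ _).mp h)) (fun h => hy ((hm _ _).mp h))
          rw [hr, hr] at h13
          have h14 := (h7 (cp x')).2 ⟨x', hp⟩ (fun h => hx'F ((hm _ _).mp h))
          rw [hr] at h14
          have h15 : g y' ≤ (R.filter (fun z => z ⋖ x')).sup g :=
            Finset.le_sup (f := g) (mem_filter.mpr ⟨h9, h10⟩)
          have h16 := hg x hxR y' h9 h8
          have h17 : (((R.filter (fun z => z ⋖ x')).sup g : ℕ) : ℤ) ≤ rho i e x' := h14
          rw [rho_of_lt (hRlev x hxR), (h5 x hxR).2]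
          have h18 : rho i e x' ≤ rho i e y := h13
          have h19 : ((g x : ℕ) : ℤ) ≤ (((R.filter (fun z => z ⋖ x')).sup g : ℕ) : ℤ) := by
            exact_mod_cast h16.trans h15
          exact h19.trans (h17.trans h18)
      · have hp : InPart R cp (cp x) x := ⟨hxR, rfl⟩
        have h13 := (h7 (cp x)).1.2.2.1 ⟨x, hp⟩ ⟨y, hup _ x y hxy hp⟩ hxy
          (fun h => hx ((hm _ _).mp h)) (fun h => hy ((hm _ _).mp h))
        rwa [hr, hr] at h13
    · intro x y hxy hx hy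
      have hxR : x ∉ R := fun h => (h5 x h).1 hx
      have hp : InPart R cp (cp x) x := ⟨hxR, rfl⟩
      have h13 := (h7 (cp x)).1.2.2.2 ⟨x, hp⟩ ⟨y, hup _ x y hxy.le hp⟩ hxy
        ((hm _ _).mpr hx) ((hm _ _).mpr hy)
      rwa [hr, hr] at h13

/-- **Products over the components with their energies.** -/
theorem pg {i n : ℕ} {R : Finset P}
    (hR : ∀ x y, x ≤ y → y ∈ R → x ∈ R) (hRlev : ∀ x ∈ R, i < lev x) (cp : P → ι)
    (hcp : ∀ x y, x ≤ y → x ∉ R → cp x = cp y) (b : ι → ℕ)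
    (G : ι → (P → ℕ) → ℕ → Prop)
    (hG : ∀ k B B', (∀ x, x ∉ R → cp x = k → B x = B' x) → ∀ m, G k B m ↔ G k B' m)
    (hfac : ∀ k B m, m ≤ n → G k B m → (1 + X : ℤ[X]) ^ (b k) ∣
      ZB (P := {x : P // x ∉ R ∧ cp x = k}) i ∅ 0 (fun x => B x) m) :
    (1 + X : ℤ[X]) ^ (∑ k, b k) ∣ ZQ i n (fun e F => (∀ z ∈ R, z ∉ F) ∧
      ∀ k, G k (fun x => (by classical exact (R.filter (fun z => z ⋖ x)).sup e))
        (∑ x ∈ univ.filter (fun x => x ∉ R ∧ cp x = k), e x)) := by
  classical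
  set Q : (P → ℕ) → Finset P → Prop := fun e F => Vd i e F ∧ ((∀ z ∈ R, z ∉ F) ∧
      ∀ k, G k (fun x => (R.filter (fun z => z ⋖ x)).sup e)
        (∑ x ∈ univ.filter (fun x => x ∉ R ∧ cp x = k), e x)) with hQ
  have h0 : ZQ i n (fun e F => (∀ z ∈ R, z ∉ F) ∧
      ∀ k, G k (fun x => (by classical exact (R.filter (fun z => z ⋖ x)).sup e))
        (∑ x ∈ univ.filter (fun x => x ∉ R ∧ cp x = k), e x)) = SC Q n := by
    unfold ZQ SC
    refine Finset.sum_congr rfl fun F _ => ?_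
    refine Finset.sum_congr ?_ (fun _ _ => rfl)
    ext e
    simp only [mem_filter, hQ]
  rw [h0, SC_eq_cfg]
  -- the fibres
  let φ : Finset P × (P → ℕ) → (P → ℕ) × (ι → ℕ) := fun x => (lbl R x.2,
    fun k => ∑ y ∈ univ.filter (fun y => y ∉ R ∧ cp y = k), x.2 y)
  let s : Finset ((P → ℕ) × (ι → ℕ)) := (cfg Q n).image φ
  have h1 : ∑ x ∈ cfg Q n, (X : ℤ[X]) ^ x.1.card =
      ∑ y ∈ s, ∑ x ∈ (cfg Q n).filter (fun x => φ x = y), (X : ℤ[X]) ^ x.1.card :=
    (Finset.sum_fiberwise_of_maps_to (fun x hx => mem_image_of_mem φ hx) _).symm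
  rw [h1]
  refine Finset.dvd_sum fun y hy => ?_
  obtain ⟨⟨F0, e0⟩, hx0, hφ0⟩ := mem_image.mp hy
  rw [mem_cfg] at hx0
  obtain ⟨hs0, hV0, hF0, hG0⟩ := hx0
  simp only at hs0 hV0 hF0 hG0
  obtain ⟨g, M⟩ := y
  have hg0 : lbl R e0 = g := congrArg Prod.fst hφ0
  have hM0 : ∀ k, ∑ y ∈ univ.filter (fun y => y ∉ R ∧ cp y = k), e0 y = M k :=
    fun k => congrFun (congrArg Prod.snd hφ0) k
  have hgR : ∀ x ∈ R, e0 x = g x := by
    intro x hx
    rw [← hg0, lbl_of hx]
  have hsup : ∀ (e : P → ℕ), (∀ x ∈ R, e x = g x) → ∀ x,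
      (R.filter (fun z => z ⋖ x)).sup e = (R.filter (fun z => z ⋖ x)).sup g := by
    intro e he x
    refine Finset.sup_congr rfl fun z hz => ?_
    exact he z (mem_filter.mp hz).1
  have hmono : ∀ x ∈ R, ∀ y ∈ R, x ≤ y → g x ≤ g y := by
    intro x hx y hy hxy
    have h2 := hV0.2.2.1 x y hxy (hF0 x hx) (hF0 y hy)
    rw [rho_of_lt (hRlev x hx), rho_of_lt (hRlev y hy), hgR x hx, hgR y hy] at h2
    exact_mod_cast h2
  have hn : n = ∑ x ∈ R, g x + ∑ k, M k := by
    rw [← hs0, sum_parts R cp e0, Finset.sum_congr rfl hgR,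
      Finset.sum_congr rfl (fun k _ => hM0 k)]
  have hGk : ∀ k, G k (fun x => (R.filter (fun z => z ⋖ x)).sup g) (M k) := by
    intro k
    have h2 := hG0 k
    rw [hM0 k] at h2
    refine (hG k _ _ ?_ _).mp h2
    intro x _ _
    exact hsup e0 hgR x
  have h2 : ∑ x ∈ (cfg Q n).filter (fun x => φ x = (g, M)), (X : ℤ[X]) ^ x.1.card =
      SC (fun e F => (Vd i e F ∧ ∀ x ∈ R, x ∉ F ∧ e x = g x) ∧
        ∀ k, ∑ x ∈ univ.filter (fun x => x ∉ R ∧ cp x = k), e x = M k) n := by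
    rw [SC_eq_cfg]
    refine Finset.sum_congr ?_ (fun _ _ => rfl)
    ext ⟨F, e⟩
    rw [mem_filter, mem_cfg, mem_cfg]
    simp only [φ, Prod.mk.injEq, hQ]
    constructor
    · rintro ⟨⟨a1, a2, a3, a4⟩, a5, a6⟩
      refine ⟨a1, ⟨a2, fun x hx => ⟨a3 x hx, ?_⟩⟩, fun k => congrFun a6 k⟩
      rw [← a5, lbl_of hx]
    · rintro ⟨a1, ⟨a2, a3⟩, a4⟩
      refine ⟨⟨a1, a2, fun x hx => (a3 x hx).1, fun k => ?_⟩, ?_, funext fun k => a4 k⟩
      · rw [a4 k]
        refine (hG k _ _ ?_ _).mpr (hGk k)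
        intro x _ _
        exact hsup e (fun x hx => (a3 x hx).2) x
      · funext x
        by_cases hx : x ∈ R
        · rw [lbl_of hx]; exact (a3 x hx).2
        · rw [lbl_off hx, ← hg0, lbl_off hx]
  rw [h2, SC_parts R cp g (fun e F => Vd i e F ∧ ∀ x ∈ R, x ∉ F ∧ e x = g x)
    (fun k => Cst (P := {x : P // InPart R cp k x}) i ∅ 0
        (fun x => (R.filter (fun z => z ⋖ (x : P))).sup g))
    (fun e F => vd_parts_iff hR hRlev cp hcp g hmono e F) M n hn]
  rw [← Finset.prod_pow_eq_pow_sum]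
  refine Finset.prod_dvd_prod_of_dvd _ _ fun k _ => ?_
  have hMn : M k ≤ n := by
    rw [hn]
    exact le_trans (Finset.single_le_sum (fun _ _ => Nat.zero_le _) (mem_univ k))
      (Nat.le_add_left _ _)
  have h3 := hfac k (fun x => (R.filter (fun z => z ⋖ x)).sup g) (M k) hMn (hGk k)
  have h4 : ZB (P := {x : P // x ∉ R ∧ cp x = k}) i ∅ 0
      (fun x => (R.filter (fun z => z ⋖ (x : P))).sup g) (M k) =
      SC (Cst (P := {x : P // InPart R cp k x}) i ∅ 0
        (fun x => (R.filter (fun z => z ⋖ (x : P))).sup g)) (M k) := by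
    rw [ZB_eq_SC]
    rfl
  rw [← h4]
  exact h3

end Main

end Pool.Agent.GaussPoset
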