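import Pool.Agent.W_448pg_h74.WrA
import Pool.Agent.W_448s7s_h5.SlC

/-!
# Window `3` with the cells `(2, j - 1)` exempt: the cells (MP_448cb3_co, S7)
-/

namespace Pool.Agent.GaussPoset.Wr

set_option linter.unusedSectionVars false

open Polynomial Finset Sm

universe u

variable {P : Type u} [Fintype P] [PartialOrder P] [DecidableEq P] {r j K0 K1 : ℕ}
  {N : Tops P → Finset P} {b : Tops P → ℕ} {θ : Tops P → P → ℕ}

/-- the cells `(2, j - 1)` of level `j + 1` at the window `3`: `e = 1` for the rectangles,
`e = 0` for the stairs -/
structure Xp (j : ℕ) (θ : Tops P → P → ℕ) (e : ℕ) (x : P) : Prop where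
  lv : lev x = j + 1
  th : θ (topOf x) x + 1 = j - 3
  nw : nab 3 x = e + 2
  nk : ∀ k, 3 < k → k < j → nab k x = 3
  nj : nab j x = 2
  nopen : ∀ q, x ⋖ q → ∀ z, z ⋖ q → ¬ ∀ y, z ⋖ y → y = q

/-- cost of a pendant below an exempt cell -/
def TX (j : ℕ) : ℕ := ∑ n ∈ range (j - 3), n * 3 + 4 * (j - 3)

lemma Xp.cst {θ : Tops P → P → ℕ} {e : ℕ} {x : P} (H : Xp j θ e x) (hj : 5 ≤ j) :
    cst 3 (fun _ => θ (topOf x) x + 1) x + (θ (topOf x) x + 1) = TX j := by
  obtain ⟨m, rfl⟩ : ∃ m, j = m + 3 := ⟨j - 3, by omega⟩
  have h1 := H.th
  have h2 := H.lv
  rw [h1, cst_shift (i := 3) (a := m + 1) (by omega), Finset.sum_range_succ,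
    Finset.sum_range_succ]
  have e1 : nab (3 + (m + 1)) x = 1 := by
    rw [show 3 + (m + 1) = lev x by omega]
    exact nab_self
  have e2 : nab (3 + m) x = 2 := by
    rw [show 3 + m = m + 3 by omega]
    exact H.nj
  have e3 : ∑ n ∈ range m, min (m + 3 - 3) n * nab (3 + n) x = ∑ n ∈ range m, n * 3 := by
    refine Finset.sum_congr rfl fun n hn => ?_
    rw [mem_range] at hn
    rw [Nat.min_eq_right (by omega)]
    rcases Nat.eq_zero_or_pos n with h0 | h0
    · subst h0; simp
    · rw [H.nk _ (by omega) (by omega)]
  rw [e1, e2, e3]
  unfold TX
  rw [Nat.add_sub_cancel, Nat.min_self, Nat.min_eq_left (by omega)]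
  ring

/-- the checks: the only deep cells of cost at most `K1 + 1` are the cells `(2, j - 1)` -/
structure NX (j K1 : ℕ) : Prop where
  hj : 9 ≤ j
  k1 : ∀ a ∈ Finset.Icc 3 ((j + 1) / 2), K1 + 1 < stC 3 (j + 1) a
  k2 : ∀ a ∈ Finset.Icc 3 (j - 2), K1 + 1 < reC 3 (j + 1) a
  k3 : ∀ a ∈ Finset.Icc 2 ((j + 1 + 1) / 2), K1 + 1 < stC 3 (j + 1 + 1) a
  k4 : ∀ a ∈ Finset.Icc 2 (j + 1 - 1), K1 + 1 < reC 3 (j + 1 + 1) a
  k5 : 2 * K1 < 3 * (j + 1 - 3) ^ 2 + 3 * (j + 1 - 3)
  k6 : K1 < TX j + 2 * (j - 3)

theorem nx16 : NX 16 (14 ^ 2 + 95) := by
  constructor <;> decide +kernel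

/-- deep cells -/
structure Dx (j K1 : ℕ) (θ : Tops P → P → ℕ) (x : P) : Prop where
  th : θ (topOf x) x + 2 ≤ lev x - 3
  th3 : lev x - 3 ≤ θ (topOf x) x + 3
  mono : ∀ y, x < y → θ (topOf y) y ≤ θ (topOf x) x + 1
  alt : j + 1 ≤ lev x → K1 + 1 < cst 3 (fun _ => θ (topOf x) x + 1) x +
    (θ (topOf x) x + 1) ∨ ∃ e ≤ 1, Xp j θ e x

/-- the kinds of natural elements of level at least `j` -/
theorem casesX (W : Wk r j 3 K0 N b θ) (n : NX j K1) {x : P} (hx : x ∉ unnat N)
    (hlx : j ≤ lev x) : Str 3 N θ x ∨ Row1 j 3 N θ x ∨ Dx j K1 θ x := by
  have H := W.gt.H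
  have HN := W.natSys
  have hxt : x ∈ N (topOf x) := HN.mem_iff.mpr ⟨hx, rfl⟩
  have hj := W.hj
  have hw := W.hw
  have hT := W.typ (topOf x)
  generalize ht : topOf x = t at hxt hT
  rcases hT with ⟨h1, h2, h3, h5⟩ | ⟨Nc, co, h0, h1, h2, h4⟩ |
    ⟨Nc, co, h0, h1, h2, h3, h4, h5'⟩
  · left
    refine ⟨by rw [ht, h2], ?_⟩
    intro z hz h
    have h7 : z ∉ onlyB t := by
      rw [← h1]
      exact mem_unnat.mp hz t
    rw [mem_onlyB] at h7
    push Not at h7
    obtain ⟨s, hs1, hs2, hs3⟩ := h7
    have h7 := W.lt_lev hz
    have h8 : z < s := lt_of_le_of_ne hs2 (by rintro rfl; omega)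
    exact hs3 (HN.top_eq hxt hs1 ((h s).mpr h8).le)
  · have e1 := h0.b_two
    have e2 := h0.b_le
    have hxN' : x ∈ natR Nc co := by rw [← h1]; exact hxt
    by_cases hJ : x ∈ junk (fun _ => True) Nc co ∨ x ∈ junk (fun _ => True) Nc (swp co)
    · left
      refine ⟨?_, ?_⟩
      · rw [ht, h2]
        unfold thR
        rw [if_pos hJ]
      · intro z hz h
        refine mem_unnat.mp hz t ?_
        rw [h1, mem_natR]
        rcases hJ with h' | h'
        · exact Or.inr (Or.inl (junk_twin h' h))
        · exact Or.inr (Or.inr (junk_twin h' h))
    · have hxN : x ∈ Nc := by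
        rw [mem_natR] at hxN'
        rcases hxN' with h | h | h
        · exact h
        · exact absurd (Or.inl h) hJ
        · exact absurd (Or.inr h) hJ
      have hl := h0.chart.lev x hxN
      have hth := rect_th7 h0 hw hxN hJ (by omega)
      -- thresholds above `x`
      have hmono : 1 ≤ (co x).1 → 1 ≤ (co x).2 → ∀ y, x < y → θ (topOf y) y ≤ θ t x + 1 := by
        intro g1 g2 y hxy
        have hy := h0.chart.up x hxN y hxy.le
        have hyt : topOf y = t := by
          have := (W.up hx hxy.le).2
          rw [this, ht]
        have hy1 := not_junk_above h0.chart hxN g1 hxy.le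
        have hy2 := not_junk_above h0.chart.swap hxN g2 hxy.le
        have hle := (h0.chart.le_iff x hxN y hy).mp hxy.le
        have hle1 : (co y).1 ≤ (co x).1 := hle.1
        have hle2 : (co y).2 ≤ (co x).2 := hle.2
        rw [hyt, h2]
        unfold thR
        rw [if_neg (by rintro (h | h); exacts [hy1 h, hy2 h]), if_neg hJ]
        omega
      by_cases h7 : (co x).1 = 0 ∨ (co x).2 = 0
      · left
        refine ⟨?_, ?_⟩
        · rw [ht, h2]
          omega
        · intro z hz h
          rcases h7 with h7 | h7
          · obtain ⟨u, hu, hcu⟩ := h0.chart.low x hxN (0, (co x).2 - 1)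
              ⟨Nat.zero_le _, Nat.sub_le _ _⟩ trivial
            refine straight_twin H h0 h1 hxN hu ?_ ?_ ?_ hz h
            · rw [hcu]
              exact Or.inr ⟨by simp only; omega, by simp only; omega⟩
            · intro y hy hp
              rw [hcu]
              rcases hp with hp | hp
              · omega
              · exact Prod.ext (by simp only; omega) (by simp only; omega)
            · rw [hcu]
              exact Or.inl rfl
          · obtain ⟨u, hu, hcu⟩ := h0.chart.low x hxN ((co x).1 - 1, 0)
              ⟨Nat.sub_le _ _, Nat.zero_le _⟩ trivial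
            refine straight_twin H h0 h1 hxN hu ?_ ?_ ?_ hz h
            · rw [hcu]
              exact Or.inl ⟨by simp only; omega, by simp only; omega⟩
            · intro y hy hp
              rw [hcu]
              rcases hp with hp | hp
              · exact Prod.ext (by simp only; omega) (by simp only; omega)
              · omega
            · rw [hcu]
              exact Or.inr rfl
      · by_cases h8 : (co x).1 = 1 ∨ (co x).2 = 1
        · right; left
          refine ⟨by omega, chart_inner_uc h0.chart H hxN (by omega) (by omega), ?_, ?_, ?_, ?_⟩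
          · intro hlx z hz
            exact h4 x z (h0.chart.le_t x hxN) hlx
              (chart_inner_uc h0.chart H hxN (by omega) (by omega)) hz
          · rw [ht, h2]; omega
          · intro k hk hkx
            have := rect_nab h0.chart hxN (k := k) (by omega)
            omega
          · rw [ht]
            exact hmono (by omega) (by omega)
        · right; right
          refine ⟨?_, ?_, ?_, ?_⟩
          · rw [ht, h2]; omega
          · rw [ht, h2]; omega
          · rw [ht]
            exact hmono (by omega) (by omega)
          · intro hlj
            rw [ht, h2]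
            rcases Nat.lt_or_ge (j + 1) (lev x) with hgt | hle
            · left
              exact rdeep_of (j := j + 1) (by omega) (by omega) n.k4 h0.chart hxN (by omega)
                (by omega) (by omega) (by omega)
            · have hlx1 : lev x = j + 1 := by omega
              by_cases ha : 3 ≤ (co x).1 ∧ (co x).1 ≤ j - 2
              · left
                have h6 := n.k2 (co x).1 (by rw [Finset.mem_Icc]; exact ha)
                have h7 := cst_rect (w := 3) (h := thR 3 (b t) Nc co x + 1) h0.chart hxN hlx1
                  (by omega)
                unfold reC at h6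
                rw [h7, show thR 3 (b t) Nc co x + 1 =
                  j + 1 - 3 + 1 - min (min (co x).1 (j + 1 - (co x).1)) 3 by omega]
                exact h6
              · right
                refine ⟨1, le_rfl, hlx1, ?_, ?_, ?_, ?_, ?_⟩
                · rw [ht, h2]; omega
                · have := rect_nab h0.chart hxN (k := 3) (by omega)
                  omega
                · intro k hk1 hk2
                  have := rect_nab h0.chart hxN (k := k) (by omega)
                  omega
                · have := rect_nab h0.chart hxN (k := j) (by omega)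
                  omega
                · intro q hq z hzq ho
                  have hqN := h0.chart.up x hxN q hq.1.le
                  have hlq := (H.covBy_iff.mp hq).2
                  have hcq := (chart_cov h0.chart H hxN hqN).mp hq
                  unfold Prd at hcq
                  exact h4 q z (h0.chart.le_t q hqN) (by omega)
                    (chart_inner_uc h0.chart H hqN (by omega) (by omega)) hzq ho
  · have hxN' : x ∈ natS Nc co := by rw [← h1]; exact hxt
    by_cases hJ : x ∈ junk (fun c => c.1 ≤ c.2) Nc co
    · left
      refine ⟨?_, ?_⟩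
      · rw [ht, h2]
        unfold thS
        rw [if_pos hJ]
      · intro z hz h
        refine mem_unnat.mp hz t ?_
        rw [h1, mem_natS]
        exact Or.inr (junk_twin hJ h)
    · have hxN : x ∈ Nc := by
        rw [mem_natS] at hxN'
        rcases hxN' with h | h
        · exact h
        · exact absurd h hJ
      have hl := h0.chart.lev x hxN
      have hm : (co x).1 ≤ (co x).2 := h0.chart.mem x hxN
      have hth := stair_th7 h0 hw h4 hxN hJ (by omega)
      have hmono : 1 ≤ (co x).1 → ∀ y, x < y → θ (topOf y) y ≤ θ t x + 1 := by
        intro g1 y hxy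
        have hy := h0.chart.up x hxN y hxy.le
        have hyt : topOf y = t := by
          have := (W.up hx hxy.le).2
          rw [this, ht]
        have hy1 := not_junk_above h0.chart hxN g1 hxy.le
        have hle := (h0.chart.le_iff x hxN y hy).mp hxy.le
        have hle1 : (co y).1 ≤ (co x).1 := hle.1
        have hle2 : (co y).2 ≤ (co x).2 := hle.2
        rw [hyt, h2]
        unfold thS
        rw [if_neg hy1, if_neg hJ]
        omega
      rcases Nat.lt_or_ge (co x).1 1 with h7 | h7
      · left
        refine ⟨?_, ?_⟩
        · rw [ht, h2]
          omega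
        · intro z hz h
          obtain ⟨u, hu, hcu⟩ := h0.chart.low x hxN (0, (co x).2 - 1)
            ⟨Nat.zero_le _, Nat.sub_le _ _⟩ (Nat.zero_le _)
          have g1 : x ⋖ u := by
            rw [chart_cov h0.chart H hxN hu, hcu]
            exact Or.inr ⟨by simp only; omega, by simp only; omega⟩
          have g2 : z ⋖ u := (cov_of_up h).mp g1
          have g3 := stair_pendant H h0 (by omega) h1 hz (x := u)
            (by rw [h1]; exact mem_natS.mpr (Or.inl hu)) g2 (by
            intro y hy
            have hy1 : x ⋖ y := (cov_of_up h).mpr hy
            have hyN := h0.chart.up x hxN y hy1.le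
            refine h0.chart.inj y hyN u hu ?_
            rw [hcu]
            rcases (chart_cov h0.chart H hxN hyN).mp hy1 with hp | hp
            · omega
            · exact Prod.ext (by simp only; omega) (by simp only; omega))
          have g4 := g3.2.2
          rw [hcu] at g4
          simp only at g4
          omega
      · rcases Nat.lt_or_ge (co x).1 2 with h8 | h8
        · right; left
          have hd := stair_inner_uc h0.chart H hxN h7 (by omega)
          refine ⟨by omega, hd, ?_, ?_, ?_, ?_⟩
          · intro hlx z hz hon
            have := h5' x z (h0.chart.le_t x hxN) hlx hd hz hon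
            omega
          · rw [ht, h2]; omega
          · intro k hk hkx
            have := stair_nab h0.chart hxN (k := k) (by omega)
            omega
          · rw [ht]
            exact hmono h7
        · right; right
          refine ⟨?_, ?_, ?_, ?_⟩
          · rw [ht, h2]; omega
          · rw [ht, h2]; omega
          · rw [ht]
            exact hmono h7
          · intro hlj
            rw [ht, h2]
            rcases Nat.lt_or_ge (j + 1) (lev x) with hgt | hle
            · left
              exact sdeep_of (j := j + 1) (by omega) (by omega) n.k3 h0.chart hxN h8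
                (by omega) (by omega)
            · have hlx1 : lev x = j + 1 := by omega
              by_cases ha : 3 ≤ (co x).1
              · left
                have h6 := n.k1 (co x).1 (by rw [Finset.mem_Icc]; omega)
                have h7 := cst_stair (w := 3) (h := thS 3 Nc co x + 1) h0.chart hxN hlx1
                  (by omega)
                unfold stC at h6
                rw [h7, show thS 3 Nc co x + 1 = j + 1 - 3 - 1 by omega]
                exact h6
              · right
                refine ⟨0, by omega, hlx1, ?_, ?_, ?_, ?_, ?_⟩
                · rw [ht, h2]; omega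
                · have := stair_nab h0.chart hxN (k := 3) (by omega)
                  omega
                · intro k hk1 hk2
                  have := stair_nab h0.chart hxN (k := k) (by omega)
                  omega
                · have := stair_nab h0.chart hxN (k := j) (by omega)
                  omega
                · intro q hq z hzq ho
                  have hqN := h0.chart.up x hxN q hq.1.le
                  have hmq : (co q).1 ≤ (co q).2 := h0.chart.mem q hqN
                  have hlq := (H.covBy_iff.mp hq).2
                  have hcq := (chart_cov h0.chart H hxN hqN).mp hq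
                  unfold Prd at hcq
                  have := h5' q z (h0.chart.le_t q hqN) (by omega)
                    (stair_inner_uc h0.chart H hqN (by omega) (by omega)) hzq ho
                  omega

end Pool.Agent.GaussPoset.Wr
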