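import Pool.Agent.W_448pg_h74.WrB

/-!
# Window `3` with the cells `(2, j - 1)` exempt: the outcomes for a larger cap (MP_448cb3_co, S7)

The lemmas of `W_448s7s_h5` (`Wk.row1_out`, `Wk.own_out`, `Wk.cross_out`, `Wk.deep_j`) with the cap
of the outcome independent of the cap of the structure `Wk`.
-/

namespace Pool.Agent.GaussPoset.Wr

set_option linter.unusedSectionVars false

open Polynomial Finset Sm

universe u

variable {P : Type u} [Fintype P] [PartialOrder P] [DecidableEq P] {r j w K0 K1 : ℕ}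
  {N : Tops P → Finset P} {b : Tops P → ℕ} {θ : Tops P → P → ℕ} {XE XO : ℕ → Prop}

/-- a flat cheapest element below a cell of row `1` -/
theorem row1_outX (W : Wk r j w K0 N b θ)
    (hK : 2 * K1 < 3 * (j + 1 - w) ^ 2 + 3 * (j + 1 - w)) {v : ℕ} {z : P} (hz : z ∈ bdR (rA N))
    (hc : cst w (hA N θ) z = v) (hF : Flat j w N θ z) (hge : lev z ≤ hA N θ z + 1 + w) {x : P}
    (hzx : z ⋖ x) (hR : Row1 j w N θ x) : OutK j w K1 XE XO (hA N θ) z v := by
  classical
  have H := W.gt.H
  have hj := W.hj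
  have hw := W.hw
  have hzR := (mem_bdR.mp hz).1
  have hlz := W.bd_lev hz
  have e1 := (H.covBy_iff.mp hzx).2
  have hx := (hF x hzx).1
  have hbs : GaussPoset.bs N x = x := by
    unfold GaussPoset.bs
    rw [if_neg (W.not_tw hx)]
  have hle := W.hA_le (not_mem_rA.mpr (Or.inl hx)) hzx
  rw [hbs] at hle
  have hRt := hR.th
  obtain ⟨a, ha⟩ : ∃ a, lev x = w + a := ⟨lev x - w, by omega⟩
  have hha : hA N θ z = a := by omega
  have h1w := hR.one_le
  by_cases honly : ∀ y, z ⋖ y → y = x
  · -- a pendant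
    have hlx : lev x ≠ j := fun h => hR.nopen h z hzx honly
    right
    refine ⟨?_, Or.inl ⟨?_, Or.inl ⟨h1w, Or.inr (Or.inl ⟨a - (j + 1 - w), Or.inl ?_⟩)⟩⟩⟩
    · rw [hha, ← ha, nab_only honly hzx (by omega), hR.nab w le_rfl (by omega),
        nab_only honly hzx (by omega), nab_self]
    · rw [nst_eq, hha, Finset.sum_congr rfl (g := fun _ => 2)]
      · rw [Finset.sum_const, card_range]
        exact ⟨a, by simp only [smul_eq_mul]; ring⟩
      · intro k hk
        rw [mem_range] at hk
        rw [nab_only honly hzx (by omega), hR.nab _ (by omega) (by omega)]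
    · rw [← hc, cst_only H.gradedBelow hzx honly, hha, cst_eq_ful (by omega),
        ful_two ha (fun k hk1 hk2 => hR.nab k hk1.le hk2)]
      rw [show j + 1 - w + (a - (j + 1 - w)) = a by omega, Nat.min_eq_left (by omega)]
      ring
  · -- a pair
    push Not at honly
    obtain ⟨x', hzx', hne'⟩ := honly
    have hne : x ≠ x' := Ne.symm hne'
    have e2 := (H.covBy_iff.mp hzx').2
    have hx' := (hF x' hzx').1
    have hlx : lev x ≠ j := by
      intro h
      have := (W.near hzR (by omega) hzx hzx' hne).1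
      have := hR.dbl
      omega
    left
    have h3 : ∀ k, 2 ≤ k → w ≤ k → k < lev x → 3 ≤ nab k z := fun k hk1 hk2 hk3 =>
      W.row1_three hzR hx hx' hzx hzx' hne hR (hF x' hzx').2 hk1 hk2 hk3
    have h4 : 2 ≤ nab (lev x) z := two_le_nab hzx.1.le hzx'.1.le rfl (by omega) hne
    have h5 : ∑ n ∈ range a, n * 3 + a * 2 + a ≤ v := by
      rw [← hc, cst_shift (a := a + 1) (by omega), Finset.sum_range_succ
        (fun n => min (hA N θ z) n * nab (w + n) z), Finset.sum_range_succ
        (fun n => min (hA N θ z) n * nab (w + n) z), hha]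
      refine Nat.add_le_add (Nat.add_le_add ?_ ?_) ?_
      · refine Finset.sum_le_sum fun n hn => ?_
        rw [mem_range] at hn
        rw [Nat.min_eq_right hn.le]
        rcases Nat.eq_zero_or_pos n with h0 | h0
        · subst h0; simp
        · exact Nat.mul_le_mul_left _ (h3 _ (by omega) (by omega) (by omega))
      · rw [Nat.min_self, ← ha]
        exact Nat.mul_le_mul_left _ h4
      · rw [show w + (a + 1) = lev z by omega, nab_self, mul_one]
        exact Nat.le_min.mpr ⟨le_rfl, by omega⟩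
    have h6 := Finset.sum_range_id_mul_two a
    rw [← Finset.sum_mul] at h5
    have h7 : (j + 1 - w) ^ 2 ≤ a ^ 2 := Nat.pow_le_pow_left (by omega) 2
    have h8 : a * (a - 1) + a = a ^ 2 := by
      obtain ⟨c, rfl⟩ : ∃ c, a = c + 1 := ⟨a - 1, by omega⟩
      rw [Nat.add_sub_cancel]
      ring
    omega

/-- straight covers below two tops -/
theorem cross_outX (W : Wk r j w K0 N b θ) (L : Unq P w b)
    (F : ∀ z x x' : P, Cg z x x' → j + 1 ≤ lev z → nab w x = 1 → ¬ Sok j x → K1 < ful w z)
    {v : ℕ} {z : P}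
    (hz : z ∈ bdR (rA N)) (hh : hA N θ z = lev z - w) (hc : cst w (hA N θ) z = v) {x x' : P}
    (hx : x ∉ unnat N) (hx' : x' ∉ unnat N) (hS : Str w N θ x) (hS' : Str w N θ x')
    (hzx : z ⋖ x) (hzx' : z ⋖ x') (htt : topOf x ≠ topOf x') :
    OutK j w K1 XE XO (hA N θ) z v := by
  classical
  have H := W.gt.H
  have HN := W.natSys
  have hj := W.hj
  have hw := W.hw
  have hlz := W.bd_lev hz
  have e1 := (H.covBy_iff.mp hzx).2
  have e2 := (H.covBy_iff.mp hzx').2
  have hxt : x ∈ N (topOf x) := HN.mem_iff.mpr ⟨hx, rfl⟩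
  have hxt' : x' ∈ N (topOf x') := HN.mem_iff.mpr ⟨hx', rfl⟩
  have n1 := W.str_nab L hx hS (by omega)
  have n2 := W.str_nab L hx' hS' (by omega)
  have hv : v = ful w z := by
    rw [← hc]
    exact cst_eq_ful (by omega)
  have C : Cg z x x' := Cg.mk' hzx hzx' (mem_onlyB.mpr fun s hs hxs => HN.top_eq hxt hs hxs)
    (mem_onlyB.mpr fun s hs hxs => HN.top_eq hxt' hs hxs) htt
  by_cases s1 : Sok j x
  · by_cases s2 : Sok j x'
    · right
      refine ⟨?_, Or.inr (Or.inr ⟨⟨x, x', C, s1, s2⟩, hv, hh⟩)⟩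
      rw [nab_join_eq HN H hxt hxt' htt hzx hzx' (by omega), n1, n2, hh,
        show w + (lev z - w) = lev z by omega, nab_self]
    · left
      rw [hv]
      exact F z x' x C.symm (by omega) n2 s2
  · left
    rw [hv]
    exact F z x x' C (by omega) n1 s1

end Pool.Agent.GaussPoset.Wr
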