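import Pool.Agent.W_448f4_h70.GQ
import Pool.Agent.W_448s7s_h5.SlC

/-!
# The windows `2`, `3`: the deep cells by a finite check (MP_448cb3_co, S7)
-/

namespace Pool.Agent.GaussPoset.Sm

set_option linter.unusedSectionVars false

open Finset Wd

universe u

variable {P : Type u} [Fintype P] [PartialOrder P] [DecidableEq P] {r j w K0 K y : ℕ}
  {N : Tops P → Finset P} {b : Tops P → ℕ} {θ : Tops P → P → ℕ} {LE LO : List ℤ}

/-- ancestors of the cell `(a, L - a)` of a stair on the level `k` -/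
def stAb (L a k : ℕ) : ℕ := min (k / 2) a + 1 - (k - (L - a))

/-- ancestors of the cell `(a, L - a)` of a rectangle on the level `k` -/
def reAb (L a k : ℕ) : ℕ := min k a + 1 - (k - (L - a))

/-- the label below the cell `(a, L - a)` of a rectangle -/
def reH (w L a : ℕ) : ℕ := L - w + 1 - min (min a (L - a)) w

/-- cost of a pendant with the label `h` from the numbers `f` of ancestors -/
def cC (w L h : ℕ) (f : ℕ → ℕ) : ℕ := ∑ n ∈ range (L - w + 1), min h n * f (w + n)

/-- the parity of a pendant with the label `h` from the numbers `f` of ancestors -/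
def nC (w h : ℕ) (f : ℕ → ℕ) : ℕ := ∑ n ∈ range h, f (w + n)

/-- an admissible value, by lists relative to `y ^ 2` -/
def OkN (y K : ℕ) (LE LO : List ℤ) (n u : ℕ) : Prop :=
  K < u ∨ (n % 2 = 0 ∧ ((u : ℤ) - (y : ℤ) ^ 2) ∈ LE) ∨ (n % 2 = 1 ∧ ((u : ℤ) - (y : ℤ) ^ 2) ∈ LO)

instance (y K : ℕ) (LE LO : List ℤ) (n u : ℕ) : Decidable (OkN y K LE LO n u) := by
  unfold OkN
  infer_instance

lemma OkN.okv {n u : ℕ} (h : OkN y K LE LO n u) : Okv K (XL y LE) (XL y LO) n u := by
  rcases h with h | h | h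
  · exact Or.inl h
  · exact Or.inr (Or.inl ⟨Nat.even_iff.mpr h.1, h.2⟩)
  · exact Or.inr (Or.inr ⟨Nat.odd_iff.mpr h.1, h.2⟩)

/-- the numbers of a cheap deep cell -/
def ChN (w L K y : ℕ) (LE LO : List ℤ) (h : ℕ) (f : ℕ → ℕ) : Prop :=
  h < L - w ∧ f w = f (w + h) + 1 ∧ OkN y K LE LO (nC w h f) (cC w L h f + h) ∧
    OkN y K LE LO (nC w h f) (cC w L h f + h - 1) ∧ K < cC w L h f + h + h

instance (w L K y : ℕ) (LE LO : List ℤ) (h : ℕ) (f : ℕ → ℕ) :
    Decidable (ChN w L K y LE LO h f) := by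
  unfold ChN
  infer_instance

/-- the numbers of a special cell -/
def SpN (j w K y : ℕ) (LE LO : List ℤ) : Prop :=
  OkN y K LE LO (nC w (j - w + 1) (stAb (j + 1) 2))
    (cC w (j + 1) (j - w + 1) (stAb (j + 1) 2) + (j - w + 1)) ∧
  OkN y K LE LO (nC w (j - w + 1) (stAb (j + 1) 2))
    (cC w (j + 1) (j - w + 1) (stAb (j + 1) 2) + (j - w)) ∧
  K < stC w (j + 1) 2 + (j - w)

instance (j w K y : ℕ) (LE LO : List ℤ) : Decidable (SpN j w K y LE LO) := by
  unfold SpN
  infer_instance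

/-- **the finite check** for the deep cells of level at least `j + 1` -/
structure NumS (j w K : ℕ) (LE LO : List ℤ) : Prop where
  s1 : ∀ a ∈ Finset.Icc 3 ((j + 1) / 2), K + 1 < stC w (j + 1) a ∨
    ChN w (j + 1) K (j + 1 - w) LE LO (j - w) (stAb (j + 1) a)
  r1 : ∀ a ∈ Finset.Icc 2 (j - 1), K + 1 < reC w (j + 1) a ∨
    ChN w (j + 1) K (j + 1 - w) LE LO (reH w (j + 1) a) (reAb (j + 1) a)
  sp : K + 1 < stC w (j + 1) 2 ∨ SpN j w K (j + 1 - w) LE LO
  s2 : ∀ a ∈ Finset.Icc 2 ((j + 1 + 1) / 2), K + 1 < stC w (j + 1 + 1) a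
  r2 : ∀ a ∈ Finset.Icc 2 (j + 1 - 1), K + 1 < reC w (j + 1 + 1) a

/-- the check which excludes the cells of row `1` -/
structure NumR (j w K0 K : ℕ) : Prop where
  low : ∀ t < 10, (j + 1 - w + t) * (j + 1 - w + t + 1) ≤ K0 + 1 ∨
    K + 1 < (j + 1 - w + t) * (j + 1 - w + t + 1)
  high : K + 1 < (j + 1 - w + 10) * (j + 1 - w + 10 + 1)

lemma NumR.all (n : NumR j w K0 K) {a : ℕ} (ha : j + 1 - w ≤ a) (h : K0 + 1 < a * (a + 1)) :
    K + 1 < a * (a + 1) := by
  rcases Nat.lt_or_ge a (j + 1 - w + 10) with h1 | h1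
  · rcases n.low (a - (j + 1 - w)) (by omega) with h2 | h2
    · rw [show j + 1 - w + (a - (j + 1 - w)) = a by omega] at h2
      omega
    · rw [show j + 1 - w + (a - (j + 1 - w)) = a by omega] at h2
      exact h2
  · exact lt_of_lt_of_le n.high (Nat.mul_le_mul h1 (by omega))

/-- the cost below a cell of row `1` -/
lemma row1_cost {x : P} (R : Row1 j w N θ x) (hw : w < lev x) :
    C1 w θ x = (lev x - w) * (lev x - w + 1) := by
  have h1 := R.th
  unfold C1
  rw [h1, cst_shift (i := w) (a := lev x - w) (by omega), Finset.sum_range_succ]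
  have e1 : nab (w + (lev x - w)) x = 1 := by
    rw [show w + (lev x - w) = lev x by omega]
    exact nab_self
  have e2 : ∑ n ∈ range (lev x - w), min (lev x - w) n * nab (w + n) x =
      ∑ n ∈ range (lev x - w), n * 2 := by
    refine Finset.sum_congr rfl fun n hn => ?_
    rw [mem_range] at hn
    rw [Nat.min_eq_right (by omega), R.nab _ (by omega) (by omega)]
  rw [e1, e2, Nat.min_self, ← Finset.sum_mul, Finset.sum_range_id_mul_two]
  obtain ⟨m, hm⟩ : ∃ m, lev x - w = m + 1 := ⟨lev x - w - 1, by omega⟩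
  rw [hm, Nat.add_sub_cancel]
  ring

section Cell

variable {x : P}

/-- a cell with the ancestors `f` and cheap numbers is cheap -/
lemma ChN.cheap {L h : ℕ} {f : ℕ → ℕ} (hC : ChN w L K y LE LO h f) (hl : lev x = L)
    (hf : ∀ k ≤ L, nab k x = f k) (hth : θ (topOf x) x + 1 = h) :
    Cheap w K (XL y LE) (XL y LO) θ x := by
  obtain ⟨h1, h2, h3, h4, h5⟩ := hC
  have e1 : cst w (fun _ => h) x = cC w L h f := by
    rw [cst_shift (i := w) (a := L - w) (by omega)]
    unfold cC
    refine Finset.sum_congr rfl fun n hn => ?_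
    rw [mem_range] at hn
    rw [hf _ (by omega)]
  have e2 : nst w (fun _ => h) x = nC w h f := by
    rw [nst_eq]
    unfold nC
    refine Finset.sum_congr rfl fun n hn => ?_
    rw [mem_range] at hn
    rw [hf _ (by omega)]
  have e3 : C1 w θ x = cC w L h f + h := by
    unfold C1
    rw [hth, e1]
  refine ⟨by omega, ?_, ?_, ?_, ?_⟩
  · rw [hth, hf _ (by omega), hf _ (by omega)]
    exact h2
  · rw [hth, e2, e3]
    exact h3.okv
  · rw [hth, e2, e3]
    exact h4.okv
  · rw [e3, hth]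
    exact h5

/-- the numbers of a special cell -/
lemma SpN.spOK (hS : SpN j w K y LE LO) (hw : w ≤ j) (hl : lev x = j + 1)
    (hf : ∀ k ≤ j + 1, nab k x = stAb (j + 1) 2 k) (hth : θ (topOf x) x + 1 = j - w) :
    SpOK j w K (XL y LE) (XL y LO) θ x := by
  obtain ⟨h1, h2, h3⟩ := hS
  have e1 : ∀ h, cst w (fun _ => h) x = cC w (j + 1) h (stAb (j + 1) 2) := by
    intro h
    rw [cst_shift (i := w) (a := j + 1 - w) (by omega)]
    unfold cC
    refine Finset.sum_congr rfl fun n hn => ?_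
    rw [mem_range] at hn
    rw [hf _ (by omega)]
  have e2 : nst w (fun _ => j - w + 1) x = nC w (j - w + 1) (stAb (j + 1) 2) := by
    rw [nst_eq]
    unfold nC
    refine Finset.sum_congr rfl fun n hn => ?_
    rw [mem_range] at hn
    rw [hf _ (by omega)]
  refine ⟨?_, ?_, ?_⟩
  · rw [e2, e1]
    exact h1.okv
  · rw [e2, e1]
    exact h2.okv
  · unfold C1
    rw [hth, e1]
    unfold stC at h3
    unfold cC
    have e3 : j + 1 - w - 1 = j - w := by omega
    rw [e3] at h3
    exact h3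

end Cell

end Pool.Agent.GaussPoset.Sm
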