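import Pool.Agent.W_448pg_h74.WsA

/-!
# The windows `2`, `3`: the classification of the deep cells (MP_448cb3_co, S7)
-/

namespace Pool.Agent.GaussPoset.Sm

set_option linter.unusedSectionVars false

open Finset Wd

universe u

variable {P : Type u} [Fintype P] [PartialOrder P] [DecidableEq P] {r j w K0 K y : ℕ}
  {N : Tops P → Finset P} {b : Tops P → ℕ} {θ : Tops P → P → ℕ} {LE LO : List ℤ}

/-- **the deep cells**, the cells of row `1` apart -/
theorem Wk.cellsR (W : Wk r j w K0 N b θ) (hw2 : 2 ≤ w) (n : NumS j w K LE LO) {x : P}
    (hx : x ∉ unnat N) (hlx : j + 1 ≤ lev x) (hD : Dk j w K0 N θ x) :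
    Row1 j w N θ x ∨ K + 1 < C1 w θ x ∨
      Cheap w K (XL (j + 1 - w) LE) (XL (j + 1 - w) LO) θ x ∨
      (Spc j w N b θ x ∧ SpOK j w K (XL (j + 1 - w) LE) (XL (j + 1 - w) LO) θ x) := by
  have H := W.gt.H
  have HN := W.natSys
  have hxt : x ∈ N (topOf x) := HN.mem_iff.mpr ⟨hx, rfl⟩
  have hj := W.hj
  have hw := W.hw
  have hT := W.typ (topOf x)
  have hDt := hD.th
  generalize ht : topOf x = t at hxt hT hDt
  rcases hT with ⟨h1, h2, h3, h5⟩ | ⟨Nc, co, h0, h1, h2, h4⟩ |
    ⟨Nc, co, h0, h1, h2, h3, h4, h5'⟩
  · rw [h2] at hDt
    simp only at hDt
    omega
  · have e1 := h0.b_two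
    have e2 := h0.b_le
    have hxN' : x ∈ natR Nc co := by rw [← h1]; exact hxt
    by_cases hJ : x ∈ junk (fun _ => True) Nc co ∨ x ∈ junk (fun _ => True) Nc (swp co)
    · rw [h2] at hDt
      unfold thR at hDt
      rw [if_pos hJ] at hDt
      omega
    · have hxN : x ∈ Nc := by
        rw [mem_natR] at hxN'
        rcases hxN' with h | h | h
        · exact h
        · exact absurd (Or.inl h) hJ
        · exact absurd (Or.inr h) hJ
      have hl := h0.chart.lev x hxN
      have hth := rect_th7 h0 hw hxN hJ (by omega)
      by_cases h7 : (co x).1 = 0 ∨ (co x).2 = 0
      · rw [h2] at hDt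
        omega
      · by_cases h8 : (co x).1 = 1 ∨ (co x).2 = 1
        · left
          refine ⟨by omega, chart_inner_uc h0.chart H hxN (by omega) (by omega), ?_, ?_, ?_, ?_⟩
          · intro hlx'
            omega
          · rw [ht, h2]; omega
          · intro k hk hkx
            have := rect_nab h0.chart hxN (k := k) (by omega)
            omega
          · exact hD.mono
        · right
          have hth' : θ (topOf x) x + 1 = lev x - w + 1 - min (min (co x).1 (co x).2) w := by
            rw [ht, h2]; omega
          rcases Nat.lt_or_ge (j + 1) (lev x) with hgt | hle
          · left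
            unfold C1
            exact rdeep_of (j := j + 1) (by omega) (by omega) n.r2 h0.chart hxN (by omega)
              (by omega) (by omega) (by omega)
          · have hlx1 : lev x = j + 1 := by omega
            rcases n.r1 (co x).1 (by rw [Finset.mem_Icc]; omega) with h6 | h6
            · left
              have h7 := cst_rect (w := w) (h := θ (topOf x) x + 1) h0.chart hxN hlx1
                (by omega)
              unfold reC at h6
              unfold C1
              rw [h7, show θ (topOf x) x + 1 =
                j + 1 - w + 1 - min (min (co x).1 (j + 1 - (co x).1)) w by omega]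
              exact h6
            · right; left
              refine h6.cheap hlx1 ?_ ?_
              · intro k hk
                have := rect_nab h0.chart hxN (k := k) (by omega)
                unfold reAb
                omega
              · unfold reH
                omega
  · have hxN' : x ∈ natS Nc co := by rw [← h1]; exact hxt
    by_cases hJ : x ∈ junk (fun c => c.1 ≤ c.2) Nc co
    · rw [h2] at hDt
      unfold thS at hDt
      rw [if_pos hJ] at hDt
      omega
    · have hxN : x ∈ Nc := by
        rw [mem_natS] at hxN'
        rcases hxN' with h | h
        · exact h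
        · exact absurd h hJ
      have hl := h0.chart.lev x hxN
      have hm : (co x).1 ≤ (co x).2 := h0.chart.mem x hxN
      have hth := stair_th7 h0 hw h4 hxN hJ (by omega)
      rcases Nat.lt_or_ge (co x).1 1 with h7 | h7
      · rw [h2] at hDt
        omega
      · rcases Nat.lt_or_ge (co x).1 2 with h8 | h8
        · left
          have hd := stair_inner_uc h0.chart H hxN h7 (by omega)
          refine ⟨by omega, hd, ?_, ?_, ?_, ?_⟩
          · intro hlx'
            omega
          · rw [ht, h2]; omega
          · intro k hk hkx
            have := stair_nab h0.chart hxN (k := k) (by omega)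
            omega
          · exact hD.mono
        · right
          have hth' : θ (topOf x) x + 1 = lev x - w - 1 := by
            rw [ht, h2]; omega
          rcases Nat.lt_or_ge (j + 1) (lev x) with hgt | hle
          · left
            unfold C1
            exact sdeep_of (j := j + 1) (by omega) (by omega) n.s2 h0.chart hxN h8
              (by omega) (by omega)
          · have hlx1 : lev x = j + 1 := by omega
            have hst : K + 1 < stC w (j + 1) (co x).1 → K + 1 < C1 w θ x := by
              intro h6
              have h7 := cst_stair (w := w) (h := θ (topOf x) x + 1) h0.chart hxN hlx1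
                (by omega)
              unfold stC at h6
              unfold C1
              rw [h7, show θ (topOf x) x + 1 = j + 1 - w - 1 by omega]
              exact h6
            have hab : ∀ k ≤ j + 1, nab k x = stAb (j + 1) (co x).1 k := by
              intro k hk
              have := stair_nab h0.chart hxN (k := k) (by omega)
              unfold stAb
              omega
            by_cases ha : 3 ≤ (co x).1
            · rcases n.s1 (co x).1 (by rw [Finset.mem_Icc]; omega) with h6 | h6
              · exact Or.inl (hst h6)
              · right; left
                exact h6.cheap hlx1 hab (by omega)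
            · have ha2 : (co x).1 = 2 := by omega
              rw [ha2] at hst hab
              rcases n.sp with h6 | h6
              · exact Or.inl (hst h6)
              · right; right
                refine ⟨⟨Nc, co, ?_, ?_, ?_, hxN, ?_, ?_⟩, ?_⟩
                · rw [ht]; exact h0
                · rw [ht]; exact h1
                · rw [ht, h3]; omega
                · exact Prod.ext ha2 (by simp only; omega)
                · omega
                · exact h6.spOK (by omega) hlx1 hab (by omega)

/-- **the deep cells** -/
theorem Wk.cells (W : Wk r j w K0 N b θ) (hw2 : 2 ≤ w) (n : NumS j w K LE LO)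
    (m : NumR j w K0 K) :
    CellsS P j w K0 K N b θ (XL (j + 1 - w) LE) (XL (j + 1 - w) LO) := by
  intro x hx hlx hD
  rcases W.cellsR hw2 n hx hlx hD with h | h | h | h
  · left
    have hj := W.hj
    have h1 := hD.cost hlx
    have h2 := row1_cost h (by omega)
    unfold C1 at h2
    rw [h2] at h1
    have h3 := row1_cost h (by omega)
    rw [h3]
    exact m.all (by omega) h1
  · exact Or.inl h
  · exact Or.inr (Or.inl h)
  · exact Or.inr (Or.inr h)

end Pool.Agent.GaussPoset.Sm
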