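import Pool.Agent.W_448pg_h74.WtC

/-!
# The windows `2`, `3`: the cells `(2, j - 1)` without twins and pendants (MP_448cb3_co, S7)
-/

namespace Pool.Agent.GaussPoset.Sm

set_option linter.unusedSectionVars false

open Finset Wd

universe u

variable {P : Type u} [Fintype P] [PartialOrder P] [DecidableEq P] {r j w K0 K y : ℕ}
  {N : Tops P → Finset P} {b : Tops P → ℕ} {θ : Tops P → P → ℕ} {LE LO : List ℤ}

/-- no twins of the cells `(2, j - 1)` -/
def NoE2 (P : Type u) [Fintype P] [PartialOrder P] [DecidableEq P] (j : ℕ) : Prop :=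
  ∀ x x' : P, x ≠ x' → lev x = j + 1 → (∀ u, x < u ↔ x' < u) →
    (∀ k, 4 ≤ k → k + 1 ≤ j → nab k x = 3) → nab j x = 2 → False

/-- no pendants below the cells `(2, j - 1)` -/
def NoP2 (P : Type u) [Fintype P] [PartialOrder P] [DecidableEq P] (j : ℕ) : Prop :=
  ∀ z x : P, lev x = j + 1 → (∀ k, 4 ≤ k → k + 1 ≤ j → nab k x = 3) → nab j x = 2 → z ⋖ x →
    (∀ y, z ⋖ y → y = x) → False

/-- a second element of level `j + 1` has a cover which is not above the first one, unless there
is a pendant below an inner element of level `j` -/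
lemma exists_ext (H : Gr P r) {x z y : P} (hlx : lev x = j + 1) (h2 : (Win.uc x).card = 2)
    (hin : ∀ v, x ⋖ v → ∀ y, y ⋖ v → ¬ ∀ u, y ⋖ u → u = v)
    (hzx : z ⋖ x) (hzy : z ⋖ y) (hnt : ¬ ∀ u, x < u ↔ y < u) :
    ∃ q, z ≤ q ∧ lev q = j ∧ ¬ x ≤ q := by
  classical
  by_contra hcon
  push Not at hcon
  have hly : lev y = j + 1 := by
    have e1 := (H.covBy_iff.mp hzx).2
    have e2 := (H.covBy_iff.mp hzy).2
    omega
  have hsub : ∀ u, y ⋖ u → x ⋖ u := by
    intro u hu
    have e1 := (H.covBy_iff.mp hu).2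
    have hxu := hcon u (hzy.1.le.trans hu.1.le) (by omega)
    exact H.covBy_iff.mpr ⟨lt_of_le_of_ne hxu (by rintro rfl; omega), by omega⟩
  obtain ⟨t, ht, hyt⟩ := exists_above' (x := y) (j := j) (by omega)
  have hyt' : y < t := lt_of_le_of_ne ht (by rintro rfl; omega)
  obtain ⟨v, hv, -⟩ := Hul.exists_cov hyt'
  have hxv := hsub v hv
  have hex := hin v hxv y hv
  push Not at hex
  obtain ⟨u, hu, hne⟩ := hex
  have hxu := hsub u hu
  have huc : Win.uc x = {v, u} := by
    symm
    refine Finset.eq_of_subset_of_card_le ?_ ?_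
    · intro s hs
      rw [mem_insert, mem_singleton] at hs
      rcases hs with rfl | rfl
      · exact Win.mem_uc.mpr hxv
      · exact Win.mem_uc.mpr hxu
    · rw [h2, Finset.card_pair (Ne.symm hne)]
  apply hnt
  intro s
  constructor
  · intro hs
    obtain ⟨p, hp, hps⟩ := Hul.exists_cov hs
    have hpu : p ∈ Win.uc x := Win.mem_uc.mpr hp
    rw [huc, mem_insert, mem_singleton] at hpu
    rcases hpu with rfl | rfl
    · exact lt_of_lt_of_le hv.1 hps
    · exact lt_of_lt_of_le hu.1 hps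
  · intro hs
    obtain ⟨p, hp, hps⟩ := Hul.exists_cov hs
    exact lt_of_lt_of_le (hsub p hp).1 hps

/-- the cost below an element and a second one which has a cover not above the first -/
lemma cst_ext (H : Gr P r) {x z y q : P} (hlx : lev x = j + 1) (hw : w ≤ j)
    (hzx : z ⋖ x) (hzy : z ⋖ y) (hne : y ≠ x) (hzq : z ≤ q) (hlq : lev q = j) (hxq : ¬ x ≤ q)
    {h : ℕ} (hh : h ≤ j + 1 - w) :
    cst w (fun _ => h) x + h + h + min h (j - w) ≤ cst w (fun _ => h) z := by
  classical
  have e1 := (H.covBy_iff.mp hzx).2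
  have e2 := (H.covBy_iff.mp hzy).2
  obtain ⟨a, ha⟩ : ∃ a, j = w + a := ⟨j - w, by omega⟩
  rw [cst_shift (i := w) (h := fun _ => h) (x := x) (a := a + 1) (by omega),
    cst_shift (i := w) (h := fun _ => h) (x := z) (a := a + 1 + 1) (by omega),
    Finset.sum_range_succ, Finset.sum_range_succ, Finset.sum_range_succ _ (a + 1 + 1),
    Finset.sum_range_succ _ (a + 1), Finset.sum_range_succ _ a]
  have h2 : 2 ≤ nab (w + (a + 1)) z := by
    unfold nab
    have : ({x, y} : Finset P) ⊆ (lv P (w + (a + 1))).filter (fun u => z ≤ u) := by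
      intro u hu
      rw [mem_insert, mem_singleton] at hu
      rw [mem_filter, mem_lv]
      rcases hu with rfl | rfl
      · exact ⟨by omega, hzx.1.le⟩
      · exact ⟨by omega, hzy.1.le⟩
    have h3 := Finset.card_le_card this
    rw [Finset.card_pair hne.symm] at h3
    convert h3
  have h3 : nab (w + (a + 1)) x = 1 := by
    rw [show w + (a + 1) = lev x by omega]; exact nab_self
  have h4 : nab (w + (a + 1 + 1)) z = 1 := by
    rw [show w + (a + 1 + 1) = lev z by omega]; exact nab_self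
  have h5 : ∑ n ∈ range a, min h n * nab (w + n) x ≤ ∑ n ∈ range a, min h n * nab (w + n) z :=
    Finset.sum_le_sum fun n _ => Nat.mul_le_mul_left _ (nab_mono hzx.1.le)
  have h6 : nab (w + a) x + 1 ≤ nab (w + a) z := by
    unfold nab
    have : insert q ((lv P (w + a)).filter (fun u => x ≤ u)) ⊆
        (lv P (w + a)).filter (fun u => z ≤ u) := by
      intro u hu
      rw [mem_insert, mem_filter, mem_lv] at hu
      rw [mem_filter, mem_lv]
      rcases hu with rfl | hu
      · exact ⟨by omega, hzq⟩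
      · exact ⟨hu.1, hzx.1.le.trans hu.2⟩
    have h6 := Finset.card_le_card this
    rw [Finset.card_insert_of_notMem (by rw [mem_filter]; exact fun h => hxq h.2)] at h6
    convert h6
  have h7 : min h a * nab (w + a) x + min h a ≤ min h a * nab (w + a) z := by
    have := Nat.mul_le_mul_left (min h a) h6
    rw [Nat.mul_add, Nat.mul_one] at this
    exact this
  have h8 : h * 2 ≤ h * nab (w + (a + 1)) z := Nat.mul_le_mul_left _ h2
  rw [h3, h4, Nat.min_eq_left (by omega : h ≤ a + 1), Nat.min_eq_left (by omega : h ≤ a + 1 + 1),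
    show j - w = a by omega]
  omega

/-- the numbers of a cheap cell without twins, a second cover costs more -/
def ChE (w j K y : ℕ) (LE LO : List ℤ) (h : ℕ) (f : ℕ → ℕ) : Prop :=
  h < j + 1 - w ∧ f w = f (w + h) + 1 ∧ OkN y K LE LO (nC w h f) (cC w (j + 1) h f + h) ∧
    K < cC w (j + 1) h f + h + h + min h (j - w)

instance (w j K y : ℕ) (LE LO : List ℤ) (h : ℕ) (f : ℕ → ℕ) :
    Decidable (ChE w j K y LE LO h f) := by
  unfold ChE
  infer_instance

/-- the numbers of a cell without twins and pendants -/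
def ChP (w j K h : ℕ) (f : ℕ → ℕ) : Prop :=
  h < j + 1 - w ∧ K < cC w (j + 1) h f + h + h + min h (j - w)

instance (w j K h : ℕ) (f : ℕ → ℕ) : Decidable (ChP w j K h f) := by
  unfold ChP
  infer_instance

/-- **the finite check**, the cells `(2, j - 1)` without twins; `p`: without pendants too -/
structure NumE (p : Prop) [Decidable p] (j w K : ℕ) (LE LO : List ℤ) : Prop where
  s1 : ∀ a ∈ Finset.Icc 3 ((j + 1) / 2), K + 1 < stC w (j + 1) a ∨
    (2 * a = j + 1 ∧
      ChM w (j + 1) K (j + 1 - w) LE LO (j - w) (stAb (j + 1) a) (feC w j a)) ∨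
    ChN w (j + 1) K (j + 1 - w) LE LO (j - w) (stAb (j + 1) a)
  r1 : ∀ a ∈ Finset.Icc 2 (j - 1), K + 1 < reC w (j + 1) a ∨
    ((a = 2 ∨ a = j - 1) ∧ ((p ∧ ChP w j K (reH w (j + 1) a) (reAb (j + 1) a)) ∨
      ChE w j K (j + 1 - w) LE LO (reH w (j + 1) a) (reAb (j + 1) a))) ∨
    ChN w (j + 1) K (j + 1 - w) LE LO (reH w (j + 1) a) (reAb (j + 1) a)
  sp : K + 1 < stC w (j + 1) 2 ∨ (p ∧ ChP w j K (j - w) (stAb (j + 1) 2)) ∨
    SpM j w K (j + 1 - w) LE LO
  s2 : ∀ a ∈ Finset.Icc 2 ((j + 1 + 1) / 2), K + 1 < stC w (j + 1 + 1) a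
  r2 : ∀ a ∈ Finset.Icc 2 (j + 1 - 1), K + 1 < reC w (j + 1 + 1) a

end Pool.Agent.GaussPoset.Sm
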