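import Pool.Agent.W_448s7_h27.PoC
import Pool.Agent.W_448pg_h74.WuB
import Pool.Agent.W_448f4_h70.IG

/-!
# The windows `2`, `3` for `j = 14`, the cells `(2, 13)` without twins and pendants
(MP_448cb3_co, S7)
-/

namespace Pool.Agent.GaussPoset.Sm

set_option linter.unusedSectionVars false

open Polynomial Finset W4 Cp

universe u

variable {P : Type u} [Fintype P] [PartialOrder P] [DecidableEq P] {r : ℕ}
  {lo hi : Tops P → ℕ → ℕ} {e : Tops P → ℕ → ℕ → P}

/-- no hooks -/
lemma hkS_nil {j w : ℕ} {N : Tops P → Finset P} {b : Tops P → ℕ} {θ : Tops P → P → ℕ} {K y : ℕ} :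
    HkS P j w K N b θ (XL y []) where
  br := fun _ _ _ _ _ _ _ h => absurd h (by simp [XL])
  bo := fun _ _ _ _ _ h => absurd h (by simp [XL])
  bt := fun _ _ _ _ _ _ h => absurd h (by simp [XL])

/-- the window `2` for `j = 14` up to `89`, with the system, from `NoE2`, `NoP2` -/
theorem Ctx.sys2e_14 (K : Ctx P r 14 lo hi e) (hE : NoE2 P 14) (hP : NoP2 P 14)
    (hJ : ∃ z : P, Hul.Jn z) :
    ∃ (N : Tops P → Finset P) (b : Tops P → ℕ) (θ : Tops P → P → ℕ) (v : ℕ),
      Wk r 14 2 (13 ^ 2 + 74) N b θ ∧ Unq P 2 b ∧ MnS 14 2 N b θ v ∧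
      WinB P 14 2 89 (fun V => ([] : List ℤ).elem V)
        (fun V => nz ((14 + 1 - 2 : ℕ) : ℤ) V || ([24] : List ℤ).elem V) 0
        ((v : ℤ) - ((14 + 1 - 2 : ℕ) : ℤ) ^ 2) :=
  K.winNs (fun h => absurd h (by norm_num)) (by norm_num) (by norm_num) (Or.inl rfl) (c0 := 74)
    (cT := 89) chkEr14 (by decide +kernel) (fun h => absurd h (by norm_num))
    (by decide +kernel) (by decide +kernel) (by norm_num)
    (fun N b θ W => W.cellsE le_rfl (by norm_num) (numE_14_2'.mono (by simp) (by simp))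
      (noPT_of K.gt (by norm_num)) hE (fun _ => hP))
    { hfl := fun h => absurd h (by norm_num)
      hcc := fun _ => Or.inr (Or.inl (by decide +kernel))
      hFo := fun _ z x x' h => lt_of_lt_of_le (by decide +kernel)
        (fjn_cost_ge1 K.gt.H h (by norm_num))
      hfv := fun _ => Or.inr (Or.inl ⟨by decide +kernel, by unfold XL; decide +kernel⟩) }
    (by norm_num) (by norm_num) le_rfl (by decide) (by decide) hJ

/-- the window `3` for `j = 14` up to `80`, with the system, from `NoE2`, `NoP2` -/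
theorem Ctx.sys3e_14 (K : Ctx P r 14 lo hi e) (hE : NoE2 P 14) (hP : NoP2 P 14)
    {N : Tops P → Finset P} {θ3 θ4 : Tops P → P → ℕ}
    (S : Sy P 14 lo hi N θ3 θ4) (hJ : ∃ z : P, Hul.Jn z) :
    ∃ V : ℕ, MnS 14 3 N (fun t => hi t 3 - lo t 3 + 1) θ3 V ∧
      Wk r 14 3 (12 ^ 2 + 63) N (fun t => hi t 3 - lo t 3 + 1) θ3 ∧
      WinB P 14 3 80 (fun V => ([75] : List ℤ).elem V)
        (fun V => (nz ((14 + 1 - 3 : ℕ) : ℤ) V && !(([] : List ℤ).elem V)) ||
          ([16] : List ℤ).elem V) 0 ((V : ℤ) - ((14 + 1 - 3 : ℕ) : ℤ) ^ 2) :=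
  K.winSyH (by norm_num) S (c0 := 63) (cT := 80) chkEr14 (by decide +kernel)
    (fun h => absurd h (by norm_num)) (by decide +kernel) (by decide +kernel) (by norm_num)
    (fun N b θ W => W.cellsE (by norm_num) (by norm_num) (numE_14_3'.mono (by simp) (by simp))
      (noPT_of K.gt (by norm_num)) hE (fun _ => hP))
    (fun N b θ W _ => hkS_nil)
    { hfl := fun h => absurd h (by norm_num)
      hcc := fun _ => Or.inr (Or.inr (Or.inr ⟨by decide +kernel, by unfold XL; decide +kernel⟩))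
      hFo := fun _ z x x' h => lt_of_lt_of_le (by decide +kernel)
        (fjn_cost_ge1 K.gt.H h (by norm_num))
      hfv := fun _ => Or.inr (Or.inl ⟨by decide +kernel, by unfold XL; decide +kernel⟩) }
    (by norm_num) (by norm_num) le_rfl (by decide) (by decide) hJ

end Pool.Agent.GaussPoset.Sm
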