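import Pool.Agent.W_448pg_h74.WvA
import Pool.Agent.W_448f4_h70.GN

/-!
# Outcomes at every window (MP_448cb3_co, S7)

The machine of the windows `2`, `3` (W_448f4_h70/FD, GJ, GK, GN, GO, GP) also at the window `1`.
-/

namespace Pool.Agent.GaussPoset.Sm

set_option linter.unusedSectionVars false

open Polynomial Finset

universe u

variable {P : Type u} [Fintype P] [PartialOrder P] [DecidableEq P] {r j w K0 K : ℕ}
  {N : Tops P → Finset P} {b : Tops P → ℕ} {θ : Tops P → P → ℕ} {XE XO : ℕ → Prop}

/-- the labels are the canonical ones without deep covers -/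
lemma Wk.hS_eq' (W : Wk r j w K0 N b θ) {z : P}
    (hnd : ∀ x, x ∉ rA N → z ⋖ x → Dk j w K0 N θ (GaussPoset.bs N x) →
      Row1 j w N θ (GaussPoset.bs N x)) :
    hS j w N b θ z = hA N θ z := by
  have hp : ¬ PenS j w N b θ z := by
    rintro ⟨-, x, h1, h2, -, h4⟩
    have h5 := (hnd x h1 h2 (W.spc_deep (W.bs h1).nat h4)).th
    obtain ⟨Nc, co, C⟩ := h4
    have hj := W.hj
    have := C.th
    have := C.lev (by omega)
    omega
  rw [hS_not hp]
  refine hC_not ?_
  rintro ⟨h1, h2, f, s, h3, h4, h5, h6, h7⟩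
  have e1 := (W.gt.H.covBy_iff.mp h3).2
  have hj := W.hj
  have hf : f ∉ unnat N := W.low (by omega)
  have hbs : GaussPoset.bs N f = f := by
    unfold GaussPoset.bs
    rw [if_neg (W.not_tw hf)]
  obtain ⟨Nc, co, C⟩ := W.fold_cell' h1 h2 h3 h4 h5 h7
  have hth := C.th
  suffices h : Dk j w K0 N θ f by
    have h8 := (hbs ▸ hnd f (not_mem_rA.mpr (Or.inl hf)) h3 (hbs.symm ▸ h)).th
    omega
  rcases W.cases hf (by omega) with h | h | h
  · have := h.th
    omega
  · have := h.th
    omega
  · exact h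

/-- a cheapest boundary element without deep covers is flat -/
theorem Wk.flatS' (W : Wk r j w K0 N b θ) {v : ℕ} (M : MnS j w N b θ v) {z : P}
    (hz : z ∈ bdR (rA N)) (hc : cst w (hS j w N b θ) z = v)
    (hnd : ∀ x, x ∉ rA N → z ⋖ x → Dk j w K0 N θ (GaussPoset.bs N x) →
      Row1 j w N θ (GaussPoset.bs N x)) :
    Flat j w N θ z ∧ lev z ≤ hA N θ z + 1 + w := by
  have H := W.gt.H.gradedBelow
  have hj := W.hj
  have hw := W.hw
  have hlz := W.bd_lev hz
  have hSA := W.hS_eq' hnd
  have hc' : cst w (hA N θ) z = v := by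
    rw [← hc, cst_const w (hA N θ) z, cst_const w (hS j w N b θ) z, hSA]
  have hkd : ∀ x, x ∉ rA N → z ⋖ x → Str w N θ (GaussPoset.bs N x) ∨
      Row1 j w N θ (GaussPoset.bs N x) := by
    intro x hx hzx
    have g6 := W.bs hx
    have e1 := H.lev_covBy hzx
    have e3 := g6.lev
    rcases W.cases g6.nat (by omega) with h | h | h
    · exact Or.inl h
    · exact Or.inr h
    · exact Or.inr (hnd x hx hzx h)
  have hge : lev z ≤ hA N θ z + 1 + w := by
    obtain ⟨x0, g1, g2, g3⟩ := W.hA_spec hz
    have g7 := W.bs g1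
    have e2 := H.lev_covBy g2
    have e4 := g7.lev
    rcases hkd x0 g1 g2 with h | h
    · have := h.th
      omega
    · have := h.th
      omega
  refine ⟨?_, hge⟩
  intro x hzx
  have hxR : x ∉ rA N := by
    refine no_cover_of_min H (fun x hx => ?_) M.bd (fun z hz => hS_pos W hz) hz hc
      (by omega) hzx
    have := W.lt_lev (mem_rA.mp hx).1
    omega
  have hxt : x ∉ twA N := by
    intro hxt
    have e1 := H.lev_covBy hzx
    obtain ⟨g1, g2⟩ := W.tw_cases hxt
    have hbs : GaussPoset.bs N x = twT N x := by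
      unfold GaussPoset.bs
      rw [if_pos hxt]
    have g6 := W.bs hxR
    rw [hbs] at g6
    have hR : Row1 j w N θ (twT N x) := by
      rcases g2 with h | h
      · exact h
      · exact hbs ▸ hnd x hxR hzx (hbs.symm ▸ h)
    have hns : ¬ Spc j w N b θ (twT N x) := by
      rintro ⟨Nc, co, C⟩
      have := C.th
      have := C.lev (by omega)
      have := hR.th
      omega
    obtain ⟨a, ha⟩ : ∃ a, lev x = w + a := ⟨lev x - w, by have := g6.lev; omega⟩
    have g7 := W.tcst_row1 hxt hR ha
    have g8 := M.tw x hxt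
    unfold tcS at g8
    rw [if_neg hns] at g8
    have g9 := cst_step (i := w) (h := hA N θ) H hzx (by omega)
    have g10 : ful w x = a ^ 2 := ful_two ha (fun k hk1 hk2 => by
      have := hR.nab k hk1.le (by rw [g6.lev]; exact hk2)
      rcases g6.nab k with h | h
      · rw [← h]; exact this
      · omega)
    rw [g10, hc'] at g9
    have : a ≤ min (hA N θ z) (lev z - w) := by
      rw [Nat.le_min]
      omega
    omega
  rcases not_mem_rA.mp hxR with h | h
  · have hbs : GaussPoset.bs N x = x := by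
      unfold GaussPoset.bs
      rw [if_neg hxt]
    have := hkd x hxR hzx
    rw [hbs] at this
    exact ⟨h, this⟩
  · exact absurd h hxt

/-- the outcomes for a cheapest boundary element -/
theorem Wk.outS' (W : Wk r j w K0 N b θ) (L : LkS P j w K0 K N b θ XE XO) {v : ℕ}
    (hP : OnePen P j (fun t => 2 ≤ b t) ∨ v ≤ (j + 1 - w) ^ 2 + 5 * (j - w))
    (M : MnS j w N b θ v) {z : P} (hz : z ∈ bdR (rA N)) (hc : cst w (hS j w N b θ) z = v) :
    OutK j w K XE XO (hS j w N b θ) z v := by
  classical
  have H := W.gt.H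
  have hj := W.hj
  have hw := W.hw
  have hlz := W.bd_lev hz
  by_cases hd : ∃ x, x ∉ rA N ∧ z ⋖ x ∧ Dk j w K0 N θ (GaussPoset.bs N x) ∧
      ¬ Row1 j w N θ (GaussPoset.bs N x)
  · obtain ⟨x, hx, hzx, hD, hnR⟩ := hd
    have e1 := (H.covBy_iff.mp hzx).2
    by_cases hl : j + 1 ≤ lev x
    · exact L.dp v z x M hz hc hx hzx hl hD hnR
    · have hxu : x ∉ unnat N := W.low (by omega)
      have hbs : GaussPoset.bs N x = x := by
        unfold GaussPoset.bs
        rw [if_neg (W.not_tw hxu)]
      rw [hbs] at hD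
      exact L.dj v z x M hz hc (by omega) hzx hD
  · push Not at hd
    have hSA := W.hS_eq' hd
    obtain ⟨hF, hge⟩ := W.flatS' M hz hc hd
    have hc' : cst w (hA N θ) z = v := by
      rw [← hc, cst_const w (hA N θ) z, cst_const w (hS j w N b θ) z, hSA]
    refine outK_congr hSA.symm ?_
    by_cases hR : ∃ x, z ⋖ x ∧ Row1 j w N θ x
    · obtain ⟨x, hzx, hR⟩ := hR
      exact W.row1_outS L.hK hz hc' hF hge hzx hR
    · push Not at hR
      have hStr : ∀ x, z ⋖ x → x ∉ unnat N ∧ Str w N θ x := fun x hx =>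
        ⟨(hF x hx).1, (hF x hx).2.resolve_right (hR x hx)⟩
      have hh : hA N θ z = lev z - w := by
        obtain ⟨x0, f1, f2, f3⟩ := W.hA_spec hz
        obtain ⟨g1, g2⟩ := hStr x0 f2
        have hbs : GaussPoset.bs N x0 = x0 := by
          unfold GaussPoset.bs
          rw [if_neg (W.not_tw g1)]
        rw [hbs, g2.th] at f3
        have := (H.covBy_iff.mp f2).2
        omega
      by_cases hT : ∃ x x', z ⋖ x ∧ z ⋖ x' ∧ topOf x ≠ topOf x'
      · obtain ⟨x, x', h1, h2, h3⟩ := hT
        exact W.cross_outS L.unq L.nsk hz hh hc' (hStr x h1).1 (hStr x' h2).1 (hStr x h1).2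
          (hStr x' h2).2 h1 h2 h3
      · push Not at hT
        obtain ⟨x, hzx, -⟩ := Hul.exists_cov (w := z) (v := (topOf z : P))
          (lt_of_le_of_ne (le_topOf z) (by
            intro h
            have := (topOf z).2
            rw [← h] at this
            omega))
        exact W.own_outS hP hz hh hc' hStr (t := topOf x) fun x' hx' => hT x' x hx' hzx

end Pool.Agent.GaussPoset.Sm
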