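import Pool.Agent.W_448pg_h74.WvC
import Pool.Agent.W_448pg_h74.WuB

/-!
# The window `1` beyond the cells `(2, j - 1)` (MP_448cb3_co, S7)
-/

namespace Pool.Agent.GaussPoset.Sm

set_option linter.unusedSectionVars false

open Polynomial Finset Wd

universe u

variable {P : Type u} [Fintype P] [PartialOrder P] [DecidableEq P] {r j K0 K : ℕ}
  {N : Tops P → Finset P} {b : Tops P → ℕ} {θ : Tops P → P → ℕ} {XE XO : ℕ → Prop}

/-- the thresholds at window `1` -/
lemma Wk.th_one (W : Wk r j 1 K0 N b θ) {x : P} (hx : x ∉ unnat N) (hl : j ≤ lev x) :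
    lev x ≤ θ (topOf x) x + 2 := by
  have HN := W.natSys
  have hj := W.hj
  have hxt : x ∈ N (topOf x) := HN.mem_iff.mpr ⟨hx, rfl⟩
  generalize topOf x = t at hxt
  rcases W.typ t with ⟨h1, h2, h3, h5⟩ | ⟨Nc, co, h0, h1, h2, h4⟩ |
    ⟨Nc, co, h0, h1, h2, h3, h4, h5'⟩
  · rw [h2]
    simp only
    omega
  · rw [h2]
    by_cases hJ : x ∈ junk (fun _ => True) Nc co ∨ x ∈ junk (fun _ => True) Nc (swp co)
    · unfold thR
      rw [if_pos hJ]
      omega
    · have hxN : x ∈ Nc := by
        rw [h1, mem_natR] at hxt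
        rcases hxt with h | h | h
        · exact h
        · exact absurd (Or.inl h) hJ
        · exact absurd (Or.inr h) hJ
      have := rect_th7 h0 W.hw hxN hJ (by omega)
      omega
  · omega

/-- no special cells at window `1` -/
lemma Wk.no_spc1 (W : Wk r j 1 K0 N b θ) {x : P} (hx : x ∉ unnat N) : ¬ Spc j 1 N b θ x := by
  rintro ⟨Nc, co, C⟩
  have hj := W.hj
  have h1 := C.th
  have h2 := C.lev (by omega)
  have h3 := W.th_one hx (by omega)
  omega

lemma Wk.no_cel1 (W : Wk r j 1 K0 N b θ) {z : P} : ¬ CEl j 1 N θ z := by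
  rintro ⟨h1, h2, f, s, h3, h4, h5, h6, h7⟩
  obtain ⟨Nc, co, C⟩ := W.fold_cell' h1 h2 h3 h4 h5 h7
  have h8 := C.th
  have h9 := C.lev
  have hj := W.hj
  have e1 := (W.gt.H.covBy_iff.mp h3).2
  have h10 := W.th_one (x := f) (W.low (by omega)) (by omega)
  omega

lemma Wk.no_penS1 (W : Wk r j 1 K0 N b θ) {z : P} : ¬ PenS j 1 N b θ z := by
  rintro ⟨-, x, h1, h2, -, h4⟩
  exact W.no_spc1 (W.bs h1).nat h4

lemma Wk.hS_one (W : Wk r j 1 K0 N b θ) (z : P) : hS j 1 N b θ z = hA N θ z := by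
  rw [hS_not W.no_penS1, hC_not W.no_cel1]

/-- deep cells at window `1` -/
lemma Wk.cell_one (W : Wk r j 1 K0 N b θ) {x : P} (hx : x ∉ unnat N) (hl : j + 1 ≤ lev x)
    (hD : Dk j 1 K0 N θ x) (hR : ¬ Row1 j 1 N θ x) :
    ∃ Nc co, Chart (topOf x : P) (fun _ => True) Nc co ∧ x ∈ Nc ∧ 2 ≤ (co x).1 ∧
      2 ≤ (co x).2 ∧ θ (topOf x) x + 1 = lev x - 1 ∧
      ∀ v z, v ≤ (topOf x : P) → lev v = j → (Win.uc v).card = 2 → z ⋖ v →
        ¬ ∀ y, z ⋖ y → y = v := by
  have H := W.gt.H
  have HN := W.natSys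
  have hxt : x ∈ N (topOf x) := HN.mem_iff.mpr ⟨hx, rfl⟩
  have hj := W.hj
  have hDt := hD.th
  have hT := W.typ (topOf x)
  generalize ht : topOf x = t at hxt hT hDt
  rcases hT with ⟨h1, h2, h3, h5⟩ | ⟨Nc, co, h0, h1, h2, h4⟩ |
    ⟨Nc, co, h0, h1, h2, h3, h4, h5'⟩
  · exfalso
    rw [h2] at hDt
    simp only at hDt
    omega
  · have hxN' : x ∈ natR Nc co := by rw [← h1]; exact hxt
    have hJ : ¬ (x ∈ junk (fun _ => True) Nc co ∨ x ∈ junk (fun _ => True) Nc (swp co)) := by
      intro hJ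
      rw [h2] at hDt
      unfold thR at hDt
      rw [if_pos hJ] at hDt
      omega
    have hxN : x ∈ Nc := by
      rw [mem_natR] at hxN'
      rcases hxN' with h | h | h
      · exact h
      · exact absurd (Or.inl h) hJ
      · exact absurd (Or.inr h) hJ
    have hl' := h0.chart.lev x hxN
    have hth := rect_th7 h0 W.hw hxN hJ (by omega)
    have h7 : ¬ ((co x).1 = 0 ∨ (co x).2 = 0) := by
      intro h7
      rw [h2] at hDt
      omega
    have h8 : ¬ ((co x).1 = 1 ∨ (co x).2 = 1) := by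
      intro h8
      apply hR
      refine ⟨by omega, chart_inner_uc h0.chart H hxN (by omega) (by omega), ?_, ?_, ?_, ?_⟩
      · intro hlx'
        omega
      · rw [ht, h2]; omega
      · intro k hk hkx
        have := rect_nab h0.chart hxN (k := k) (by omega)
        omega
      · exact hD.mono
    refine ⟨Nc, co, h0.chart, hxN, by omega, by omega, ?_, h4⟩
    rw [h2]
    omega
  · omega

/-- the finite check at window `1` -/
structure Num1 (j K : ℕ) : Prop where
  r1 : ∀ a ∈ Finset.Icc 3 (j - 2), K + 1 < reC 1 (j + 1) a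
  r2 : ∀ a ∈ Finset.Icc 2 (j + 1 - 1), K + 1 < reC 1 (j + 1 + 1) a
  two : ∀ a, a = 2 ∨ a = j - 1 →
    K < ∑ n ∈ range (j + 1 - 1 + 1), min j n * (min (1 + n) a + 1 - ((1 + n) - (j + 1 - a))) +
      j + j + min j (j - 1)

lemma hA_one (W : Wk r j 1 K0 N b θ) {z x : P} (hz : z ∈ bdR (rA N)) (hx : x ∉ rA N)
    (hzx : z ⋖ x) (hl : j + 1 ≤ lev x)
    (hth : θ (topOf (GaussPoset.bs N x)) (GaussPoset.bs N x) + 1 = lev x - 1) :
    hA N θ z = lev x - 1 := by
  have H := W.gt.H.gradedBelow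
  obtain ⟨x0, g1, g2, g3⟩ := W.hA_spec hz
  have g4 := W.hA_le hx hzx
  have g6 := W.bs g1
  have e1 := H.lev_covBy hzx
  have e2 := H.lev_covBy g2
  have e3 := g6.lev
  have e4 := (W.bs hx).lev
  have h5 := W.th_one g6.nat (by omega)
  omega

/-- **elements below a deep cell at window `1` are expensive** -/
theorem Wk.dp_one (W : Wk r j 1 K0 N b θ) (h8 : 8 ≤ j) (n : Num1 j K) (hE : NoE2 P j)
    (hP : NoP2 P j) {v : ℕ} {z x : P} (hz : z ∈ bdR (rA N))
    (hc : cst 1 (hS j 1 N b θ) z = v) (hx : x ∉ rA N) (hzx : z ⋖ x) (hlx : j + 1 ≤ lev x)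
    (hD : Dk j 1 K0 N θ (GaussPoset.bs N x)) (hR : ¬ Row1 j 1 N θ (GaussPoset.bs N x)) :
    K < v := by
  classical
  have H := W.gt.H
  have g7 := W.bs hx
  have e4 := g7.lev
  obtain ⟨Nc, co, C, hxN, c1, c2, hth, hpen⟩ := W.cell_one g7.nat (by omega) hD hR
  have hth' : θ (topOf (GaussPoset.bs N x)) (GaussPoset.bs N x) + 1 = lev x - 1 := by omega
  have hA1 := hA_one W hz hx hzx hlx hth'
  have hcg : ∀ L, cst 1 (fun _ => L) (GaussPoset.bs N x) = cst 1 (fun _ => L) x := fun L =>
    cst_const_congr g7.lev g7.nab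
  have e1 := (H.covBy_iff.mp hzx).2
  have hv : v = cst 1 (fun _ => lev x - 1) z := by
    rw [← hc, cst_const, W.hS_one, hA1]
  have hge := cst_ge_cover (i := 1) (h := fun _ => lev x - 1) H.gradedBelow hzx
  simp only at hge
  rw [Nat.min_eq_left (by omega)] at hge
  have hcl := C.lev _ hxN
  rcases Nat.lt_or_ge (j + 1) (lev x) with hgt | hle
  · have h5 := rdeep_of (j := j + 1) (w := 1) (by omega) (by omega) n.r2 C hxN
      (h := lev x - 1) (by omega) (by omega) (by omega) (by omega)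
    rw [hcg] at h5
    omega
  · have hlx1 : lev x = j + 1 := by omega
    rw [hlx1, Nat.add_sub_cancel] at hv hge
    have h7 := cst_rect (w := 1) (h := j) C hxN (L := j + 1) (by omega) (by omega)
    rw [hcg] at h7
    by_cases hc2 : (co (GaussPoset.bs N x)).1 = 2 ∨ (co (GaussPoset.bs N x)).1 = j - 1
    · -- the cells `(2, j - 1)`
      have g1 : ∀ k, 4 ≤ k → k + 1 ≤ j → nab k (GaussPoset.bs N x) = 3 := by
        intro k hk1 hk2
        have := rect_nab C hxN (k := k) (by omega)
        omega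
      have g2 : nab j (GaussPoset.bs N x) = 2 := by
        have := rect_nab C hxN (k := j) (by omega)
        omega
      have hN : NTw (GaussPoset.bs N x) := fun x' hne hup =>
        hE _ x' hne.symm (by omega) hup g1 g2
      have e9 := W.bs_self hN
      rw [e9] at C hxN c1 c2 hcl hc2 g1 g2 hN h7 hpen
      have hnp : ¬ ∀ y, z ⋖ y → y = x := hP z x hlx1 g1 g2 hzx
      push Not at hnp
      obtain ⟨y, hy, hne⟩ := hnp
      have hin : ∀ v, x ⋖ v → ∀ y, y ⋖ v → ¬ ∀ u, y ⋖ u → u = v := by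
        intro v hv y hy
        have hvN := C.up x hxN v hv.1.le
        have hcv := (chart_cov C H hxN hvN).mp hv
        have hlv := (H.covBy_iff.mp hv).2
        have h7 : (Win.uc v).card = 2 := by
          unfold Prd at hcv
          exact chart_inner_uc C H hvN (by omega) (by omega)
        exact hpen v y (C.le_t v hvN) (by omega) h7 hy
      obtain ⟨q, q1, q2, q3⟩ := exists_ext H hlx1
        (chart_inner_uc C H hxN (by omega) (by omega)) hin hzx hy (hN y hne)
      have h9 := cst_ext (w := 1) H hlx1 (by omega) hzx hy hne q1 q2 q3 (h := j) (by omega)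
      have h10 := n.two _ hc2
      rw [hv]
      omega
    · have h8 := n.r1 (co (GaussPoset.bs N x)).1 (by rw [Finset.mem_Icc]; omega)
      unfold reC at h8
      rw [show j + 1 - 1 + 1 - min (min (co (GaussPoset.bs N x)).1
        (j + 1 - (co (GaussPoset.bs N x)).1)) 1 = j by omega, ← h7] at h8
      omega

/-- **twins of deep cells at window `1` are expensive** -/
theorem Wk.dt_one (W : Wk r j 1 K0 N b θ) (h8 : 8 ≤ j) (n : Num1 j K) (hE : NoE2 P j)
    {x : P} (hx : x ∈ twA N) (hD : Dk j 1 K0 N θ (twT N x))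
    (hR : ¬ Row1 j 1 N θ (twT N x)) : K < tcS j 1 N b θ x := by
  classical
  have H := W.gt.H.gradedBelow
  have hj := W.hj
  have T := W.twn hx
  have hup := W.twSys.up x hx
  have hll : lev (twT N x) = lev x := lev_eq_of_up hup
  have hnat := W.twSys.nat x hx
  have e1 : thA N θ (twT N x) = θ (topOf (twT N x)) (twT N x) := W.thA_nat hnat
  have hlv : j + 1 ≤ lev (twT N x) := by
    have := W.lt_lev (mem_twA.mp hx).1
    omega
  have e2 : tcst 1 (thA N θ) (twT N x, x) = C1 1 θ (twT N x) - 1 := by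
    rw [tcst_cst T]
    unfold C1
    simp only
    rw [e1]
    omega
  have h2 : tcS j 1 N b θ x = C1 1 θ (twT N x) - 1 := by
    unfold tcS
    rw [if_neg (W.no_spc1 hnat), e2]
  obtain ⟨Nc, co, C, hxN, c1, c2, hth, hpen⟩ := W.cell_one hnat hlv hD hR
  have hcl := C.lev _ hxN
  rw [h2]
  unfold C1
  rw [hth]
  rcases Nat.lt_or_ge (j + 1) (lev (twT N x)) with hgt | hle
  · have h5 := rdeep_of (j := j + 1) (w := 1) (by omega) (by omega) n.r2 C hxN
      (h := lev (twT N x) - 1) (by omega) (by omega) (by omega) (by omega)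
    omega
  · have hlx1 : lev (twT N x) = j + 1 := by omega
    by_cases hc2 : (co (twT N x)).1 = 2 ∨ (co (twT N x)).1 = j - 1
    · exfalso
      have g1 : ∀ k, 4 ≤ k → k + 1 ≤ j → nab k (twT N x) = 3 := by
        intro k hk1 hk2
        have := rect_nab C hxN (k := k) (by omega)
        omega
      have g2 : nab j (twT N x) = 2 := by
        have := rect_nab C hxN (k := j) (by omega)
        omega
      exact hE _ x T.ne (by omega) hup g1 g2
    · have h8 := n.r1 (co (twT N x)).1 (by rw [Finset.mem_Icc]; omega)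
      have h7 := cst_rect (w := 1) (h := j) C hxN (L := j + 1) (by omega) (by omega)
      unfold reC at h8
      rw [show j + 1 - 1 + 1 - min (min (co (twT N x)).1 (j + 1 - (co (twT N x)).1)) 1 = j by
        omega, ← h7] at h8
      rw [hlx1, Nat.add_sub_cancel]
      omega

theorem num1_14 : Num1 14 (14 ^ 2 + 93) := by
  constructor
  · decide +kernel
  · decide +kernel
  · intro a ha
    rcases ha with rfl | rfl
    · decide +kernel
    · decide +kernel

end Pool.Agent.GaussPoset.Sm
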