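import Pool.Agent.W_448pg_h74.WvD
import Pool.Agent.W_448s7_h27.PoC

/-!
# The window `1` for `j = 14` up to `93` (MP_448cb3_co, S7)
-/

namespace Pool.Agent.GaussPoset.Sm

set_option linter.unusedSectionVars false

open Polynomial Finset W4 Cp

universe u

variable {P : Type u} [Fintype P] [PartialOrder P] [DecidableEq P] {r j : ℕ}
  {lo hi : Tops P → ℕ → ℕ} {e : Tops P → ℕ → ℕ → P}

/-- sides which are not allowed are expensive at window `1`, with a larger cap -/
theorem nsk1' (H : Gr P r) (hj : 6 ≤ j) {cT : ℕ}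
    (hF : j ^ 2 + cT < (j + 1) ^ 2 + (j - 2) * (j - 3) / 2)
    (hfo : 12 ≤ j → j % 2 = 0 → (cT : ℤ) < fm j * ((j : ℤ) - 1) - fc j)
    {z x x' : P} (h : Cg z x x')
    (hl : j + 1 ≤ lev z) (hn : ¬ Sok j x) : j ^ 2 + cT < ful 1 z := by
  obtain ⟨l1, l2⟩ := h.lev_eq H
  by_cases hf : Fatt j x
  · obtain ⟨f1, f2⟩ := hf
    obtain ⟨c, hc⟩ : ∃ c, lev z = 1 + c := ⟨lev z - 1, by omega⟩
    have h4 := ful_ge (w := 1) (z := z) (fun n => ind 1 (j - 2) n) hc (fun n hn1 hn2 => by
      unfold ind
      split_ifs with h6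
      · rw [h.sum H (by omega)]
        have := f2 (1 + n) (by omega) (by omega)
        have := one_le_nab (l := 1 + n) (z := x') (by omega)
        omega
      · exact h.two_le H (k := 1 + n) (by omega))
    have g2 := sum_ind (s := 1) (a := j - 2) (m := c) (by omega)
    have h7 : (j + 1) ^ 2 ≤ c ^ 2 := Nat.pow_le_pow_left (by omega) 2
    obtain ⟨i, rfl⟩ : ∃ i, j = i + 3 := ⟨j - 3, by omega⟩
    rw [show i + 3 - 2 = i + 1 by omega, show i + 1 - 1 = i by omega] at g2
    rw [show i + 3 - 2 = i + 1 by omega] at h4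
    rw [show i + 3 - 2 = i + 1 by omega, show i + 3 - 3 = i by omega] at hF
    norm_num at g2
    omega
  · have hF : 12 ≤ j ∧ Fold j x := by
      unfold Sok at hn
      by_contra hcon
      exact hn ⟨hf, fun h12 hfo => hcon ⟨h12, hfo⟩⟩
    obtain ⟨h12, hfl⟩ := hF
    have hlx := hfl.1
    obtain ⟨k1, k2, k3, k4, k5, k6⟩ := h.line H hl
    obtain ⟨n0, d0⟩ := k6 (by omega)
    have hn : (nab j x : ℤ) = 1 ∧ (nab j x' : ℤ) = 1 := by
      constructor
      · rw [show j = lev x by omega, nab_self]; norm_num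
      · rw [show j = lev x' by omega, nab_self]; norm_num
    have hz0 : (lev z : ℤ) - (j + 1) = 0 := by rw [l1, hlx]; push_cast; ring
    obtain ⟨f1, f2⟩ := hfl.mX
    have b1 := nab_zero_only h.only
    have b2 := nab_zero_only h.only'
    have hln := ful_line (j := j) (w := 1) (z := z) (by omega) (by omega) (fun k hk => by
      obtain rfl : k = 0 := by omega
      rw [h.sum H (by omega), b1, b2])
    have hs : 0 ≤ mX j x' * ((j : ℤ) - (1 : ℕ)) - cX j x' := by
      unfold mX cX
      rw [Finset.sum_mul, ← Finset.sum_sub_distrib]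
      refine Finset.sum_nonneg fun k hk => ?_
      rw [mem_range] at hk
      rcases Nat.eq_zero_or_pos k with hk0 | hk0
      · subst hk0
        rw [b2]
        norm_num
      · have h1 := one_le_nab (l := k) (z := x') (by omega)
        have h2 : (0 : ℤ) ≤ (nab k x' : ℤ) - 1 := by
          have : (1 : ℤ) ≤ nab k x' := by exact_mod_cast h1
          linarith
        have h3 : (1 : ℤ) ≤ k := by exact_mod_cast hk0
        push_cast
        nlinarith
    have key := hfo h12 hfl.2.1
    have : ((j ^ 2 + cT : ℕ) : ℤ) < ful 1 z := by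
      rw [hln, k1, k2, n0, d0, hn.1, hn.2, hz0, f1, f2]
      push_cast at hs ⊢
      nlinarith
    exact_mod_cast this

/-- **the balance at window `1` for `j = 14` up to `93`**, from `NoE2`, `NoP2` -/
theorem Ctx.win1e_14 (K : Ctx P r 14 lo hi e) (hE : NoE2 P 14) (hP : NoP2 P 14)
    (hJ : ∃ z : P, Hul.Jn z) :
    ∃ V, WinB P 14 1 93 (fun V => ([] : List ℤ).elem V)
      (fun V => nz ((14 + 1 - 1 : ℕ) : ℤ) V || ([] : List ℤ).elem V) 0 V := by
  have H := K.gt.H
  have h16 := K.h16
  have hsh : ∀ t : Tops P, lo t 1 = hi t 1 ∨ RectShape 14 (lo t) (hi t) ∨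
      StairShape 14 (lo t) (hi t) ∨ StairShape 14 (fun k => k - hi t k) (fun k => k - lo t k) := by
    intro t
    rcases shape_cases (K.comp t) (by omega) (K.shape t) with h | h | ⟨a, h, h3⟩
    · exact Or.inl (h 1 (by omega))
    · exact Or.inr (by tauto)
    · left
      rw [(h.low 1 (by have := h.two; omega)).1, (h.low 1 (by have := h.two; omega)).2]
  obtain ⟨N, θ, t1, t2, hs, hu⟩ := K.types (w := 1) (by omega) hsh
  have W : Wk r 14 1 (K1 14) N (fun t => hi t 1 - lo t 1 + 1) θ :=
    { gt := K.gt, hj := by norm_num, hw1 := le_rfl, hw := by norm_num, typ := t1, top := t2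
      sum_b := hs
      hK := by decide +kernel
      rdeep := fun C _ hx _ h1 h2 h3 h4 => rect_deep1 C (by norm_num) hx h1 h2 h3 h4
      sdeep := fun h => absurd h (by norm_num) }
  have L : LkS P 14 1 (K1 14) (14 ^ 2 + 93) N (fun t => hi t 1 - lo t 1 + 1) θ
      (XL (14 + 1 - 1) []) (XL (14 + 1 - 1) []) :=
    { hK := by norm_num
      unq := hu
      nsk := fun z x x' h hl _ hn => nsk1' H (by norm_num) (by norm_num)
        (fun _ _ => by decide +kernel) h hl hn
      dj := fun v z x _ hz _ hl hzx hD => (W.deep_j1 hz hl hzx hD).elim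
      dp := fun v z x _ hz hc hx hzx hl hD hR => Or.inl
        (W.dp_one (by norm_num) num1_14 hE hP hz hc hx hzx hl hD hR)
      dt := fun x hx hD hR => Or.inl (W.dt_one (by norm_num) num1_14 hE hx hD hR) }
  have hpen : OnePen P 14 (fun t => 2 ≤ hi t 1 - lo t 1 + 1) ∨ ∃ z : P, Hul.Jn z ∧
      ful 1 z ≤ (14 + 1 - 1) ^ 2 + 5 * (14 - 1) := by
    rcases K.pen_or with h | ⟨hodd, z, x, x', h1, h2, h3, h4⟩
    · left
      intro e e' p p' hB
      refine h e e' p p' ?_
      rcases shape_cases (K.comp (topOf e)) (by omega) (K.shape (topOf e)) with h | h | ⟨a, h, h3⟩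
      · have := h 1 (by omega)
        omega
      · exact h
      · have e1 := h.low 1 (by have := h.two; omega)
        omega
    · exact absurd hodd (by norm_num)
  obtain ⟨v, M, h⟩ := W.winBS' (by norm_num) (fun _ => by norm_num) L h16 (cT := 93) (lb := 0)
    (by norm_num) (by norm_num) le_rfl (fun x hx => absurd hx List.not_mem_nil)
    (fun x hx => absurd hx List.not_mem_nil)
    (fun z x x' h _ _ hl k hk => by
      obtain rfl : k = 0 := by omega
      rw [h.sum H (by omega), nab_zero_only h.only, nab_zero_only h.only'])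
    hpen hJ
  exact ⟨_, h⟩

end Pool.Agent.GaussPoset.Sm
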