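import Pool.Agent.W_448pg_h74.WvE

/-!
# The window `1` for `j = 12` up to `69` (MP_448cb3_co, S7)
-/

namespace Pool.Agent.GaussPoset.Sm

set_option linter.unusedSectionVars false

open Polynomial Finset W4 Cp

universe u

variable {P : Type u} [Fintype P] [PartialOrder P] [DecidableEq P] {r j : ℕ}
  {lo hi : Tops P → ℕ → ℕ} {e : Tops P → ℕ → ℕ → P}

theorem num1_12 : Num1 12 (12 ^ 2 + 69) := by
  constructor
  · decide +kernel
  · decide +kernel
  · intro a ha
    rcases ha with rfl | rfl
    · decide +kernel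
    · decide +kernel

/-- **the balance at window `1` for `j = 12` up to `69`**, from `NoE2`, `NoP2` -/
theorem Ctx.win1e_12 (K : Ctx P r 12 lo hi e) (hE : NoE2 P 12) (hP : NoP2 P 12)
    (hJ : ∃ z : P, Hul.Jn z) :
    ∃ V, WinB P 12 1 69 (fun V => ([] : List ℤ).elem V)
      (fun V => nz ((12 + 1 - 1 : ℕ) : ℤ) V || ([] : List ℤ).elem V) 0 V := by
  have H := K.gt.H
  have h16 := K.h16
  have hsh : ∀ t : Tops P, lo t 1 = hi t 1 ∨ RectShape 12 (lo t) (hi t) ∨
      StairShape 12 (lo t) (hi t) ∨ StairShape 12 (fun k => k - hi t k) (fun k => k - lo t k) := by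
    intro t
    rcases shape_cases (K.comp t) (by omega) (K.shape t) with h | h | ⟨a, h, h3⟩
    · exact Or.inl (h 1 (by omega))
    · exact Or.inr (by tauto)
    · left
      rw [(h.low 1 (by have := h.two; omega)).1, (h.low 1 (by have := h.two; omega)).2]
  obtain ⟨N, θ, t1, t2, hs, hu⟩ := K.types (w := 1) (by omega) hsh
  have W : Wk r 12 1 (K1 12) N (fun t => hi t 1 - lo t 1 + 1) θ :=
    { gt := K.gt, hj := by norm_num, hw1 := le_rfl, hw := by norm_num, typ := t1, top := t2
      sum_b := hs
      hK := by decide +kernel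
      rdeep := fun C _ hx _ h1 h2 h3 h4 => rect_deep1 C (by norm_num) hx h1 h2 h3 h4
      sdeep := fun h => absurd h (by norm_num) }
  have L : LkS P 12 1 (K1 12) (12 ^ 2 + 69) N (fun t => hi t 1 - lo t 1 + 1) θ
      (XL (12 + 1 - 1) []) (XL (12 + 1 - 1) []) :=
    { hK := by norm_num
      unq := hu
      nsk := fun z x x' h hl _ hn => nsk1' H (by norm_num) (by norm_num)
        (fun _ _ => by decide +kernel) h hl hn
      dj := fun v z x _ hz _ hl hzx hD => (W.deep_j1 hz hl hzx hD).elim
      dp := fun v z x _ hz hc hx hzx hl hD hR => Or.inl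
        (W.dp_one (by norm_num) num1_12 hE hP hz hc hx hzx hl hD hR)
      dt := fun x hx hD hR => Or.inl (W.dt_one (by norm_num) num1_12 hE hx hD hR) }
  have hpen : OnePen P 12 (fun t => 2 ≤ hi t 1 - lo t 1 + 1) ∨ ∃ z : P, Hul.Jn z ∧
      ful 1 z ≤ (12 + 1 - 1) ^ 2 + 5 * (12 - 1) := by
    rcases K.pen_or with h | ⟨hodd, z, x, x', h1, h2, h3, h4⟩
    · left
      intro e e' p p' hB
      refine h e e' p p' ?_
      rcases shape_cases (K.comp (topOf e)) (by omega) (K.shape (topOf e)) with h | h | ⟨a, h, h3⟩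
      · have := h 1 (by omega)
        omega
      · exact h
      · have e1 := h.low 1 (by have := h.two; omega)
        omega
    · exact absurd hodd (by norm_num)
  obtain ⟨v, M, h⟩ := W.winBS' (by norm_num) (fun _ => by norm_num) L h16 (cT := 69) (lb := 0)
    (by norm_num) (by norm_num) le_rfl (fun x hx => absurd hx List.not_mem_nil)
    (fun x hx => absurd hx List.not_mem_nil)
    (fun z x x' h _ _ hl k hk => by
      obtain rfl : k = 0 := by omega
      rw [h.sum H (by omega), nab_zero_only h.only, nab_zero_only h.only'])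
    hpen hJ
  exact ⟨_, h⟩

end Pool.Agent.GaussPoset.Sm
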